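import Pool.Agent.Work.MP_46fa68_T.Near

/-!
# MP_46fa68_co: the one-row solution: series, bounds and the chain of restrictions
-/

set_option autoImplicit false

open Finset

namespace Pool.JM

/-- the series -/
noncomputable def Vf (r i x : ℕ) (C : Finset ℕ) : ℝ := ∑' j, PP r i j * EE (x + j) C

section series

variable {x : ℕ} {C : Finset ℕ} {ρ : ℝ}

theorem EE_geo (h : ∀ y ∈ C, y < x) (hw : w (insert x C) x ≤ ρ) :
    ∀ j, 0 < EE (x + j) C ∧ EE (x + j) C ≤ ρ ^ j * EE x C := by
  intro j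
  induction j with
  | zero => simpa using EE_pos h
  | succ j ih =>
    have h' : ∀ y ∈ C, y < x + j := fun y hy => by
      have := h y hy
      omega
    refine ⟨EE_pos fun y hy => by have := h y hy; omega, ?_⟩
    rw [← add_assoc, EE_succ h']
    have h1 := (w_top_anti h j).trans hw
    have h0 : 0 ≤ w (insert (x + j) C) (x + j) := w_nonneg
    calc w (insert (x + j) C) (x + j) * EE (x + j) C ≤ ρ * (ρ ^ j * EE x C) :=
          mul_le_mul h1 ih.2 ih.1.le (h0.trans h1)
      _ = ρ ^ (j + 1) * EE x C := by ring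

theorem term_le (h : ∀ y ∈ C, y < x) (hw : w (insert x C) x ≤ ρ) {r i : ℕ} (hi : i ≠ 0)
    (hr : r ≠ 0) (l : ℕ) : ‖PP r i (l + i) * EE (x + (l + i)) C‖ ≤
      ((r + i - 1).choose i : ℝ) * ρ ^ i * EE x C *
        (((l + (r + i - 1)).choose (r + i - 1) : ℝ) * ρ ^ l) := by
  have hρ : 0 ≤ ρ := (w_nonneg (B := insert x C) (x := x)).trans hw
  obtain ⟨h1, h2⟩ := EE_geo h hw (l + i)
  rw [norm_mul, Real.norm_eq_abs, Real.norm_eq_abs, abs_of_pos h1]
  have h3 := abs_PP hi hr l
  rw [add_comm i l] at h3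
  calc |PP r i (l + i)| * EE (x + (l + i)) C ≤
      (((r + i - 1).choose i : ℝ) * ((l + (r + i - 1)).choose (r + i - 1) : ℝ)) *
        (ρ ^ (l + i) * EE x C) := mul_le_mul h3 h2 h1.le (by positivity)
    _ = _ := by
      rw [pow_add]
      ring

theorem Vf_summable (h : ∀ y ∈ C, y < x) (hw : w (insert x C) x ≤ ρ) (hρ1 : ρ < 1) (r i : ℕ) :
    Summable fun j => PP r i j * EE (x + j) C := by
  have hρ : 0 ≤ ρ := (w_nonneg (B := insert x C) (x := x)).trans hw
  rcases Nat.eq_zero_or_pos i with rfl | hi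
  · refine summable_of_ne_finset_zero (s := {0}) fun j hj => ?_
    have hj0 : j ≠ 0 := fun h => hj (by simp [h])
    unfold PP
    rw [if_pos rfl, if_neg hj0, zero_mul]
  · rcases Nat.eq_zero_or_pos r with rfl | hr
    · refine summable_of_ne_finset_zero (s := ∅) fun j _ => ?_
      rw [PP_r_zero hi.ne', zero_mul]
    · rw [← summable_nat_add_iff i]
      have hs := (summable_choose_mul_geometric_of_norm_lt_one (r + i - 1)
        (show ‖ρ‖ < 1 by rw [Real.norm_eq_abs, abs_of_nonneg hρ]; exact hρ1)).mul_left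
        (((r + i - 1).choose i : ℝ) * ρ ^ i * EE x C)
      exact Summable.of_norm_bounded hs fun l => term_le h hw hi.ne' hr.ne' l

theorem Vf_le (h : ∀ y ∈ C, y < x) (hw : w (insert x C) x ≤ ρ) (hρ1 : ρ < 1) {r i : ℕ}
    (hi : i ≠ 0) (hr : r ≠ 0) : |Vf r i x C| ≤
      ((r + i - 1).choose i : ℝ) * ρ ^ i / (1 - ρ) ^ (r + i) * EE x C := by
  have hρ : 0 ≤ ρ := (w_nonneg (B := insert x C) (x := x)).trans hw
  have hs := Vf_summable h hw hρ1 r i
  have h1 := hs.sum_add_tsum_nat_add i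
  rw [sum_eq_zero (fun j hj => by rw [PP_lt hi (mem_range.1 hj), zero_mul]), zero_add] at h1
  have h2 := (hasSum_choose_mul_geometric_of_norm_lt_one (r + i - 1)
    (show ‖ρ‖ < 1 by rw [Real.norm_eq_abs, abs_of_nonneg hρ]; exact hρ1)).mul_left
    (((r + i - 1).choose i : ℝ) * ρ ^ i * EE x C)
  have h3 := tsum_of_norm_bounded h2 fun l => term_le h hw hi hr l
  rw [h1] at h3
  unfold Vf
  rw [Real.norm_eq_abs] at h3
  refine h3.trans (le_of_eq ?_)
  rw [show r + i - 1 + 1 = r + i by omega]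
  ring

theorem Vf_i_zero (r : ℕ) : Vf r 0 x C = EE x C := by
  unfold Vf
  rw [tsum_eq_single 0]
  · unfold PP
    rw [if_pos rfl, if_pos rfl, one_mul, add_zero]
  · intro j hj
    unfold PP
    rw [if_pos rfl, if_neg hj, zero_mul]

theorem Vf_r_zero {i : ℕ} (hi : i ≠ 0) : Vf 0 i x C = 0 := by
  unfold Vf
  rw [show (fun j => PP 0 i j * EE (x + j) C) = fun _ => 0 by
    funext j
    rw [PP_r_zero hi, zero_mul], tsum_zero]

/-- the restriction equation for the series -/
theorem Vf_rec (h : ∀ y ∈ C, y + 1 < x) (h0 : 0 ∈ C) (hw : w (insert x C) x ≤ ρ) (hρ1 : ρ < 1)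
    (hw' : ∀ y ∈ ad C, w (insert x (mv C y)) x ≤ ρ) (r i : ℕ) :
    Vf (r + 1) i (x + 1) C + ∑ y ∈ ad C, Vf (r + 1) (i + 1) x (mv C y) = Vf r (i + 1) x C := by
  have hlt : ∀ y ∈ C, y < x := fun y hy => by
    have := h y hy
    omega
  have hlt1 : ∀ y ∈ C, y < x + 1 := fun y hy => by
    have := h y hy
    omega
  have hw1 : w (insert (x + 1) C) (x + 1) ≤ ρ := (w_top_anti hlt 1).trans hw
  have hltm : ∀ y ∈ ad C, ∀ z ∈ mv C y, z < x := by
    intro y hy z hz
    unfold mv at hz
    rw [mem_insert, mem_erase] at hz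
    rcases hz with rfl | hz
    · exact h y (mem_ad.1 hy).1
    · exact hlt z hz.2
  have e1 : ∑ y ∈ ad C, Vf (r + 1) (i + 1) x (mv C y) =
      ∑' j, PP (r + 1) (i + 1) j * ∑ y ∈ ad C, EE (x + j) (mv C y) := by
    unfold Vf
    rw [← Summable.tsum_finsetSum fun y hy => Vf_summable (hltm y hy) (hw' y hy) hρ1 _ _]
    refine tsum_congr fun j => ?_
    rw [mul_sum]
  have sB : Summable fun j => PP (r + 1) (i + 1) j * ∑ y ∈ ad C, EE (x + j) (mv C y) := by
    have := summable_sum (f := fun y j => PP (r + 1) (i + 1) j * EE (x + j) (mv C y))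
      fun y hy => Vf_summable (hltm y hy) (hw' y hy) hρ1 (r + 1) (i + 1)
    refine this.congr fun j => ?_
    rw [mul_sum]
  have sA := Vf_summable hlt1 hw1 hρ1 (r + 1) i
  have sG := Vf_summable hlt1 hw1 hρ1 (r + 1) (i + 1)
  have sR := Vf_summable hlt hw hρ1 r (i + 1)
  have sR' := Vf_summable hlt hw hρ1 (r + 1) (i + 1)
  have e2 : ∑' j, PP (r + 1) (i + 1) j * ∑ y ∈ ad C, EE (x + j) (mv C y) =
      ∑' j, PP (r + 1) (i + 1) (j + 1) * EE (x + (j + 1)) C -
        ∑' j, PP (r + 1) (i + 1) j * EE (x + 1 + j) C := by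
    rw [sB.tsum_eq_zero_add, PP_zero (by omega : i + 1 ≠ 0), zero_mul, zero_add]
    have e3 : ∑' j, PP (r + 1) (i + 1) j * EE (x + 1 + j) C =
        ∑' j, PP (r + 1) (i + 1) (j + 1) * EE (x + 1 + (j + 1)) C := by
      rw [sG.tsum_eq_zero_add, PP_zero (by omega : i + 1 ≠ 0), zero_mul, zero_add]
    rw [e3, ← Summable.tsum_sub ((summable_nat_add_iff 1).2 sR') ((summable_nat_add_iff 1).2 sG)]
    refine tsum_congr fun j => ?_
    have h1 := EE_harm (x := x + (j + 1)) (C := C) (fun y hy => by have := h y hy; omega) h0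
    have h2 : ∑ y ∈ ad C, EE (x + (j + 1)) (mv C y) =
        EE (x + (j + 1)) C - EE (x + 1 + (j + 1)) C := by
      rw [h1, show x + (j + 1) + 1 = x + 1 + (j + 1) by omega]
      ring
    rw [h2]
    ring
  have e4 : Vf r (i + 1) x C = ∑' j, PP r (i + 1) (j + 1) * EE (x + (j + 1)) C := by
    unfold Vf
    rw [sR.tsum_eq_zero_add, PP_zero (by omega : i + 1 ≠ 0), zero_mul, zero_add]
  rw [e1, e2, e4]
  unfold Vf
  have sR1 : Summable fun j => PP (r + 1) (i + 1) (j + 1) * EE (x + (j + 1)) C :=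
    (summable_nat_add_iff 1).2 sR'
  rw [← Summable.tsum_sub sR1 sG, ← Summable.tsum_add sA (sR1.sub sG)]
  refine tsum_congr fun j => ?_
  rw [← PP_rec r i j, show x + 1 + j = x + (j + 1) by omega]
  ring

end series

/-! ### the family -/

/-- the top bead -/
def tb (B : Finset ℕ) : ℕ := B.sup id

theorem tb_insert {x : ℕ} {C : Finset ℕ} (h : ∀ y ∈ C, y < x) : tb (insert x C) = x := by
  unfold tb
  rw [sup_insert, id]
  refine sup_eq_left.2 (Finset.sup_le fun y hy => (h y hy).le)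

theorem exists_top {B : Finset ℕ} (hB : B.Nonempty) :
    ∃ x C, B = insert x C ∧ (∀ y ∈ C, y < x) := by
  refine ⟨B.max' hB, B.erase (B.max' hB), (insert_erase (B.max'_mem hB)).symm, fun y hy => ?_⟩
  obtain ⟨h1, h2⟩ := mem_erase.1 hy
  exact lt_of_le_of_ne (B.le_max' y h2) h1

open Classical in
/-- the near-wall solution -/
noncomputable def YY (m K i₀ r : ℕ) (B : Finset ℕ) : ℝ :=
  if Bl m K B then
    (if K - 1 + m ≤ tb B + i₀ then ex B - Vf r (K - 1 + m - tb B) (tb B) (B.erase (tb B)) else ex B)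
  else 0

theorem Bl_insert {m K x : ℕ} {C : Finset ℕ} (h : ∀ y ∈ C, y < x) :
    Bl m K (insert x C) ↔ x < K - 1 + m := by
  constructor
  · intro hb
    exact hb x (mem_insert_self _ _)
  · intro hx z hz
    rcases mem_insert.1 hz with rfl | hz
    · exact hx
    · exact (h z hz).trans hx

theorem YY_near {m K i₀ r x : ℕ} {C : Finset ℕ} (h : ∀ y ∈ C, y < x) (hx : x ≤ K - 1 + m)
    (hn : K - 1 + m ≤ x + i₀) :
    YY m K i₀ r (insert x C) = ex (insert x C) - Vf r (K - 1 + m - x) x C := by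
  have hxC : x ∉ C := fun hx => lt_irrefl x (h x hx)
  unfold YY
  by_cases hx' : x < K - 1 + m
  · rw [if_pos ((Bl_insert h).2 hx'), tb_insert h, if_pos hn, erase_insert hxC]
  · rw [if_neg fun hb => hx' ((Bl_insert h).1 hb), show K - 1 + m - x = 0 by omega, Vf_i_zero,
      EE_eq h, sub_self]

theorem YY_far {m K i₀ r : ℕ} {B : Finset ℕ} (hb : Bl m K B) (hn : tb B + i₀ < K - 1 + m) :
    YY m K i₀ r B = ex B := by
  unfold YY
  rw [if_pos hb, if_neg (by omega)]

theorem YY_beyond {m K i₀ r : ℕ} {B : Finset ℕ} (hb : ¬ Bl m K B) : YY m K i₀ r B = 0 := by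
  unfold YY
  rw [if_neg hb]

/-- a set with `k` elements has sum at least `0 + 1 + ... + (k-1)` -/
theorem sum_range_le_near (D : Finset ℕ) : ∑ i ∈ range D.card, i ≤ ∑ i ∈ D, i := by
  induction D using Finset.induction_on_max with
  | empty => simp
  | insert a C ha ih =>
    have hn : a ∉ C := fun h => lt_irrefl a (ha a h)
    rw [card_insert_of_notMem hn, sum_range_succ, sum_insert hn]
    have hle : C.card ≤ a := by
      have : C ⊆ range a := fun y hy => mem_range.2 (ha y hy)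
      have := card_le_card this
      rwa [card_range] at this
    omega

/-- a long first row: the second row is shorter -/
theorem second_lt {K n x : ℕ} {C : Finset ℕ} (h : ∀ y ∈ C, y < x) (hB : insert x C ∈ Lv K n)
    (hn : n + 2 * (K - 1) < 2 * x) : ∀ y ∈ C, y + 1 < x := by
  have hxC : x ∉ C := fun hx => lt_irrefl x (h x hx)
  intro y hy
  by_contra hcon
  have hy1 : x = y + 1 := by
    have := h y hy
    omega
  rw [mem_Lv_iff, card_insert_of_notMem hxC, sum_insert hxC] at hB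
  obtain ⟨h1, h2⟩ := hB
  have h3 := sum_range_le_near (C.erase y)
  rw [card_erase_of_mem hy] at h3
  have h4 := add_sum_erase C (fun i => i) hy
  have hc : 0 < C.card := card_pos.2 ⟨y, hy⟩
  obtain ⟨k, hk⟩ : ∃ k, C.card = k + 1 := ⟨C.card - 1, by omega⟩
  have hK : K = k + 1 + 1 := by omega
  rw [hK, sum_range_succ, sum_range_succ] at h2
  rw [hk, Nat.add_sub_cancel] at h3
  rw [hK] at hn
  simp only [Nat.add_sub_cancel] at hn
  omega

section chain

variable {m K i₀ t : ℕ}

/-- the ratio bound near the wall -/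
theorem near_w (hi : 2 * i₀ + t ≤ m) (hm : 1 ≤ m) (hK : m + t < K) {n x : ℕ} {B : Finset ℕ}
    (hB : B ∈ Lv K n) (hn : n ≤ m + t) (hx : x ∈ B) (hxn : K - 1 + m ≤ x + i₀) :
    w B x ≤ 4 / (m + t : ℝ) := by
  have h1 := w_le hB (Lv_zero_mem hB (by omega)) hx
  have h2 : ((m : ℝ) + t) / 2 ≤ (x : ℝ) - ((K : ℝ) - 1) := by
    have h3 : m + t + 2 * (K - 1) ≤ 2 * x := by omega
    have h4 : ((m + t + 2 * (K - 1) : ℕ) : ℝ) ≤ ((2 * x : ℕ) : ℝ) := by exact_mod_cast h3
    rw [Nat.cast_add, Nat.cast_add, Nat.cast_mul, Nat.cast_sub (by omega : 1 ≤ K), Nat.cast_mul]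
      at h4
    push_cast at h4
    linarith
  have hpos : (0 : ℝ) < (m : ℝ) + t := by
    have : (1 : ℝ) ≤ m := by exact_mod_cast hm
    positivity
  have h5 : (((m : ℝ) + t) / 2) ^ 2 ≤ ((x : ℝ) - ((K : ℝ) - 1)) ^ 2 :=
    pow_le_pow_left₀ (by positivity) h2 2
  have h6 : w B x * (((m : ℝ) + t) / 2) ^ 2 ≤ (m : ℝ) + t := by
    refine (mul_le_mul_of_nonneg_left h5 w_nonneg).trans (h1.trans ?_)
    exact_mod_cast hn
  rw [le_div_iff₀ hpos]
  have h7 : w B x * ((m : ℝ) + t) * ((m : ℝ) + t) ≤ 4 * ((m : ℝ) + t) := by nlinarith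
  exact le_of_mul_le_mul_right h7 hpos

/-- the bound for the series -/
noncomputable def vb (m t i : ℕ) : ℝ :=
  ((t + i - 1).choose i : ℝ) * (4 / (m + t : ℝ)) ^ i / (1 - 4 / (m + t : ℝ)) ^ (t + i)

theorem Vf_vb (hi : 2 * i₀ + t ≤ m) (hm : 5 ≤ m) (hK : m + t < K) {n x r i : ℕ} {C : Finset ℕ}
    (h : ∀ y ∈ C, y < x) (hB : insert x C ∈ Lv K n) (hn : n ≤ m + t) (hxn : K - 1 + m ≤ x + i₀)
    (hr : r ≤ t) (hi0 : i ≠ 0) : |Vf r i x C| ≤ vb m t i * ex (insert x C) := by
  have hm' : (5 : ℝ) ≤ m := by exact_mod_cast hm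
  have ht' : (0 : ℝ) ≤ t := Nat.cast_nonneg t
  have hpos : (0 : ℝ) < (m : ℝ) + t := by positivity
  have hρ1 : 4 / ((m : ℝ) + t) < 1 := by
    rw [div_lt_one hpos]
    linarith
  have hρ0 : 0 ≤ 4 / ((m : ℝ) + t) := by positivity
  have h1ρ : 0 < 1 - 4 / ((m : ℝ) + t) := by linarith
  have hv : 0 ≤ vb m t i := by
    unfold vb
    positivity
  rcases Nat.eq_zero_or_pos r with rfl | hr0
  · rw [Vf_r_zero hi0, abs_zero]
    exact mul_nonneg hv (ex_pos _).le
  · have hw := near_w hi (by omega) hK hB hn (mem_insert_self x C) hxn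
    have h2 := Vf_le h hw hρ1 hi0 hr0.ne'
    rw [← EE_eq h]
    refine h2.trans (mul_le_mul_of_nonneg_right ?_ (EE_pos h).le)
    unfold vb
    have h3 : ((r + i - 1).choose i : ℝ) ≤ ((t + i - 1).choose i : ℝ) := by
      exact_mod_cast Nat.choose_le_choose i (by omega)
    have h4 : (1 - 4 / ((m : ℝ) + t)) ^ (t + i) ≤ (1 - 4 / ((m : ℝ) + t)) ^ (r + i) :=
      pow_le_pow_of_le_one h1ρ.le (by linarith) (by omega)
    exact div_le_div₀ (by positivity) (mul_le_mul_of_nonneg_right h3 (by positivity))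
      (by positivity) h4

theorem w_le_one {B : Finset ℕ} (h0 : 0 ∈ B) {x : ℕ} (hx : x ∈ B) : w B x ≤ 1 := by
  rw [← w_sum B h0]
  exact single_le_sum (f := fun x => w B x) (fun y _ => w_nonneg) hx

/-- the chain of restrictions, with the error at the boundary of the near region -/
theorem chain (hi : 2 * i₀ + t ≤ m) (hi0 : 1 ≤ i₀) (hm : 5 ≤ m) (hK : m + t < K) {r : ℕ}
    (hr : r < t) {B : Finset ℕ} (hB : B ∈ Lv K (m + r)) :
    |Dl (YY m K i₀ (r + 1)) B - YY m K i₀ r B| ≤ vb m t i₀ * ex B := by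
  have hm' : (5 : ℝ) ≤ m := by exact_mod_cast hm
  have ht' : (0 : ℝ) ≤ t := Nat.cast_nonneg t
  have hpos : (0 : ℝ) < (m : ℝ) + t := by positivity
  have hρ1 : 4 / ((m : ℝ) + t) < 1 := by
    rw [div_lt_one hpos]
    linarith
  have h1ρ : 0 < 1 - 4 / ((m : ℝ) + t) := by linarith
  have hv : 0 ≤ vb m t i₀ := by
    unfold vb
    positivity
  by_cases hb : Bl m K B
  swap
  · have h1 : Dl (YY m K i₀ (r + 1)) B = 0 := by
      unfold Dl
      exact sum_eq_zero fun x _ => YY_beyond (not_Bl_mv hb)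
    rw [h1, YY_beyond hb, sub_zero, abs_zero]
    exact mul_nonneg hv (ex_pos _).le
  have hne : B.Nonempty := by
    rw [← card_pos, (Lv_spec hB).1]
    omega
  have h0B : 0 ∈ B := Lv_zero_mem hB (by omega)
  obtain ⟨x, C, rfl, h⟩ := exists_top hne
  have hxC : x ∉ C := fun hx => lt_irrefl x (h x hx)
  have hxT : x < K - 1 + m := (Bl_insert h).1 hb
  have hxad : x ∈ ad (insert x C) := by
    refine mem_ad.2 ⟨mem_insert_self _ _, fun h2 => ?_⟩
    rcases mem_insert.1 h2 with h2 | h2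
    · omega
    · have := h _ h2
      omega
  have hmvx : mv (insert x C) x = insert (x + 1) C := by
    unfold mv
    rw [erase_insert hxC]
  by_cases hnear : K - 1 + m ≤ x + i₀
  · -- the near case: exact
    have hsec : ∀ y ∈ C, y + 1 < x := second_lt h hB (by omega)
    have h0C : 0 ∈ C := by
      rcases mem_insert.1 h0B with h2 | h2
      · omega
      · exact h2
    have had : ad (insert x C) = insert x (ad C) := by
      ext z
      simp only [mem_ad, mem_insert]
      constructor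
      · rintro ⟨h2 | h2, h3⟩
        · exact Or.inl h2
        · exact Or.inr ⟨h2, fun h4 => h3 (Or.inr h4)⟩
      · rintro (rfl | ⟨h2, h3⟩)
        · exact ⟨Or.inl rfl, fun h2 => (mem_ad.1 hxad).2 (mem_insert.2 h2)⟩
        · refine ⟨Or.inr h2, ?_⟩
          rintro (h4 | h4)
          · have := hsec _ h2
            omega
          · exact h3 h4
    have hmvy : ∀ y ∈ ad C, mv (insert x C) y = insert x (mv C y) := by
      intro y hy
      have hyx : y ≠ x := fun h4 => hxC (h4 ▸ (mem_ad.1 hy).1)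
      unfold mv
      rw [erase_insert_of_ne hyx.symm, insert_comm]
    have hlt1 : ∀ y ∈ C, y < x + 1 := fun y hy => (h y hy).trans (Nat.lt_succ_self x)
    have hltm : ∀ y ∈ ad C, ∀ z ∈ mv C y, z < x := by
      intro y hy z hz
      unfold mv at hz
      rw [mem_insert, mem_erase] at hz
      rcases hz with rfl | hz
      · exact hsec y (mem_ad.1 hy).1
      · exact h z hz.2
    have hyin : ∀ y ∈ ad C, y ∈ ad (insert x C) := fun y hy => by
      rw [had]
      exact mem_insert_of_mem hy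
    obtain ⟨i, hi'⟩ : ∃ i, K - 1 + m - x = i + 1 := ⟨K - 1 + m - x - 1, by omega⟩
    have hDl : ∀ f : Finset ℕ → ℝ, Dl f (insert x C) =
        f (insert (x + 1) C) + ∑ y ∈ ad C, f (insert x (mv C y)) := by
      intro f
      unfold Dl
      rw [had, sum_insert fun h3 => hxC (mem_ad.1 h3).1, hmvx]
      congr 1
      exact sum_congr rfl fun y hy => by rw [hmvy y hy]
    have hrec := Vf_rec hsec h0C (near_w hi (by omega) hK hB (by omega) (mem_insert_self x C) hnear)
      hρ1 (fun y hy => by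
        have h5 := mv_mem hB (hyin y hy)
        rw [hmvy y hy] at h5
        exact near_w hi (by omega) hK h5 (by omega) (mem_insert_self _ _) hnear) r i
    have hex := Dl_ex h0B
    rw [hDl] at hex ⊢
    have e1 : YY m K i₀ (r + 1) (insert (x + 1) C) =
        ex (insert (x + 1) C) - Vf (r + 1) i (x + 1) C := by
      rw [YY_near hlt1 (by omega) (by omega), show K - 1 + m - (x + 1) = i by omega]
    have e2 : ∀ y ∈ ad C, YY m K i₀ (r + 1) (insert x (mv C y)) =
        ex (insert x (mv C y)) - Vf (r + 1) (i + 1) x (mv C y) := by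
      intro y hy
      rw [YY_near (hltm y hy) (by omega) hnear, hi']
    have hzero : YY m K i₀ (r + 1) (insert (x + 1) C) +
        ∑ y ∈ ad C, YY m K i₀ (r + 1) (insert x (mv C y)) - YY m K i₀ r (insert x C) = 0 := by
      rw [e1, sum_congr rfl e2, sum_sub_distrib, YY_near h (by omega) hnear, hi', ← hrec, ← hex]
      ring
    rw [hzero, abs_zero]
    exact mul_nonneg hv (ex_pos _).le
  · -- the far case
    rw [not_le] at hnear
    have hex := Dl_ex h0B
    have hlt1 : ∀ y ∈ C, y < x + 1 := fun y hy => (h y hy).trans (Nat.lt_succ_self x)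
    have hoth : ∀ y ∈ (ad (insert x C)).erase x, YY m K i₀ (r + 1) (mv (insert x C) y) =
        ex (mv (insert x C) y) := by
      intro y hy
      obtain ⟨hyx, hy⟩ := mem_erase.1 hy
      obtain ⟨hy1, hy2⟩ := mem_ad.1 hy
      have hyC : y ∈ C := by
        rcases mem_insert.1 hy1 with h2 | h2
        · exact absurd h2 hyx
        · exact h2
      have hy3 : y + 1 < x := by
        have h3 := h y hyC
        have h4 : y + 1 ≠ x := fun h5 => hy2 (mem_insert.2 (Or.inl h5))
        omega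
      have hmvy : mv (insert x C) y = insert x (mv C y) := by
        unfold mv
        rw [erase_insert_of_ne hyx.symm, insert_comm]
      have hlt : ∀ z ∈ mv C y, z < x := by
        intro z hz
        unfold mv at hz
        rw [mem_insert, mem_erase] at hz
        rcases hz with rfl | hz
        · exact hy3
        · exact h z hz.2
      rw [hmvy]
      exact YY_far ((Bl_insert hlt).2 hxT) (by rw [tb_insert hlt]; exact hnear)
    have h1 : Dl (YY m K i₀ (r + 1)) (insert x C) - ex (insert x C) =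
        YY m K i₀ (r + 1) (insert (x + 1) C) - ex (insert (x + 1) C) := by
      conv_lhs => rw [← hex]
      unfold Dl
      rw [← add_sum_erase _ _ hxad, ← add_sum_erase (ad (insert x C)) (fun z => ex (mv (insert x C) z))
        hxad, sum_congr rfl hoth, hmvx]
      ring
    rw [YY_far hb (by rw [tb_insert h]; exact hnear), h1]
    have hmem : insert (x + 1) C ∈ Lv K (m + r + 1) := by
      have := mv_mem hB hxad
      rwa [hmvx] at this
    have hexle : ex (insert (x + 1) C) ≤ ex (insert x C) := by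
      have h2 := ex_mv hxad
      rw [hmvx] at h2
      rw [h2]
      have h3 := w_le_one h0B (mem_insert_self x C)
      calc w (insert x C) x * ex (insert x C) ≤ 1 * ex (insert x C) :=
            mul_le_mul_of_nonneg_right h3 (ex_pos _).le
        _ = ex (insert x C) := one_mul _
    by_cases hlast : K - 1 + m ≤ x + 1 + i₀
    · rw [YY_near hlt1 (by omega) hlast, sub_sub_cancel_left, abs_neg,
        show K - 1 + m - (x + 1) = i₀ by omega]
      refine (Vf_vb hi hm hK hlt1 hmem (by omega) hlast (by omega) (by omega)).trans ?_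
      exact mul_le_mul_of_nonneg_left hexle hv
    · rw [YY_far ((Bl_insert hlt1).2 (by omega)) (by rw [tb_insert hlt1]; omega), sub_self, abs_zero]
      exact mul_nonneg hv (ex_pos _).le

theorem Dli_add : ∀ (j : ℕ) (f g : Finset ℕ → ℝ),
    Dl^[j] (fun C => f C + g C) = fun C => Dl^[j] f C + Dl^[j] g C
  | 0, _, _ => rfl
  | j + 1, f, g => by
    rw [Function.iterate_succ_apply', Dli_add j f g]
    funext B
    rw [Dl_add, ← Function.iterate_succ_apply' Dl, ← Function.iterate_succ_apply' Dl]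

/-- the sum of the errors -/
theorem chain_sum (hi : 2 * i₀ + t ≤ m) (hi0 : 1 ≤ i₀) (hm : 5 ≤ m) (hK : m + t < K) :
    ∀ r, r ≤ t → ∀ B ∈ Lv K m,
      |Dl^[r] (YY m K i₀ r) B - YY m K i₀ 0 B| ≤ r * vb m t i₀ * ex B := by
  intro r
  induction r with
  | zero =>
    intro _ B _
    simp
  | succ r ih =>
    intro hr B hB
    have h1 : ∀ C ∈ Lv K (m + r), Dl (YY m K i₀ (r + 1)) C =
        (fun C => YY m K i₀ r C + (Dl (YY m K i₀ (r + 1)) C - YY m K i₀ r C)) C := by
      intro C _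
      simp
    rw [Function.iterate_succ_apply, Dli_congr r m h1 hB, Dli_add]
    simp only
    have h2 := Dli_le (j := r) (n := m) (M := K) (by omega)
      (y := fun C => Dl (YY m K i₀ (r + 1)) C - YY m K i₀ r C) (ε := vb m t i₀)
      (fun C hC => chain hi hi0 hm hK (by omega) hC) B hB
    have h3 := ih (by omega) B hB
    have h4 : Dl^[r] (YY m K i₀ r) B + Dl^[r] (fun C => Dl (YY m K i₀ (r + 1)) C - YY m K i₀ r C) B -
        YY m K i₀ 0 B = (Dl^[r] (YY m K i₀ r) B - YY m K i₀ 0 B) +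
          Dl^[r] (fun C => Dl (YY m K i₀ (r + 1)) C - YY m K i₀ r C) B := by ring
    rw [h4]
    refine (abs_add_le _ _).trans ?_
    push_cast
    have h5 : ((r : ℝ) + 1) * vb m t i₀ * ex B = r * vb m t i₀ * ex B + vb m t i₀ * ex B := by ring
    rw [h5]
    exact add_le_add h3 h2

theorem YY_zero (_hm : 1 ≤ m) {B : Finset ℕ} (hB : B ∈ Lv K m) (hK : 0 < K) (hb : Bl m K B) :
    YY m K i₀ 0 B = ex B := by
  have hne : B.Nonempty := by
    rw [← card_pos, (Lv_spec hB).1]
    exact hK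
  obtain ⟨x, C, rfl, h⟩ := exists_top hne
  have hxT : x < K - 1 + m := (Bl_insert h).1 hb
  by_cases hnear : K - 1 + m ≤ x + i₀
  · rw [YY_near h (by omega) hnear, Vf_r_zero (by omega), sub_zero]
  · exact YY_far hb (by rw [tb_insert h]; omega)

/-- the near-wall solution is close to `1` -/
theorem YY_close (hi : 2 * i₀ + t ≤ m) (hm : 5 ≤ m) (hK : m + t < K) {B : Finset ℕ}
    (hB : B ∈ Lv K (m + t)) (hb : Bl m K B) {v : ℝ} (hv0 : 0 ≤ v)
    (hv : ∀ i, 1 ≤ i → i ≤ i₀ → vb m t i ≤ v) : |YY m K i₀ t B / ex B - 1| ≤ v := by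
  have hne : B.Nonempty := by
    rw [← card_pos, (Lv_spec hB).1]
    omega
  obtain ⟨x, C, rfl, h⟩ := exists_top hne
  have hxT : x < K - 1 + m := (Bl_insert h).1 hb
  have hex := ex_pos (insert x C)
  by_cases hnear : K - 1 + m ≤ x + i₀
  · rw [YY_near h (by omega) hnear, sub_div, div_self hex.ne', sub_sub_cancel_left, abs_neg, abs_div,
      abs_of_pos hex, div_le_iff₀ hex]
    refine (Vf_vb hi hm hK h hB le_rfl hnear le_rfl (by omega)).trans ?_
    exact mul_le_mul_of_nonneg_right (hv _ (by omega) (by omega)) hex.le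
  · rw [YY_far hb (by rw [tb_insert h]; omega), div_self hex.ne', sub_self, abs_zero]
    exact hv0

/-- **The function on the top level.** -/
theorem exists_top_near (hi : 2 * i₀ + t ≤ m) (hi0 : 1 ≤ i₀) (hm : 5 ≤ m) (hK : m + t < K)
    {v : ℝ} (hv0 : 0 ≤ v) (hv : ∀ i, 1 ≤ i → i ≤ i₀ → vb m t i ≤ v) {W : ℝ}
    (hW : W = 1 + (((m + t : ℕ) : ℝ) - 1) / ((m : ℝ) - 1)) :
    ∃ u : Finset ℕ → ℝ, (∀ B ∈ Lv K m, Bl m K B → Dwi (K + m - 2) t u B = 1) ∧
      ∀ B ∈ Lv K (m + t), Bl m K B →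
        |u B - 1| ≤ v + (m + t).choose t * W ^ t * (1 + W) ^ m * (t * vb m t i₀) := by
  have hm' : (5 : ℝ) ≤ m := by exact_mod_cast hm
  have ht' : (0 : ℝ) ≤ t := Nat.cast_nonneg t
  have hpos : (0 : ℝ) < (m : ℝ) + t := by positivity
  have hρ1 : 4 / ((m : ℝ) + t) < 1 := by
    rw [div_lt_one hpos]
    linarith
  have h1ρ : 0 < 1 - 4 / ((m : ℝ) + t) := by linarith
  have hvb : 0 ≤ vb m t i₀ := by
    unfold vb
    positivity
  set u₀ : Finset ℕ → ℝ := fun B => YY m K i₀ t B / ex B with hu₀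
  have hlink := Dli_eq_Dwi (m := m) (K := K) (by omega) (by omega) u₀ t m (YY m K i₀ t)
    (fun B _ hb => YY_beyond hb) (fun B _ _ => by
      rw [hu₀]
      simp only
      rw [mul_div_cancel₀ _ (ex_pos B).ne'])
  obtain ⟨u, hu1, hu2⟩ := exists_top_H (m := m) (t := t) (K := K) (by omega) (by omega) u₀
    (fun B => 1 - Dwi (K + m - 2) t u₀ B) (ε := t * vb m t i₀) (by positivity)
    (fun B _ _ => by ring) (fun B hB hb => by
      have h1 := hlink.2 B hB hb
      have h2 := chain_sum hi hi0 hm hK t le_rfl B hB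
      rw [YY_zero (by omega) hB (by omega) hb, h1, abs_sub_comm] at h2
      have h3 : ex B - ex B * Dwi (K + m - 2) t u₀ B = ex B * (1 - Dwi (K + m - 2) t u₀ B) := by ring
      rw [h3, abs_mul, abs_of_pos (ex_pos B), mul_comm] at h2
      exact le_of_mul_le_mul_right h2 (ex_pos B)) hW
  refine ⟨u, hu1, fun B hB hb => ?_⟩
  have h1 := hu2 B hB hb
  have h2 := YY_close hi hm hK hB hb hv0 hv
  have h3 : u B - 1 = (u₀ B - 1) + (u B - u₀ B) := by ring
  rw [h3]
  exact (abs_add_le _ _).trans (add_le_add h2 h1)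

end chain

end Pool.JM
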