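import Pool.Agent.Work.MP_46fa68_R.Beta

/-!
# MP_46fa68_co: the operators adding and removing a box, and the function `ex = 1/H`

`Dl y B`: sum of `y` over the shapes obtained by adding a box; `Fo ω y B`: weighted sum of `y` over
the shapes obtained by removing a box (the box removed by moving the bead `x` to `x - 1` has weight
`ω (x - 1)`); `ex B`: the number of standard tableaux of the shape divided by the factorial of its
size, by the product formula.
-/

set_option autoImplicit false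

open Finset

namespace Pool.JM

/-- the Vandermonde product -/
noncomputable def vd (B : Finset ℕ) : ℝ := ∏ x ∈ B, ∏ y ∈ B.filter (· < x), ((x : ℝ) - y)

/-- `f^λ / n!` -/
noncomputable def ex (B : Finset ℕ) : ℝ := vd B / ∏ x ∈ B, (x.factorial : ℝ)

/-- move the bead `x` to `x - 1` -/
def mvd (B : Finset ℕ) (x : ℕ) : Finset ℕ := insert (x - 1) (B.erase x)

/-- the beads which can move down -/
def rm (B : Finset ℕ) : Finset ℕ := B.filter fun x => 1 ≤ x ∧ x - 1 ∉ B

/-- the sum over the shapes with one more box -/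
def Dl (y : Finset ℕ → ℝ) (B : Finset ℕ) : ℝ := ∑ x ∈ ad B, y (mv B x)

/-- the weighted sum over the shapes with one box less -/
def Fo (ω : ℕ → ℝ) (y : Finset ℕ → ℝ) (B : Finset ℕ) : ℝ := ∑ x ∈ rm B, ω (x - 1) * y (mvd B x)

theorem mem_rm {B : Finset ℕ} {x : ℕ} : x ∈ rm B ↔ x ∈ B ∧ 1 ≤ x ∧ x - 1 ∉ B := by
  simp [rm]

/-! ### the product formula -/

theorem vd_insert {C : Finset ℕ} {a : ℕ} (ha : a ∉ C) :
    vd (insert a C) = vd C * ∏ y ∈ C, |(a : ℝ) - y| := by
  unfold vd
  rw [prod_insert ha]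
  have h1 : (insert a C).filter (· < a) = C.filter (· < a) := by
    rw [filter_insert, if_neg (lt_irrefl a)]
  have h2 : ∏ x ∈ C, ∏ y ∈ (insert a C).filter (· < x), ((x : ℝ) - y) =
      (∏ x ∈ C, ∏ y ∈ C.filter (· < x), ((x : ℝ) - y)) *
        ∏ x ∈ C.filter (a < ·), ((x : ℝ) - a) := by
    rw [prod_filter, ← prod_mul_distrib]
    refine prod_congr rfl fun x hx => ?_
    rw [filter_insert]
    split_ifs with h
    · rw [prod_insert (fun hh => ha (mem_filter.1 hh).1), mul_comm]
    · rw [mul_one]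
  have h3 : ∏ y ∈ C, |(a : ℝ) - y| =
      (∏ y ∈ C.filter (· < a), ((a : ℝ) - y)) * ∏ x ∈ C.filter (a < ·), ((x : ℝ) - a) := by
    rw [prod_filter, prod_filter, ← prod_mul_distrib]
    refine prod_congr rfl fun y hy => ?_
    have hne : y ≠ a := fun h => ha (h ▸ hy)
    rcases lt_or_gt_of_ne hne with h | h
    · have h' : (y : ℝ) < a := by exact_mod_cast h
      rw [if_pos h, if_neg (by omega), mul_one, abs_of_pos (by linarith)]
    · have h' : (a : ℝ) < y := by exact_mod_cast h
      rw [if_neg (by omega), if_pos h, one_mul, abs_of_neg (by linarith)]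
      ring
  rw [h1, h2, h3]
  ring

theorem vd_pos (B : Finset ℕ) : 0 < vd B := by
  unfold vd
  refine prod_pos fun x _ => prod_pos fun y hy => ?_
  have h : (y : ℝ) < x := by exact_mod_cast (mem_filter.1 hy).2
  linarith

theorem ex_pos (B : Finset ℕ) : 0 < ex B :=
  div_pos (vd_pos B) (prod_pos fun x _ => by exact_mod_cast x.factorial_pos)

theorem ex_insert {C : Finset ℕ} {a : ℕ} (ha : a ∉ C) :
    ex (insert a C) = ex C * (∏ y ∈ C, |(a : ℝ) - y|) / (a.factorial : ℝ) := by
  unfold ex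
  rw [vd_insert ha, prod_insert ha]
  have h1 : (a.factorial : ℝ) ≠ 0 := by exact_mod_cast a.factorial_ne_zero
  have h2 : (∏ x ∈ C, (x.factorial : ℝ)) ≠ 0 :=
    prod_ne_zero_iff.2 fun x _ => by exact_mod_cast x.factorial_ne_zero
  field_simp

theorem ex_mv {B : Finset ℕ} {x : ℕ} (hx : x ∈ ad B) : ex (mv B x) = w B x * ex B := by
  obtain ⟨hx, hx1⟩ := mem_ad.1 hx
  have h1 : x + 1 ∉ B.erase x := fun h => hx1 (mem_of_mem_erase h)
  have h2 : ex B = ex (B.erase x) * (∏ y ∈ B.erase x, |(x : ℝ) - y|) / (x.factorial : ℝ) := by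
    rw [← ex_insert (notMem_erase x B), insert_erase hx]
  have h3 : ex (mv B x) =
      ex (B.erase x) * (∏ y ∈ B.erase x, |((x + 1 : ℕ) : ℝ) - y|) / ((x + 1).factorial : ℝ) := by
    unfold mv
    rw [ex_insert h1]
  have h4 : ∏ y ∈ B.erase x, |((x + 1 : ℕ) : ℝ) - y| =
      (∏ y ∈ B.erase x, (((x : ℝ) + 1 - y) / ((x : ℝ) - y))) * ∏ y ∈ B.erase x, |(x : ℝ) - y| := by
    rw [← prod_mul_distrib]
    refine prod_congr rfl fun y hy => ?_
    obtain ⟨hy1, hy2⟩ := mem_erase.1 hy
    have hy3 : y ≠ x + 1 := fun h => hx1 (h ▸ hy2)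
    push_cast
    rcases lt_or_gt_of_ne hy1 with h | h
    · have h' : (y : ℝ) < x := by exact_mod_cast h
      rw [abs_of_pos (by linarith), abs_of_pos (by linarith), div_mul_cancel₀ _ (by linarith)]
    · have h' : (x : ℝ) + 1 < y := by
        have : x + 1 < y := by omega
        exact_mod_cast this
      rw [abs_of_neg (by linarith), abs_of_neg (by linarith)]
      have : (x : ℝ) - y ≠ 0 := by linarith
      field_simp
  rw [h3, h4, h2, Nat.factorial_succ]
  unfold w
  have h5 : (x.factorial : ℝ) ≠ 0 := by exact_mod_cast x.factorial_ne_zero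
  have h6 : (x : ℝ) + 1 ≠ 0 := by positivity
  push_cast
  field_simp

/-- the ratio for a removed box -/
noncomputable def wd (B : Finset ℕ) (x : ℕ) : ℝ :=
  x * ∏ y ∈ B.erase x, (((x : ℝ) - 1 - y) / ((x : ℝ) - y))

theorem ex_mvd {B : Finset ℕ} {x : ℕ} (hx : x ∈ rm B) : ex (mvd B x) = wd B x * ex B := by
  obtain ⟨hx, hx0, hx1⟩ := mem_rm.1 hx
  obtain ⟨z, rfl⟩ : ∃ z, x = z + 1 := ⟨x - 1, by omega⟩
  rw [Nat.add_sub_cancel] at hx1
  have h1 : z ∉ B.erase (z + 1) := fun h => hx1 (mem_of_mem_erase h)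
  have h2 : ex B = ex (B.erase (z + 1)) * (∏ y ∈ B.erase (z + 1), |((z + 1 : ℕ) : ℝ) - y|) /
      ((z + 1).factorial : ℝ) := by
    rw [← ex_insert (notMem_erase (z + 1) B), insert_erase hx]
  have h3 : ex (mvd B (z + 1)) =
      ex (B.erase (z + 1)) * (∏ y ∈ B.erase (z + 1), |(z : ℝ) - y|) / (z.factorial : ℝ) := by
    unfold mvd
    rw [Nat.add_sub_cancel, ex_insert h1]
  have h4 : ∏ y ∈ B.erase (z + 1), |(z : ℝ) - y| =
      (∏ y ∈ B.erase (z + 1), ((((z + 1 : ℕ) : ℝ) - 1 - y) / (((z + 1 : ℕ) : ℝ) - y))) *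
        ∏ y ∈ B.erase (z + 1), |((z + 1 : ℕ) : ℝ) - y| := by
    rw [← prod_mul_distrib]
    refine prod_congr rfl fun y hy => ?_
    obtain ⟨hy1, hy2⟩ := mem_erase.1 hy
    have hy3 : y ≠ z := fun h => hx1 (h ▸ hy2)
    push_cast
    rw [add_sub_cancel_right]
    rcases lt_or_gt_of_ne hy1 with h | h
    · have h' : (y : ℝ) < z := by
        have : y < z := by omega
        exact_mod_cast this
      rw [abs_of_pos (by linarith), abs_of_pos (by linarith), div_mul_cancel₀ _ (by linarith)]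
    · have h' : (z : ℝ) + 1 < y := by exact_mod_cast h
      rw [abs_of_neg (by linarith), abs_of_neg (by linarith)]
      have : (z : ℝ) + 1 - y ≠ 0 := by linarith
      field_simp
  rw [h3, h4, h2, Nat.factorial_succ]
  unfold wd
  have h5 : (z.factorial : ℝ) ≠ 0 := by exact_mod_cast z.factorial_ne_zero
  have h6 : (z : ℝ) + 1 ≠ 0 := by positivity
  push_cast
  field_simp

/-! ### the sums of the ratios -/

theorem wd_zero {B : Finset ℕ} {x : ℕ} (h : x ∉ rm B) (hx : x ∈ B) : wd B x = 0 := by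
  unfold wd
  by_cases h0 : x = 0
  · rw [h0]
    simp
  · have h1 : x - 1 ∈ B := by
      by_contra h1
      exact h (mem_rm.2 ⟨hx, by omega, h1⟩)
    have h2 : (x : ℝ) - 1 - ((x - 1 : ℕ) : ℝ) = 0 := by
      rw [Nat.cast_sub (by omega : 1 ≤ x)]
      push_cast
      ring
    rw [prod_eq_zero (i := x - 1) (mem_erase.2 ⟨by omega, h1⟩) (by rw [h2, zero_div]), mul_zero]

theorem sum_one_sub (B : Finset ℕ) :
    ∑ x ∈ B, ∏ y ∈ B.erase x, (((x : ℝ) - 1 - y) / ((x : ℝ) - y)) = B.card := by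
  classical
  rcases B.eq_empty_or_nonempty with rfl | hne
  · simp
  have hc : 0 < B.card := card_pos.2 hne
  let P1 : Polynomial ℝ := ∏ y ∈ B, (Polynomial.X - Polynomial.C ((y : ℝ) + 1))
  let P0 : Polynomial ℝ := ∏ y ∈ B, (Polynomial.X - Polynomial.C (y : ℝ))
  have m1 : P1.Monic := Polynomial.monic_prod_of_monic _ _ fun _ _ => Polynomial.monic_X_sub_C _
  have m0 : P0.Monic := Polynomial.monic_prod_of_monic _ _ fun _ _ => Polynomial.monic_X_sub_C _
  have d1 : P1.natDegree = B.card := by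
    rw [Polynomial.natDegree_prod_of_monic _ _ fun _ _ => Polynomial.monic_X_sub_C _]
    have : ∀ x ∈ B, (Polynomial.X - Polynomial.C ((x : ℝ) + 1)).natDegree = 1 :=
      fun x _ => Polynomial.natDegree_X_sub_C ((x : ℝ) + 1)
    rw [sum_congr rfl this, sum_const, smul_eq_mul, mul_one]
  have d0 : P0.natDegree = B.card := by
    rw [Polynomial.natDegree_prod_of_monic _ _ fun _ _ => Polynomial.monic_X_sub_C _]
    have : ∀ x ∈ B, (Polynomial.X - Polynomial.C (x : ℝ)).natDegree = 1 :=
      fun x _ => Polynomial.natDegree_X_sub_C (x : ℝ)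
    rw [sum_congr rfl this, sum_const, smul_eq_mul, mul_one]
  have e1 : P1.degree = (B.card : WithBot ℕ) := by
    rw [Polynomial.degree_eq_natDegree m1.ne_zero, d1]
  have e0 : P0.degree = (B.card : WithBot ℕ) := by
    rw [Polynomial.degree_eq_natDegree m0.ne_zero, d0]
  have hd : (P1 - P0).degree < (B.card : WithBot ℕ) := by
    rw [← e1]
    exact Polynomial.degree_sub_lt_left (by rw [e1, e0]) m1.ne_zero (by rw [m1.leadingCoeff, m0.leadingCoeff])
  have h := Lagrange.coeff_eq_sum (inj B) hd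
  have c1 : P1.coeff (B.card - 1) = -∑ y ∈ B, ((y : ℝ) + 1) := by
    have := Polynomial.prod_X_sub_C_nextCoeff (s := B) (fun y : ℕ => (y : ℝ) + 1)
    rw [Polynomial.nextCoeff_of_natDegree_pos (by rw [show (∏ i ∈ B, (Polynomial.X -
      Polynomial.C ((fun y : ℕ => (y : ℝ) + 1) i))) = P1 from rfl, d1]; exact hc)] at this
    rw [show (∏ i ∈ B, (Polynomial.X - Polynomial.C ((fun y : ℕ => (y : ℝ) + 1) i))) = P1 from rfl,
      d1] at this
    exact this
  have c0 : P0.coeff (B.card - 1) = -∑ y ∈ B, (y : ℝ) := by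
    have := Polynomial.prod_X_sub_C_nextCoeff (s := B) (fun y : ℕ => (y : ℝ))
    rw [Polynomial.nextCoeff_of_natDegree_pos (by rw [show (∏ i ∈ B, (Polynomial.X -
      Polynomial.C ((fun y : ℕ => (y : ℝ)) i))) = P0 from rfl, d0]; exact hc)] at this
    rw [show (∏ i ∈ B, (Polynomial.X - Polynomial.C ((fun y : ℕ => (y : ℝ)) i))) = P0 from rfl,
      d0] at this
    exact this
  rw [Polynomial.coeff_sub, c1, c0, sum_add_distrib, sum_const, nsmul_eq_mul, mul_one] at h
  have h2 : ∑ x ∈ B, (P1 - P0).eval (x : ℝ) / ∏ y ∈ B.erase x, ((x : ℝ) - y) =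
      -∑ x ∈ B, ∏ y ∈ B.erase x, (((x : ℝ) - 1 - y) / ((x : ℝ) - y)) := by
    rw [← sum_neg_distrib]
    refine sum_congr rfl fun x hx => ?_
    have v0 : P0.eval (x : ℝ) = 0 := by
      rw [Polynomial.eval_prod]
      exact prod_eq_zero hx (by simp)
    have v1 : P1.eval (x : ℝ) = -∏ y ∈ B.erase x, ((x : ℝ) - 1 - y) := by
      rw [Polynomial.eval_prod, ← mul_prod_erase B _ hx]
      simp only [Polynomial.eval_sub, Polynomial.eval_X, Polynomial.eval_C]
      have : ∏ y ∈ B.erase x, ((x : ℝ) - ((y : ℝ) + 1)) = ∏ y ∈ B.erase x, ((x : ℝ) - 1 - y) :=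
        prod_congr rfl fun y _ => by ring
      rw [this]
      ring
    rw [Polynomial.eval_sub, v0, v1, sub_zero, prod_div_distrib, neg_div]
  rw [h2] at h
  linarith

theorem sum_wd (B : Finset ℕ) : ∑ x ∈ B, wd B x = ∑ x ∈ B, (x : ℝ) - ∑ i ∈ range B.card, (i : ℝ) := by
  classical
  induction B using Finset.induction_on with
  | empty => simp
  | insert a C ha ih =>
    have hS := sum_one_sub (insert a C)
    have hC := sum_one_sub C
    set g : Finset ℕ → ℕ → ℝ := fun B x => ∏ y ∈ B.erase x, (((x : ℝ) - 1 - y) / ((x : ℝ) - y))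
      with hg
    have key : ∀ x ∈ C, ((x : ℝ) - a) * g (insert a C) x = ((x : ℝ) - 1 - a) * g C x := by
      intro x hx
      have hxa : x ≠ a := fun h => ha (h ▸ hx)
      have e1 : (insert a C).erase x = insert a (C.erase x) := by
        rw [erase_insert_of_ne hxa.symm]
      have hxa' : (x : ℝ) - a ≠ 0 := by
        rw [sub_ne_zero]
        exact_mod_cast hxa
      simp only [hg]
      rw [e1, prod_insert (fun h => ha (mem_of_mem_erase h))]
      field_simp
    have h1 : ∑ x ∈ insert a C, ((x : ℝ) - a) * g (insert a C) x =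
        ∑ x ∈ C, ((x : ℝ) - 1 - a) * g C x := by
      rw [sum_insert ha, sub_self, zero_mul, zero_add]
      exact sum_congr rfl key
    have h2 : ∑ x ∈ insert a C, ((x : ℝ) - a) * g (insert a C) x =
        ∑ x ∈ insert a C, wd (insert a C) x - a * ∑ x ∈ insert a C, g (insert a C) x := by
      rw [mul_sum, ← sum_sub_distrib]
      refine sum_congr rfl fun x _ => ?_
      unfold wd
      ring
    have h3 : ∑ x ∈ C, ((x : ℝ) - 1 - a) * g C x =
        ∑ x ∈ C, wd C x - (a + 1) * ∑ x ∈ C, g C x := by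
      rw [mul_sum, ← sum_sub_distrib]
      refine sum_congr rfl fun x _ => ?_
      unfold wd
      ring
    rw [h2, h3] at h1
    simp only [hg] at h1
    rw [hS, hC, ih] at h1
    have e2 : ∑ x ∈ insert a C, (x : ℝ) = a + ∑ x ∈ C, (x : ℝ) := sum_insert ha
    have e3 : ∑ i ∈ range (insert a C).card, (i : ℝ) = ∑ i ∈ range C.card, (i : ℝ) + C.card := by
      rw [card_insert_of_notMem ha, sum_range_succ]
    rw [card_insert_of_notMem ha] at h1
    rw [e2, e3]
    push_cast at h1
    linarith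

/-! ### levels -/

theorem mv_mvd {B : Finset ℕ} {x : ℕ} (hx : x ∈ rm B) : x - 1 ∈ ad (mvd B x) ∧
    mv (mvd B x) (x - 1) = B := by
  obtain ⟨hx, hx0, hx1⟩ := mem_rm.1 hx
  refine ⟨mem_ad.2 ⟨mem_insert_self _ _, ?_⟩, ?_⟩
  · rw [Nat.sub_add_cancel hx0]
    intro h
    rcases mem_insert.1 h with h | h
    · omega
    · exact (notMem_erase x B) h
  · ext y
    simp only [mv, mvd, mem_insert, mem_erase]
    rw [Nat.sub_add_cancel hx0]
    constructor
    · rintro (h | ⟨h1, h2 | ⟨-, h2⟩⟩)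
      · exact h ▸ hx
      · exact absurd h2 h1
      · exact h2
    · intro h
      by_cases hyx : y = x
      · exact Or.inl hyx
      · exact Or.inr ⟨fun h' => hx1 (h' ▸ h), Or.inr ⟨hyx, h⟩⟩

theorem exists_rm {B : Finset ℕ} (h : B ≠ range B.card) : (rm B).Nonempty := by
  classical
  by_contra hne
  rw [not_nonempty_iff_eq_empty] at hne
  have h1 : ∀ x ∈ B, 1 ≤ x → x - 1 ∈ B := by
    intro x hx hx1
    by_contra hx2
    have : x ∈ rm B := mem_rm.2 ⟨hx, hx1, hx2⟩
    rw [hne] at this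
    exact absurd this (notMem_empty x)
  have h2 : ∀ x ∈ B, ∀ k, k ≤ x → x - k ∈ B := by
    intro x hx k
    induction k with
    | zero => intro _; simpa using hx
    | succ k ih =>
      intro hk
      have := h1 (x - k) (ih (by omega)) (by omega)
      rwa [show x - (k + 1) = x - k - 1 by omega]
  have h3 : ∀ x ∈ B, range (x + 1) ⊆ B := by
    intro x hx y hy
    have := h2 x hx (x - y) (by omega)
    have hy' := mem_range.1 hy
    rwa [show x - (x - y) = y by omega] at this
  refine h (eq_of_subset_of_card_le (fun x hx => ?_) (by rw [card_range]))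
  rw [mem_range]
  have := card_le_card (h3 x hx)
  rw [card_range] at this
  omega

theorem mem_Lv_iff {M : ℕ} : ∀ {n : ℕ} {B : Finset ℕ},
    B ∈ Lv M n ↔ B.card = M ∧ ∑ i ∈ B, i = ∑ i ∈ range M, i + n := by
  intro n
  induction n with
  | zero =>
    intro B
    constructor
    · intro h
      exact ⟨(Lv_spec h).1, (Lv_spec h).2.2.2⟩
    · rintro ⟨h1, h2⟩
      simp only [Lv, mem_singleton]
      by_contra hne
      obtain ⟨x, hx⟩ := exists_rm (B := B) (by rwa [h1])
      have key : ∀ C : Finset ℕ, ∑ i ∈ range C.card, i ≤ ∑ i ∈ C, i := by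
        intro C
        induction C using Finset.induction_on_max with
        | empty => simp
        | insert a C ha ih =>
          have hn : a ∉ C := fun h => lt_irrefl a (ha a h)
          rw [card_insert_of_notMem hn, sum_range_succ, sum_insert hn]
          have hle : C.card ≤ a := by
            have : C ⊆ range a := fun y hy => mem_range.2 (ha y hy)
            have := card_le_card this
            rwa [card_range] at this
          omega
      obtain ⟨hx1, hx2, hx3⟩ := mem_rm.1 hx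
      have hn : x - 1 ∉ B.erase x := fun h => hx3 (mem_of_mem_erase h)
      have h3 := key (mvd B x)
      unfold mvd at h3
      rw [card_insert_of_notMem hn, card_erase_of_mem hx1, sum_insert hn] at h3
      have h4 := add_sum_erase B (fun i => i) hx1
      have h5 : 0 < B.card := card_pos.2 ⟨x, hx1⟩
      rw [show B.card - 1 + 1 = M by omega] at h3
      omega
  | succ n ih =>
    intro B
    constructor
    · intro h
      exact ⟨(Lv_spec h).1, (Lv_spec h).2.2.2⟩
    · rintro ⟨h1, h2⟩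
      have hne : B ≠ range B.card := by
        intro h
        rw [h1] at h
        rw [h] at h2
        omega
      obtain ⟨x, hx⟩ := exists_rm hne
      obtain ⟨hx1, hx2, hx3⟩ := mem_rm.1 hx
      have hn : x - 1 ∉ B.erase x := fun h => hx3 (mem_of_mem_erase h)
      obtain ⟨h5, h6⟩ := mv_mvd hx
      have h4 := add_sum_erase B (fun i => i) hx1
      have h7 : 0 < B.card := card_pos.2 ⟨x, hx1⟩
      have : mvd B x ∈ Lv M n := by
        rw [ih]
        unfold mvd
        rw [card_insert_of_notMem hn, card_erase_of_mem hx1, sum_insert hn]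
        omega
      rw [← h6]
      exact mv_mem this h5

theorem mvd_mem {M n : ℕ} {B : Finset ℕ} (hB : B ∈ Lv M (n + 1)) {x : ℕ} (hx : x ∈ rm B) :
    mvd B x ∈ Lv M n := by
  obtain ⟨hx1, hx2, hx3⟩ := mem_rm.1 hx
  have hn : x - 1 ∉ B.erase x := fun h => hx3 (mem_of_mem_erase h)
  have h4 := add_sum_erase B (fun i => i) hx1
  have h7 : 0 < B.card := card_pos.2 ⟨x, hx1⟩
  rw [mem_Lv_iff] at hB ⊢
  unfold mvd
  rw [card_insert_of_notMem hn, card_erase_of_mem hx1, sum_insert hn]
  omega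

theorem rm_zero {M : ℕ} {B : Finset ℕ} (hB : B ∈ Lv M 0) : rm B = ∅ := by
  simp only [Lv, mem_singleton] at hB
  subst hB
  refine eq_empty_of_forall_notMem fun x hx => ?_
  obtain ⟨h1, h2, h3⟩ := mem_rm.1 hx
  rw [mem_range] at h1 h3
  omega

/-- adding a box to `ex` -/
theorem Dl_ex {B : Finset ℕ} (h0 : 0 ∈ B) : Dl ex B = ex B := by
  unfold Dl
  have h1 : ∑ x ∈ ad B, ex (mv B x) = ∑ x ∈ ad B, w B x * ex B :=
    sum_congr rfl fun x hx => ex_mv hx
  have h2 : ∑ x ∈ ad B, w B x = ∑ x ∈ B, w B x := by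
    refine sum_subset (filter_subset _ _) fun x hx hx' => w_zero ?_
    by_contra h
    exact hx' (mem_ad.2 ⟨hx, h⟩)
  rw [h1, ← sum_mul, h2, w_sum B h0, one_mul]

/-- removing a box from `ex` -/
theorem sum_rm_ex {M n : ℕ} {B : Finset ℕ} (hB : B ∈ Lv M n) :
    ∑ x ∈ rm B, ex (mvd B x) = n * ex B := by
  have h1 : ∑ x ∈ rm B, ex (mvd B x) = ∑ x ∈ rm B, wd B x * ex B :=
    sum_congr rfl fun x hx => ex_mvd hx
  have h2 : ∑ x ∈ rm B, wd B x = ∑ x ∈ B, wd B x :=
    sum_subset (filter_subset _ _) fun x hx hx' => wd_zero hx' hx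
  rw [h1, ← sum_mul, h2, sum_wd]
  obtain ⟨h3, -, -, h4⟩ := Lv_spec hB
  rw [h3]
  have h5 : ∑ x ∈ B, (x : ℝ) = ∑ i ∈ range M, (i : ℝ) + n := by
    have := congrArg (Nat.cast : ℕ → ℝ) h4
    push_cast at this
    exact this
  rw [h5]
  ring

end Pool.JM
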