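import Pool.Agent.Work.MP_46fa68_T.T
import Pool.Agent.Work.MP_46fa68_h4.Top

/-!
# MP_46fa68_co: the two right inverses, their norms, and the repair theorem

`k = m - 1`.  Affine weights `1 - c/k` (coefficients `cH`), and `(k - c)(R + c)` (coefficients `cS`).
-/

set_option autoImplicit false

open Finset Equiv

namespace Pool.JM

/-! ### coefficients -/

/-- the coefficients for the affine weights -/
noncomputable def cH (t s : ℕ) : ℝ := (-1) ^ s * ((t + s - 1).choose s : ℝ) / (t + s).factorial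

theorem rec_cH (m tm : ℕ) : Rec 1 0 m tm cH := by
  refine ⟨?_, ?_, ?_, ?_⟩
  · simp [cH]
  · intro s
    unfold cH
    rw [show 0 + (s + 1) - 1 = s by omega, Nat.choose_eq_zero_of_lt (Nat.lt_succ_self s)]
    simp
  · intro t _
    unfold cH co
    simp only [pow_zero, add_zero, Nat.choose_zero_right, Nat.factorial_succ]
    push_cast
    have h1 : (t.factorial : ℝ) ≠ 0 := by exact_mod_cast t.factorial_ne_zero
    have h2 : (t : ℝ) + 1 ≠ 0 := by positivity
    field_simp
    ring
  · intro t _ s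
    unfold cH co
    rw [show t + 1 + (s + 1) - 1 = (t + s) + 1 by omega, show t + 1 + s - 1 = t + s by omega,
      show t + (s + 1) - 1 = t + s by omega, Nat.choose_succ_succ,
      show t + 1 + (s + 1) = (t + s + 1) + 1 by omega, show t + 1 + s = t + s + 1 by omega,
      show t + (s + 1) = t + s + 1 by omega, Nat.factorial_succ (t + s + 1)]
    push_cast
    have h1 : ((t + s + 1).factorial : ℝ) ≠ 0 := by exact_mod_cast (t + s + 1).factorial_ne_zero
    have h2 : (t : ℝ) + s + 1 + 1 ≠ 0 := by positivity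
    rw [pow_succ]
    field_simp
    ring

/-- the coefficients for the weights `(k - c)(R + c)`, `h = kR - 2m` -/
noncomputable def cS (h : ℕ) (t s : ℕ) : ℝ := cH t s * ((h - t).factorial / (h + s).factorial)

theorem rec_cS {m tm h : ℕ} {p : ℝ} (hp : (h : ℝ) = p - 2 * m) (hh : tm ≤ h) :
    Rec p (-1) m tm (cS h) := by
  refine ⟨?_, ?_, ?_, ?_⟩
  · have h1 : (h.factorial : ℝ) ≠ 0 := by exact_mod_cast h.factorial_ne_zero
    unfold cS
    rw [(rec_cH m tm).c00, Nat.sub_zero, add_zero, div_self h1, one_mul]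
  · intro s
    unfold cS
    rw [(rec_cH m tm).c0s, zero_mul]
  · intro t ht
    obtain ⟨h', rfl⟩ : ∃ h', h = h' + (t + 1) := ⟨h - (t + 1), by omega⟩
    unfold cS cH co
    rw [show h' + (t + 1) - (t + 1) = h' by omega, show h' + (t + 1) - t = h' + 1 by omega]
    simp only [pow_zero, add_zero, Nat.choose_zero_right, Nat.factorial_succ t,
      Nat.factorial_succ h']
    push_cast at hp ⊢
    have h1 : (t.factorial : ℝ) ≠ 0 := by exact_mod_cast t.factorial_ne_zero
    have h2 : (t : ℝ) + 1 ≠ 0 := by positivity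
    have h3 : ((h' + (t + 1)).factorial : ℝ) ≠ 0 := by exact_mod_cast Nat.factorial_ne_zero _
    have hp' : p = h' + t + 1 + 2 * m := by linarith
    rw [hp']
    field_simp
    ring
  · intro t ht s
    obtain ⟨h', rfl⟩ : ∃ h', h = h' + (t + 1) := ⟨h - (t + 1), by omega⟩
    have key : ((t + s).choose (s + 1) : ℝ) * (s + 1) = (t + s).choose s * t := by
      have := Nat.choose_succ_right_eq (t + s) s
      rw [show t + s - s = t by omega] at this
      exact_mod_cast this
    unfold cS cH co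
    rw [show h' + (t + 1) - (t + 1) = h' by omega, show h' + (t + 1) - t = h' + 1 by omega,
      show t + 1 + (s + 1) - 1 = (t + s) + 1 by omega, show t + 1 + s - 1 = t + s by omega,
      show t + (s + 1) - 1 = t + s by omega, Nat.choose_succ_succ,
      show t + 1 + (s + 1) = (t + s + 1) + 1 by omega, show t + 1 + s = t + s + 1 by omega,
      show t + (s + 1) = t + s + 1 by omega, Nat.factorial_succ (t + s + 1),
      show h' + (t + 1) + (s + 1) = (h' + (t + 1) + s) + 1 by omega,
      Nat.factorial_succ (h' + (t + 1) + s), Nat.factorial_succ h']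
    push_cast at hp ⊢
    have h1 : ((t + s + 1).factorial : ℝ) ≠ 0 := by exact_mod_cast (t + s + 1).factorial_ne_zero
    have h2 : (t : ℝ) + s + 1 + 1 ≠ 0 := by positivity
    have h3 : ((h' + (t + 1) + s).factorial : ℝ) ≠ 0 := by exact_mod_cast Nat.factorial_ne_zero _
    have h4 : (h' : ℝ) + (t + 1) + s + 1 ≠ 0 := by positivity
    have hp' : p = h' + t + 1 + 2 * m := by linarith
    rw [hp', pow_succ]
    field_simp
    linear_combination -key

/-! ### the weights -/

/-- positions of movable beads -/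
theorem rm_ge {M n : ℕ} {B : Finset ℕ} (hB : B ∈ Lv M (n + 1)) {x : ℕ} (hx : x ∈ rm B) :
    M ≤ x + n := by
  obtain ⟨-, h1, h2⟩ := mem_rm.1 hx
  by_contra h
  exact h2 ((Lv_spec hB).2.1 (x - 1) (by omega))

/-- the affine weights `1 - c/k`, `k = m - 1` -/
noncomputable def wH (M m : ℕ) : ℕ → ℝ := wq M 1 (-(1 / ((m : ℝ) - 1))) 0

theorem kap_wH (M m n : ℕ) (B : Finset ℕ) (hn : n < M) (hB : B ∈ Lv M n) :
    kap (wH M m) B = 1 + 2 * 0 * n := kap_wq hB (Lv_zero_mem hB hn) _ _ _

theorem good_wH {M N m : ℕ} (hm : 2 ≤ m) (hNM : N ≤ M) :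
    GoodW M N (wH M m) (Bl m M) (1 + ((N : ℝ) - 1) / ((m : ℝ) - 1)) := by
  have hm' : (0 : ℝ) < (m : ℝ) - 1 := by
    have : (2 : ℝ) ≤ m := by exact_mod_cast hm
    linarith
  refine ⟨?_, ?_, ?_, ?_⟩
  · rcases Nat.eq_zero_or_pos N with rfl | hN
    · have h1 : (1 : ℝ) ≤ (m : ℝ) - 1 := by
        have : (2 : ℝ) ≤ m := by exact_mod_cast hm
        linarith
      have h2 : ((0 : ℕ) : ℝ) - 1 = -1 := by norm_num
      rw [h2, neg_div]
      have h3 : 1 / ((m : ℝ) - 1) ≤ 1 := by
        rw [div_le_one hm']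
        exact h1
      linarith
    · have h1 : (1 : ℝ) ≤ N := by exact_mod_cast hN
      have : 0 ≤ ((N : ℝ) - 1) / ((m : ℝ) - 1) := div_nonneg (by linarith) hm'.le
      linarith
  · intro n _ B _ x _ h
    by_contra hB
    exact not_Bl_mv hB h
  · intro n hn B hB x hx h
    have h1 := rm_ge hB hx
    obtain ⟨h2, h3, h4⟩ := mem_rm.1 hx
    have h5 : x - 1 < M - 1 + m := h (x - 1) (mem_insert_self _ _)
    have h6 : ((x - 1 : ℕ) : ℝ) = (x : ℝ) - 1 := by
      rw [Nat.cast_sub h3]
      push_cast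
      ring
    have h7 : (x : ℝ) ≤ M - 1 + m := by
      have : x ≤ M - 1 + m := by omega
      have h8 : ((M - 1 + m : ℕ) : ℝ) = (M : ℝ) - 1 + m := by
        rw [Nat.cast_add, Nat.cast_sub (by omega : 1 ≤ M)]
        push_cast
        ring
      rw [← h8]
      exact_mod_cast this
    have h8 : (M : ℝ) ≤ x + n := by exact_mod_cast h1
    have h9 : (n : ℝ) + 1 ≤ N := by exact_mod_cast hn
    have h10 : wH M m (x - 1) = 1 - ((x : ℝ) - M) / ((m : ℝ) - 1) := by
      unfold wH wq
      rw [h6]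
      ring
    rw [h10, abs_of_nonneg]
    · have : -((x : ℝ) - M) / ((m : ℝ) - 1) ≤ ((N : ℝ) - 1) / ((m : ℝ) - 1) := by
        refine div_le_div_of_nonneg_right ?_ hm'.le
        linarith
      rw [neg_div] at this
      linarith
    · have : ((x : ℝ) - M) / ((m : ℝ) - 1) ≤ 1 := by
        rw [div_le_one hm']
        linarith
      linarith
  · intro n _ B hB x hx h hS
    obtain ⟨h2, h3, h4⟩ := mem_rm.1 hx
    have h5 : x - 1 < M - 1 + m := h (x - 1) (mem_insert_self _ _)
    have h6 : M - 1 + m ≤ x := by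
      by_contra hcon
      apply hS
      intro z hz
      by_cases hzx : z = x
      · omega
      · exact h z (mem_insert_of_mem (mem_erase.2 ⟨hzx, hz⟩))
    have h7 : x = M - 1 + m := by omega
    have h8 : 1 ≤ M := by omega
    have h9 : ((x - 1 : ℕ) : ℝ) = (M : ℝ) - 1 + m - 1 := by
      rw [h7, Nat.cast_sub (by omega), Nat.cast_add, Nat.cast_sub h8]
      push_cast
      ring
    unfold wH wq
    rw [h9]
    field_simp
    ring

/-- the set of shapes with first row `< m` and at most `R` rows -/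
def BlR (m R M : ℕ) (B : Finset ℕ) : Prop := Bl m M B ∧ ∀ i, i + R < M → i ∈ B

/-- the weights `(k - c)(R + c)`, `k = m - 1` -/
noncomputable def wS (M m R : ℕ) : ℕ → ℝ := wq M (((m : ℝ) - 1) * R) ((m : ℝ) - 1 - R) (-1)

theorem kap_wS (M m R n : ℕ) (B : Finset ℕ) (hn : n < M) (hB : B ∈ Lv M n) :
    kap (wS M m R) B = ((m : ℝ) - 1) * R + 2 * (-1) * n := kap_wq hB (Lv_zero_mem hB hn) _ _ _

theorem good_wS {M N m R : ℕ} (hm : 2 ≤ m) (hR : R = m - 1 ∨ R = m) :
    GoodW M N (wS M m R) (BlR m R M) (((m : ℝ) - 1) * R) := by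
  have hm' : (0 : ℝ) < (m : ℝ) - 1 := by
    have : (2 : ℝ) ≤ m := by exact_mod_cast hm
    linarith
  have hR' : (R : ℝ) = (m : ℝ) - 1 ∨ (R : ℝ) = m := by
    rcases hR with rfl | rfl
    · left
      rw [Nat.cast_sub (by omega)]
      push_cast
      ring
    · right
      rfl
  have hval : ∀ x : ℕ, 1 ≤ x → wS M m R (x - 1) =
      ((m : ℝ) - 1 - ((x : ℝ) - M)) * (R + ((x : ℝ) - M)) := by
    intro x hx
    unfold wS wq
    rw [Nat.cast_sub hx]
    push_cast
    ring
  refine ⟨by positivity, ?_, ?_, ?_⟩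
  · intro n _ B _ x hx h
    refine ⟨?_, fun i hi => ?_⟩
    · by_contra hB
      exact not_Bl_mv hB h.1
    · have h1 := h.2 i hi
      unfold mv at h1
      rw [mem_insert, mem_erase] at h1
      rcases h1 with h1 | h1
      · have h2 := h.2 x (by omega)
        unfold mv at h2
        rw [mem_insert, mem_erase] at h2
        rcases h2 with h2 | h2
        · omega
        · exact absurd rfl h2.1
      · exact h1.2
  · intro n hn B hB x hx h
    obtain ⟨h2, h3, h4⟩ := mem_rm.1 hx
    have h5 : x - 1 < M - 1 + m := h.1 (x - 1) (mem_insert_self _ _)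
    have h6 : M ≤ x + R := by
      by_contra hcon
      have h7 := h.2 x (by omega)
      unfold mvd at h7
      rw [mem_insert, mem_erase] at h7
      rcases h7 with h7 | h7
      · omega
      · exact h7.1 rfl
    rw [hval x h3]
    have hM : 0 < M := by
      rw [← (Lv_spec hB).1]
      exact card_pos.2 ⟨x, h2⟩
    have h7 : (x : ℤ) - M ≤ m - 1 := by omega
    have h8 : -(R : ℤ) ≤ (x : ℤ) - M := by omega
    have h7' : (x : ℝ) - M ≤ m - 1 := by exact_mod_cast h7
    have h8' : -(R : ℝ) ≤ (x : ℝ) - M := by exact_mod_cast h8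
    rw [abs_of_nonneg (mul_nonneg (by linarith) (by linarith))]
    have h9 : 0 ≤ ((x : ℝ) - M) * ((x : ℝ) - M + R - (m - 1)) := by
      rcases hR' with h | h
      · rw [h]
        nlinarith [sq_nonneg ((x : ℝ) - M)]
      · rw [h]
        have h10 : 0 ≤ ((x : ℤ) - M) * ((x : ℤ) - M + 1) := by
          rcases le_or_gt 0 ((x : ℤ) - M) with h11 | h11
          · exact mul_nonneg h11 (by omega)
          · exact mul_nonneg_of_nonpos_of_nonpos h11.le (by omega)
        have h11 : (0 : ℝ) ≤ ((x : ℝ) - M) * ((x : ℝ) - M + 1) := by exact_mod_cast h10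
        linarith [h11]
    nlinarith [h9]
  · intro n _ B hB x hx h hS
    obtain ⟨h2, h3, h4⟩ := mem_rm.1 hx
    rw [hval x h3]
    have h5 : x - 1 < M - 1 + m := h.1 (x - 1) (mem_insert_self _ _)
    by_cases hb : Bl m M B
    · have h6 : ¬ ∀ i, i + R < M → i ∈ B := fun h7 => hS ⟨hb, h7⟩
      push Not at h6
      obtain ⟨i, hi, hiB⟩ := h6
      have h7 := h.2 i hi
      unfold mvd at h7
      rw [mem_insert, mem_erase] at h7
      have h8 : i = x - 1 := by
        rcases h7 with h7 | h7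
        · exact h7
        · exact absurd h7.2 hiB
      have h9 : M ≤ x + R := by
        by_contra hcon
        have h10 := h.2 x (by omega)
        unfold mvd at h10
        rw [mem_insert, mem_erase] at h10
        rcases h10 with h10 | h10
        · omega
        · exact h10.1 rfl
      have h10 : (R : ℝ) + ((x : ℝ) - M) = 0 := by
        have : x + R = M := by omega
        have h11 : (x : ℝ) + R = M := by exact_mod_cast this
        linarith
      rw [h10, mul_zero]
    · have h6 : M - 1 + m ≤ x := by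
        by_contra hcon
        apply hb
        intro z hz
        by_cases hzx : z = x
        · omega
        · exact h.1 z (mem_insert_of_mem (mem_erase.2 ⟨hzx, hz⟩))
      have hM : 0 < M := by
        rw [← (Lv_spec hB).1]
        exact card_pos.2 ⟨x, h2⟩
      have h7 : (m : ℝ) - 1 - ((x : ℝ) - M) = 0 := by
        have h8 : x + 1 = M + m := by omega
        have h9 : (x : ℝ) + 1 = M + m := by exact_mod_cast h8
        linarith
      rw [h7, zero_mul]

/-! ### the norms -/

theorem choose_aux (m t s : ℕ) (hs : s ≤ m) :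
    ((t + s - 1).choose s : ℝ) * (m + t).choose (t + s) ≤ ((m + t).choose t : ℝ) * m.choose s := by
  have h1 : (m + t).choose (t + s) * (t + s).choose t = (m + t).choose t * m.choose s := by
    have := Nat.choose_mul (n := m + t) (k := t + s) (s := t) (by omega)
    rwa [show m + t - t = m by omega, show t + s - t = s by omega] at this
  have h2 : (t + s - 1).choose s ≤ (t + s).choose t := by
    rw [show (t + s).choose t = (t + s).choose s by
      rw [← Nat.choose_symm (by omega : t ≤ t + s), show t + s - t = s by omega]]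
    exact Nat.choose_le_choose s (by omega)
  have h3 : (t + s - 1).choose s * (m + t).choose (t + s) ≤ (m + t).choose t * m.choose s := by
    rw [← h1, mul_comm]
    exact Nat.mul_le_mul_left _ h2
  exact_mod_cast h3

theorem abs_cH (m t s : ℕ) (hs : s ≤ m) :
    |cH t s| * ((m + t).descFactorial (t + s) : ℝ) ≤ ((m + t).choose t : ℝ) * m.choose s := by
  have h1 : |cH t s| = ((t + s - 1).choose s : ℝ) / (t + s).factorial := by
    unfold cH
    rw [abs_div, abs_mul, abs_pow, abs_neg, abs_one, one_pow, one_mul, Nat.abs_cast, Nat.abs_cast]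
  have h2 : ((m + t).descFactorial (t + s) : ℝ) = (t + s).factorial * (m + t).choose (t + s) := by
    rw [Nat.descFactorial_eq_factorial_mul_choose]
    push_cast
    ring
  have h3 : ((t + s).factorial : ℝ) ≠ 0 := by exact_mod_cast Nat.factorial_ne_zero _
  rw [h1, h2]
  refine le_trans (le_of_eq ?_) (choose_aux m t s hs)
  field_simp

theorem sum_binom (m t : ℕ) (W : ℝ) :
    ∑ s ∈ range (m + 1), ((m + t).choose t : ℝ) * m.choose s * W ^ (t + s) =
      (m + t).choose t * W ^ t * (1 + W) ^ m := by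
  rw [add_comm (1 : ℝ) W, add_pow, mul_sum]
  refine sum_congr rfl fun s _ => ?_
  rw [one_pow, pow_add]
  ring

/-- the norm of the right inverse with affine weights -/
theorem norm_H (m t : ℕ) {W : ℝ} (hW : 0 ≤ W) :
    ∑ s ∈ range (m + 1), |cH t s| * W ^ (t + s) * ((m + t).descFactorial (t + s) : ℝ) ≤
      (m + t).choose t * W ^ t * (1 + W) ^ m := by
  rw [← sum_binom]
  refine sum_le_sum fun s hs => ?_
  have h1 := abs_cH m t s (by have := mem_range.1 hs; omega)
  calc |cH t s| * W ^ (t + s) * ((m + t).descFactorial (t + s) : ℝ)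
      = (|cH t s| * ((m + t).descFactorial (t + s) : ℝ)) * W ^ (t + s) := by ring
    _ ≤ _ := mul_le_mul_of_nonneg_right h1 (pow_nonneg hW _)

/-- the norm of the right inverse with weights `(k - c)(R + c)` -/
theorem norm_S {m t h : ℕ} (ht : t ≤ h) {W : ℝ} (hW : 0 ≤ W) :
    ∑ s ∈ range (m + 1), |cS h t s| * W ^ (t + s) * ((m + t).descFactorial (t + s) : ℝ) ≤
      (m + t).choose t * (W / ((h - t : ℕ) + 1)) ^ t * (1 + W / ((h - t : ℕ) + 1)) ^ m := by
  rw [← sum_binom]
  refine sum_le_sum fun s hs => ?_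
  have h1 := abs_cH m t s (by have := mem_range.1 hs; omega)
  have h0 : (0 : ℝ) < ((h - t : ℕ) : ℝ) + 1 := by positivity
  have h2 : ((h - t).factorial : ℝ) * (((h - t : ℕ) : ℝ) + 1) ^ (t + s) ≤ (h + s).factorial := by
    have := Nat.factorial_mul_pow_le_factorial (m := h - t) (n := t + s)
    rw [show h - t + (t + s) = h + s by omega] at this
    exact_mod_cast this
  have h3 : (0 : ℝ) < (h + s).factorial := by exact_mod_cast Nat.factorial_pos _
  have h4 : |cS h t s| = |cH t s| * (((h - t).factorial : ℝ) / (h + s).factorial) := by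
    unfold cS
    rw [abs_mul, abs_of_nonneg (a := ((h - t).factorial : ℝ) / (h + s).factorial) (by positivity)]
  have h5 : ((h - t).factorial : ℝ) / (h + s).factorial ≤ 1 / (((h - t : ℕ) : ℝ) + 1) ^ (t + s) := by
    rw [div_le_div_iff₀ h3 (pow_pos h0 _), one_mul]
    exact h2
  rw [h4]
  calc |cH t s| * (((h - t).factorial : ℝ) / (h + s).factorial) * W ^ (t + s) *
        ((m + t).descFactorial (t + s) : ℝ)
      = (|cH t s| * ((m + t).descFactorial (t + s) : ℝ)) *
        ((((h - t).factorial : ℝ) / (h + s).factorial) * W ^ (t + s)) := by ring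
    _ ≤ ((m + t).choose t * m.choose s : ℝ) *
        (1 / (((h - t : ℕ) : ℝ) + 1) ^ (t + s) * W ^ (t + s)) :=
        mul_le_mul h1 (mul_le_mul_of_nonneg_right h5 (pow_nonneg hW _)) (by positivity)
          (by positivity)
    _ = _ := by rw [div_pow]; ring

/-! ### the link with the restriction operator with a wall -/

theorem Dli_eq_Dwi {m K : ℕ} (hK : 0 < K) (hm : 2 ≤ m) (u : Finset ℕ → ℝ) :
    ∀ (j n : ℕ) (y : Finset ℕ → ℝ), (∀ B ∈ Lv K (n + j), ¬ Bl m K B → y B = 0) →
      (∀ B ∈ Lv K (n + j), Bl m K B → y B = ex B * u B) →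
      (∀ B ∈ Lv K n, ¬ Bl m K B → Dl^[j] y B = 0) ∧
      (∀ B ∈ Lv K n, Bl m K B → Dl^[j] y B = ex B * Dwi (K + m - 2) j u B)
  | 0, n, y, h1, h2 => ⟨h1, h2⟩
  | j + 1, n, y, h1, h2 => by
    obtain ⟨h3, h4⟩ := Dli_eq_Dwi hK hm u j (n + 1) y
      (by rwa [show n + 1 + j = n + (j + 1) by omega])
      (by rwa [show n + 1 + j = n + (j + 1) by omega])
    refine ⟨fun B hB hb => ?_, fun B hB hb => ?_⟩
    · rw [Function.iterate_succ_apply']
      exact sum_eq_zero fun x hx => h3 _ (mv_mem hB hx) (not_Bl_mv hb)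
    · rw [Function.iterate_succ_apply']
      have e : Dwi (K + m - 2) (j + 1) u B = Dw (K + m - 2) (Dwi (K + m - 2) j u) B := rfl
      rw [e]
      show ∑ x ∈ ad B, (Dl^[j] y) (mv B x) =
        ex B * ∑ x ∈ (ad B).filter (fun x => x < K + m - 2), w B x * Dwi (K + m - 2) j u (mv B x)
      rw [mul_sum, sum_filter]
      refine sum_congr rfl fun x hx => ?_
      by_cases hx1 : x < K + m - 2
      · rw [if_pos hx1, h4 _ (mv_mem hB hx) ((Bl_mv hK hm hb).2 hx1), ex_mv hx]
        ring
      · rw [if_neg hx1, h3 _ (mv_mem hB hx) fun h => hx1 ((Bl_mv hK hm hb).1 h)]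

/-- **T4**: any approximate solution `u₀` can be repaired; the affine weights. -/
theorem exists_top_H {m t K : ℕ} (hm : 2 ≤ m) (hK : m + t ≤ K) (u₀ d : Finset ℕ → ℝ) {ε : ℝ}
    (hε : 0 ≤ ε) (hd : ∀ B ∈ Lv K m, Bl m K B → Dwi (K + m - 2) t u₀ B + d B = 1)
    (hdε : ∀ B ∈ Lv K m, Bl m K B → |d B| ≤ ε) {W : ℝ}
    (hW : W = 1 + (((m + t : ℕ) : ℝ) - 1) / ((m : ℝ) - 1)) :
    ∃ u : Finset ℕ → ℝ, (∀ B ∈ Lv K m, Bl m K B → Dwi (K + m - 2) t u B = 1) ∧
      ∀ B ∈ Lv K (m + t), Bl m K B →
        |u B - u₀ B| ≤ (m + t).choose t * W ^ t * (1 + W) ^ m * ε := by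
  classical
  have hK0 : 0 < K := by omega
  set g : Finset ℕ → ℝ := fun B => if Bl m K B then ex B * d B else 0 with hg
  have hgs : ∀ B ∈ Lv K m, ¬ Bl m K B → g B = 0 := fun B _ hb => if_neg hb
  have hgε : ∀ B ∈ Lv K m, |g B| ≤ ε * ex B := by
    intro B hB
    by_cases hb : Bl m K B
    · rw [show g B = ex B * d B from if_pos hb, abs_mul, abs_of_pos (ex_pos B), mul_comm]
      exact mul_le_mul_of_nonneg_right (hdε B hB hb) (ex_pos B).le
    · rw [hgs B hB hb, abs_zero]
      exact mul_nonneg hε (ex_pos B).le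
  have hG : GoodW K (m + t) (wH K m) (Bl m K) W := by
    rw [hW]
    exact good_wH hm hK
  set y := TT (wH K m) cH m t g with hy
  have hys : ∀ B ∈ Lv K (m + t), ¬ Bl m K B → y B = 0 := TT_supp hG cH le_rfl hgs
  have hyε := TT_le' hG cH le_rfl hK hgs ε hε hgε
  have hyD : ∀ B ∈ Lv K m, Dl^[t] y B = g B := fun B hB =>
    Dli_TT (fun n B hn hB => kap_wH K m n B hn hB) (rec_cH m t) le_rfl hK g hB
  refine ⟨fun B => u₀ B + y B / ex B, fun B hB hb => ?_, fun B hB hb => ?_⟩
  · rw [Dwi_add]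
    simp only
    have h1 := (Dli_eq_Dwi hK0 hm (fun B => y B / ex B) t m y hys (fun B _ _ => by
      rw [mul_div_cancel₀ _ (ex_pos B).ne'])).2 B hB hb
    rw [hyD B hB, show g B = ex B * d B from if_pos hb] at h1
    have h2 := mul_left_cancel₀ (ex_pos B).ne' h1
    rw [← h2]
    exact hd B hB hb
  · rw [add_sub_cancel_left, abs_div, abs_of_pos (ex_pos B), div_le_iff₀ (ex_pos B)]
    refine (hyε B hB).trans (mul_le_mul_of_nonneg_right (mul_le_mul_of_nonneg_right ?_ hε)
      (ex_pos B).le)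
    exact norm_H m t hG.W0

/-- **T4**: any approximate solution `u₀` can be repaired; the weights `(k - c)(R + c)`. -/
theorem exists_top_S {m t K R h : ℕ} (hm : 2 ≤ m) (hR : R = m - 1 ∨ R = m) (hK : m + t ≤ K)
    (hh : (h : ℝ) = ((m : ℝ) - 1) * R - 2 * m) (hth : t ≤ h) (u₀ d : Finset ℕ → ℝ) {ε : ℝ}
    (hε : 0 ≤ ε) (hd : ∀ B ∈ Lv K m, Bl m K B → Dwi (K + m - 2) t u₀ B + d B = 1)
    (hdR : ∀ B ∈ Lv K m, Bl m K B → ¬ BlR m R K B → d B = 0)
    (hdε : ∀ B ∈ Lv K m, Bl m K B → |d B| ≤ ε) :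
    ∃ u : Finset ℕ → ℝ, (∀ B ∈ Lv K m, Bl m K B → Dwi (K + m - 2) t u B = 1) ∧
      ∀ B ∈ Lv K (m + t), Bl m K B →
        |u B - u₀ B| ≤ (∑ s ∈ range (m + 1), |cS h t s| * (((m : ℝ) - 1) * R) ^ (t + s) *
          ((m + t).descFactorial (t + s) : ℝ)) * ε := by
  classical
  have hK0 : 0 < K := by omega
  set g : Finset ℕ → ℝ := fun B => if Bl m K B then ex B * d B else 0 with hg
  have hgb : ∀ B, ¬ Bl m K B → g B = 0 := fun B hb => if_neg hb
  have hgs : ∀ B ∈ Lv K m, ¬ BlR m R K B → g B = 0 := by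
    intro B hB hb
    by_cases hb' : Bl m K B
    · rw [show g B = ex B * d B from if_pos hb', hdR B hB hb' hb, mul_zero]
    · exact hgb B hb'
  have hgε : ∀ B ∈ Lv K m, |g B| ≤ ε * ex B := by
    intro B hB
    by_cases hb : Bl m K B
    · rw [show g B = ex B * d B from if_pos hb, abs_mul, abs_of_pos (ex_pos B), mul_comm]
      exact mul_le_mul_of_nonneg_right (hdε B hB hb) (ex_pos B).le
    · rw [hgb B hb, abs_zero]
      exact mul_nonneg hε (ex_pos B).le
  have hG : GoodW K (m + t) (wS K m R) (BlR m R K) (((m : ℝ) - 1) * R) := good_wS hm hR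
  set y := TT (wS K m R) (cS h) m t g with hy
  have hys' : ∀ B ∈ Lv K (m + t), ¬ BlR m R K B → y B = 0 := TT_supp hG (cS h) le_rfl hgs
  have hys : ∀ B ∈ Lv K (m + t), ¬ Bl m K B → y B = 0 := fun B hB hb =>
    hys' B hB fun h => hb h.1
  have hyε := TT_le' hG (cS h) le_rfl hK hgs ε hε hgε
  have hyD : ∀ B ∈ Lv K m, Dl^[t] y B = g B := fun B hB =>
    Dli_TT (fun n B hn hB => kap_wS K m R n B hn hB) (rec_cS hh hth) le_rfl hK g hB
  refine ⟨fun B => u₀ B + y B / ex B, fun B hB hb => ?_, fun B hB hb => ?_⟩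
  · rw [Dwi_add]
    simp only
    have h1 := (Dli_eq_Dwi hK0 hm (fun B => y B / ex B) t m y hys (fun B _ _ => by
      rw [mul_div_cancel₀ _ (ex_pos B).ne'])).2 B hB hb
    rw [hyD B hB, show g B = ex B * d B from if_pos hb] at h1
    have h2 := mul_left_cancel₀ (ex_pos B).ne' h1
    rw [← h2]
    exact hd B hB hb
  · rw [add_sub_cancel_left, abs_div, abs_of_pos (ex_pos B), div_le_iff₀ (ex_pos B)]
    exact hyε B hB

end Pool.JM
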