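import Pool.Agent.Work.MP_46fa68_T.LiftX

/-!
# MP_46fa68_co: the exact lift, blocks YB, CMP and LIFTX
-/

set_option autoImplicit false

open Finset

namespace Pool.JM

theorem om_nonneg (M x : ℕ) : 0 ≤ om M x := by
  unfold om
  positivity

theorem Foi_abs {M i : ℕ} {ω : ℕ → ℝ} (hω : ∀ x, 0 ≤ ω x) {f g : Finset ℕ → ℝ}
    (h : ∀ C ∈ Lv M i, |f C| ≤ g C) : ∀ (k : ℕ), ∀ C ∈ Lv M (i + k),
    |(Fo ω)^[k] f C| ≤ (Fo ω)^[k] g C := by
  intro k
  induction k with
  | zero => exact h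
  | succ k ih =>
    intro C hC
    rw [Function.iterate_succ_apply', Function.iterate_succ_apply']
    change |∑ x ∈ rm C, ω (x - 1) * ((Fo ω)^[k] f) (mvd C x)| ≤
      ∑ x ∈ rm C, ω (x - 1) * ((Fo ω)^[k] g) (mvd C x)
    refine (abs_sum_le_sum_abs _ _).trans (sum_le_sum fun x hx => ?_)
    rw [abs_mul, abs_of_nonneg (hω _)]
    exact mul_le_mul_of_nonneg_left (ih _ (mvd_mem hC hx)) (hω _)

theorem Foi_nonneg {M i : ℕ} {ω : ℕ → ℝ} (hω : ∀ x, 0 ≤ ω x) {g : Finset ℕ → ℝ}
    (h : ∀ C ∈ Lv M i, 0 ≤ g C) (k : ℕ) : ∀ C ∈ Lv M (i + k), 0 ≤ (Fo ω)^[k] g C := by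
  intro C hC
  have h1 := Foi_abs (f := g) (g := g) hω (fun C hC => le_of_eq (abs_of_nonneg (h C hC))) k C hC
  exact (abs_nonneg _).trans h1

theorem blk_YB : Stmt_YB := by
  intro M T e W h l C hC
  unfold YK YQ
  refine (abs_sum_le_sum_abs _ _).trans (sum_le_sum fun i hi => ?_)
  have hi' : i ≤ T := by
    have := mem_range.1 hi
    omega
  split_ifs with hl
  · rw [abs_mul]
    refine mul_le_mul_of_nonneg_left ?_ (abs_nonneg _)
    exact Foi_abs (om_nonneg M) (h i hi') (l - i) C (by rwa [Nat.add_sub_cancel' hl])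
  · rw [abs_zero]

/-! ### comparison of the two raising operators -/

/-- the conjugating function -/
noncomputable def Pho (M : ℕ) (C : Finset ℕ) : ℝ := ∏ z ∈ C, ((z.factorial : ℝ) / (M : ℝ) ^ z)

theorem Pho_pos {M : ℕ} (hM : 0 < M) (C : Finset ℕ) : 0 < Pho M C := by
  have : (0 : ℝ) < M := by exact_mod_cast hM
  exact prod_pos fun z _ => div_pos (by exact_mod_cast z.factorial_pos) (by positivity)

theorem Pho_mv {M : ℕ} (hM : 0 < M) {C : Finset ℕ} {x : ℕ} (hx : x ∈ ad C) :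
    Pho M (mv C x) = om M x * Pho M C := by
  obtain ⟨h1, h2⟩ := mem_ad.1 hx
  have hM' : (M : ℝ) ≠ 0 := by exact_mod_cast hM.ne'
  unfold Pho mv
  rw [prod_insert fun h => h2 (mem_erase.1 h).2, ← mul_prod_erase C _ h1, Nat.factorial_succ,
    pow_succ]
  unfold om
  push_cast
  field_simp

theorem om_Pho_mvd {M : ℕ} (hM : 0 < M) {C : Finset ℕ} {x : ℕ} (hx : x ∈ rm C) :
    om M (x - 1) * Pho M (mvd C x) = Pho M C := by
  obtain ⟨h1, h2⟩ := mv_mvd hx
  rw [← Pho_mv hM h1, h2]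

theorem Foi_om_le {M i : ℕ} (hM : 0 < M) {g : Finset ℕ → ℝ} {φ : ℝ}
    (hg : ∀ C ∈ Lv M i, 0 ≤ g C) (hφ : ∀ C ∈ Lv M i, φ ≤ Pho M C) : ∀ (k : ℕ), ∀ C ∈ Lv M (i + k),
    (Fo (om M))^[k] g C * φ ≤ Pho M C * (Fo fun _ => 1)^[k] g C := by
  intro k
  induction k with
  | zero =>
    intro C hC
    change g C * φ ≤ Pho M C * g C
    rw [mul_comm]
    exact mul_le_mul_of_nonneg_right (hφ C hC) (hg C hC)
  | succ k ih =>
    intro C hC
    rw [Function.iterate_succ_apply', Function.iterate_succ_apply']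
    change (∑ x ∈ rm C, om M (x - 1) * ((Fo (om M))^[k] g) (mvd C x)) * φ ≤
      Pho M C * ∑ x ∈ rm C, 1 * ((Fo fun _ => 1)^[k] g) (mvd C x)
    rw [sum_mul, mul_sum]
    refine sum_le_sum fun x hx => ?_
    have h1 := ih _ (mvd_mem hC hx)
    calc om M (x - 1) * ((Fo (om M))^[k] g) (mvd C x) * φ =
        om M (x - 1) * (((Fo (om M))^[k] g) (mvd C x) * φ) := by ring
      _ ≤ om M (x - 1) * (Pho M (mvd C x) * ((Fo fun _ => 1)^[k] g) (mvd C x)) :=
        mul_le_mul_of_nonneg_left h1 (om_nonneg _ _)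
      _ = (om M (x - 1) * Pho M (mvd C x)) * ((Fo fun _ => 1)^[k] g) (mvd C x) := by ring
      _ = Pho M C * (1 * ((Fo fun _ => 1)^[k] g) (mvd C x)) := by rw [om_Pho_mvd hM hx, one_mul]

theorem Pho_ge {M T : ℕ} (hT : T < M) : ∀ (i : ℕ), i ≤ T → ∀ C ∈ Lv M i,
    (1 - (T : ℝ) / M) ^ i * Pho M (range M) ≤ Pho M C := by
  have hM : (0 : ℝ) < M := by
    have : 0 < M := by omega
    exact_mod_cast this
  have hT' : (T : ℝ) < M := by exact_mod_cast hT
  have h1 : 0 ≤ 1 - (T : ℝ) / M := by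
    rw [sub_nonneg, div_le_one hM]
    exact hT'.le
  intro i
  induction i with
  | zero =>
    intro _ C hC
    simp only [Lv, mem_singleton] at hC
    rw [hC, pow_zero, one_mul]
  | succ i ih =>
    intro hi C hC
    simp only [Lv, mem_biUnion, mem_image] at hC
    obtain ⟨D, hD, x, hx, rfl⟩ := hC
    rw [Pho_mv (by omega) hx, pow_succ, mul_comm ((1 - (T : ℝ) / M) ^ i), mul_assoc]
    have h2 : 1 - (T : ℝ) / M ≤ om M x := by
      unfold om
      rw [le_div_iff₀ hM, sub_mul, one_mul, div_mul_cancel₀ _ hM.ne']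
      have h3 : M ≤ x + 1 + i := by
        by_contra hcon
        exact (mem_ad.1 hx).2 ((Lv_spec hD).2.1 (x + 1) (by omega))
      have h4 : (M : ℝ) ≤ (x : ℝ) + 1 + i := by exact_mod_cast h3
      have h5 : (i : ℝ) ≤ T := by exact_mod_cast (by omega : i ≤ T)
      linarith
    exact mul_le_mul h2 (ih (by omega) D hD)
      (mul_nonneg (pow_nonneg h1 _) (Pho_pos (by omega) _).le) (om_nonneg _ _)

theorem Pho_le {M N : ℕ} (hM : 0 < M) : ∀ (n : ℕ), n ≤ N → ∀ B ∈ Lv (M + 1) n,
    Pho M B ≤ (1 + (N : ℝ) / M) ^ n * Pho M (range (M + 1)) := by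
  have hM' : (0 : ℝ) < M := by exact_mod_cast hM
  intro n
  induction n with
  | zero =>
    intro _ B hB
    simp only [Lv, mem_singleton] at hB
    rw [hB, pow_zero, one_mul]
  | succ n ih =>
    intro hn B hB
    simp only [Lv, mem_biUnion, mem_image] at hB
    obtain ⟨D, hD, x, hx, rfl⟩ := hB
    rw [Pho_mv hM hx, pow_succ, mul_comm ((1 + (N : ℝ) / M) ^ n), mul_assoc]
    have h2 : om M x ≤ 1 + (N : ℝ) / M := by
      unfold om
      rw [div_le_iff₀ hM', add_mul, one_mul, div_mul_cancel₀ _ hM'.ne']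
      have h3 := (Lv_spec hD).2.2.1 x (mem_ad.1 hx).1
      have h4 : (x : ℝ) + 1 ≤ (M : ℝ) + N := by exact_mod_cast (by omega : x + 1 ≤ M + N)
      exact h4
    exact mul_le_mul h2 (ih (by omega) D hD) (Pho_pos hM _).le (by positivity)

theorem h_min {M : ℕ} (hM : 0 < M) (x : ℕ) :
    (M.factorial : ℝ) / (M : ℝ) ^ M ≤ (x.factorial : ℝ) / (M : ℝ) ^ x := by
  have hM' : (0 : ℝ) < M := by exact_mod_cast hM
  have hup : ∀ k : ℕ, (M.factorial : ℝ) / (M : ℝ) ^ M ≤ ((M + k).factorial : ℝ) / (M : ℝ) ^ (M + k) := by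
    intro k
    induction k with
    | zero => exact le_rfl
    | succ k ih =>
      refine ih.trans ?_
      rw [← add_assoc, Nat.factorial_succ, pow_succ, div_le_div_iff₀ (by positivity) (by positivity)]
      push_cast
      have h1 : (M : ℝ) ≤ (M : ℝ) + k + 1 := by
        have : (0 : ℝ) ≤ k := Nat.cast_nonneg k
        linarith
      calc ((M + k).factorial : ℝ) * ((M : ℝ) ^ (M + k) * M) =
          ((M + k).factorial : ℝ) * (M : ℝ) ^ (M + k) * M := by ring
        _ ≤ ((M + k).factorial : ℝ) * (M : ℝ) ^ (M + k) * ((M : ℝ) + k + 1) :=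
          mul_le_mul_of_nonneg_left h1 (by positivity)
        _ = _ := by ring
  have hdown : ∀ k : ℕ, k ≤ M →
      (M.factorial : ℝ) / (M : ℝ) ^ M ≤ ((M - k).factorial : ℝ) / (M : ℝ) ^ (M - k) := by
    intro k
    induction k with
    | zero => exact fun _ => le_rfl
    | succ k ih =>
      intro hk
      refine (ih (by omega)).trans ?_
      obtain ⟨j, hj⟩ : ∃ j, M - k = j + 1 := ⟨M - k - 1, by omega⟩
      rw [hj, show M - (k + 1) = j by omega, Nat.factorial_succ, pow_succ,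
        div_le_div_iff₀ (by positivity) (by positivity)]
      push_cast
      have h1 : (j : ℝ) + 1 ≤ M := by exact_mod_cast (by omega : j + 1 ≤ M)
      calc ((j : ℝ) + 1) * (j.factorial : ℝ) * (M : ℝ) ^ j =
          (j.factorial : ℝ) * (M : ℝ) ^ j * ((j : ℝ) + 1) := by ring
        _ ≤ (j.factorial : ℝ) * (M : ℝ) ^ j * M := mul_le_mul_of_nonneg_left h1 (by positivity)
        _ = _ := by ring
  rcases le_total M x with h | h
  · obtain ⟨k, rfl⟩ := Nat.exists_eq_add_of_le h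
    exact hup k
  · have := hdown (M - x) (by omega)
    rwa [show M - (M - x) = x by omega] at this

theorem Pho_erase_le {M N : ℕ} (hM : 0 < M) {B : Finset ℕ} (hB : B ∈ Lv (M + 1) N) {x : ℕ}
    (hx : x ∈ B) : Pho M (B.erase x) ≤ (1 + (N : ℝ) / M) ^ N * Pho M (range M) := by
  have h1 := Pho_le hM N le_rfl B hB
  have h2 : Pho M B = (x.factorial : ℝ) / (M : ℝ) ^ x * Pho M (B.erase x) := by
    unfold Pho
    rw [← mul_prod_erase B _ hx]
  have h3 : Pho M (range (M + 1)) = Pho M (range M) * ((M.factorial : ℝ) / (M : ℝ) ^ M) := by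
    unfold Pho
    rw [prod_range_succ]
  have hM' : (0 : ℝ) < M := by exact_mod_cast hM
  have h4 : (0 : ℝ) < (x.factorial : ℝ) / (M : ℝ) ^ x := by positivity
  rw [h2, h3] at h1
  have h5 : (1 + (N : ℝ) / M) ^ N * (Pho M (range M) * ((M.factorial : ℝ) / (M : ℝ) ^ M)) ≤
      (x.factorial : ℝ) / (M : ℝ) ^ x * ((1 + (N : ℝ) / M) ^ N * Pho M (range M)) := by
    have h6 : 0 ≤ (1 + (N : ℝ) / M) ^ N * Pho M (range M) :=
      mul_nonneg (by positivity) (Pho_pos hM _).le
    have h7 := mul_le_mul_of_nonneg_left (h_min hM x) h6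
    nlinarith
  exact le_of_mul_le_mul_left (h1.trans h5) h4

theorem erase_mem {M N : ℕ} {B : Finset ℕ} (hB : B ∈ Lv (M + 1) N) {x : ℕ} (hx : x ∈ B) :
    B.erase x ∈ Lv M (N + M - x) := by
  obtain ⟨h1, h2, h3, h4⟩ := Lv_spec hB
  have h5 := add_sum_erase B (fun i => i) hx
  have h6 := h3 x hx
  rw [sum_range_succ] at h4
  refine mem_Lv_iff.2 ⟨by rw [card_erase_of_mem hx, h1, Nat.add_sub_cancel], ?_⟩
  have h7 : ∑ i ∈ B.erase x, i + x = ∑ i ∈ range M, i + M + N := by
    have : x + ∑ i ∈ B.erase x, i = ∑ i ∈ B, i := h5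
    omega
  omega

theorem blk_CMP : Stmt_CMP := by
  intro M T N W hT hW B hB x hx _
  have hM : 0 < M := by omega
  have hM' : (0 : ℝ) < M := by exact_mod_cast hM
  have hT' : (T : ℝ) < M := by exact_mod_cast hT
  have h1 : 0 < 1 - (T : ℝ) / M := by
    rw [sub_pos, div_lt_one hM']
    exact hT'
  have h1' : 1 - (T : ℝ) / M ≤ 1 := by
    have : 0 ≤ (T : ℝ) / M := by positivity
    linarith
  have hC := erase_mem hB hx
  unfold YQ YR
  rw [mul_sum]
  refine sum_le_sum fun i hi => ?_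
  have hi' : i ≤ T := by
    have := mem_range.1 hi
    omega
  split_ifs with hl
  · have hC' : B.erase x ∈ Lv M (i + (N + M - x - i)) := by rwa [Nat.add_sub_cancel' hl]
    have hφ : ∀ C ∈ Lv M i, (1 - (T : ℝ) / M) ^ T * Pho M (range M) ≤ Pho M C := fun C hC =>
      (mul_le_mul_of_nonneg_right (pow_le_pow_of_le_one h1.le h1' hi') (Pho_pos hM _).le).trans
        (Pho_ge hT i hi' C hC)
    have h2 := Foi_om_le hM (hW i hi') hφ (N + M - x - i) (B.erase x) hC'
    have h3 := Pho_erase_le hM hB hx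
    have h4 : 0 ≤ (Fo fun _ => 1)^[N + M - x - i] (W i) (B.erase x) :=
      Foi_nonneg (fun _ => zero_le_one) (hW i hi') _ _ hC'
    have hP := Pho_pos hM (range M)
    have h5 : (Fo (om M))^[N + M - x - i] (W i) (B.erase x) ≤
        (1 + (N : ℝ) / M) ^ N / (1 - (T : ℝ) / M) ^ T *
          (Fo fun _ => 1)^[N + M - x - i] (W i) (B.erase x) := by
      rw [div_mul_eq_mul_div, le_div_iff₀ (pow_pos h1 T)]
      have h6 : (Fo (om M))^[N + M - x - i] (W i) (B.erase x) * (1 - (T : ℝ) / M) ^ T *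
          Pho M (range M) ≤ (1 + (N : ℝ) / M) ^ N *
            (Fo fun _ => 1)^[N + M - x - i] (W i) (B.erase x) * Pho M (range M) := by
        calc _ = (Fo (om M))^[N + M - x - i] (W i) (B.erase x) *
              ((1 - (T : ℝ) / M) ^ T * Pho M (range M)) := by ring
          _ ≤ Pho M (B.erase x) * (Fo fun _ => 1)^[N + M - x - i] (W i) (B.erase x) := h2
          _ ≤ ((1 + (N : ℝ) / M) ^ N * Pho M (range M)) *
              (Fo fun _ => 1)^[N + M - x - i] (W i) (B.erase x) :=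
            mul_le_mul_of_nonneg_right h3 h4
          _ = _ := by ring
      exact le_of_mul_le_mul_right h6 hP
    calc |dk (N + M - x - i) (T - i)| * (Fo (om M))^[N + M - x - i] (W i) (B.erase x) ≤
        |dk (N + M - x - i) (T - i)| * ((1 + (N : ℝ) / M) ^ N / (1 - (T : ℝ) / M) ^ T *
          (Fo fun _ => 1)^[N + M - x - i] (W i) (B.erase x)) :=
          mul_le_mul_of_nonneg_left h5 (abs_nonneg _)
      _ = _ := by ring
  · rw [mul_zero]

theorem Dli_nonneg {M i : ℕ} {g : Finset ℕ → ℝ} : ∀ (j n : ℕ), n + j = i →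
    (∀ C ∈ Lv M i, 0 ≤ g C) → ∀ C ∈ Lv M n, 0 ≤ Dl^[j] g C
  | 0, n, h, hg, C, hC => by
    rw [add_zero] at h
    subst h
    exact hg C hC
  | j + 1, n, h, hg, C, hC => by
    rw [Function.iterate_succ_apply']
    exact sum_nonneg fun x hx => Dli_nonneg j (n + 1) (by omega) hg _ (mv_mem hC hx)

theorem YQ_smul (M T : ℕ) (a : ℝ) (W : ℕ → Finset ℕ → ℝ) (l : ℕ) (C : Finset ℕ) :
    YQ M T (fun i C => a * W i C) l C = a * YQ M T W l C := by
  have h : ∀ (k : ℕ) (f : Finset ℕ → ℝ) (C : Finset ℕ),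
      (Fo (om M))^[k] (fun C => a * f C) C = a * (Fo (om M))^[k] f C := by
    intro k f
    induction k with
    | zero => exact fun C => rfl
    | succ k ih =>
      intro C
      rw [Function.iterate_succ_apply', Function.iterate_succ_apply']
      change ∑ x ∈ rm C, om M (x - 1) * ((Fo (om M))^[k] fun C => a * f C) (mvd C x) =
        a * ∑ x ∈ rm C, om M (x - 1) * ((Fo (om M))^[k] f) (mvd C x)
      rw [mul_sum]
      refine sum_congr rfl fun x _ => ?_
      rw [ih]
      ring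
  unfold YQ
  rw [mul_sum]
  refine sum_congr rfl fun i _ => ?_
  split_ifs
  · rw [h]
    ring
  · rw [mul_zero]

theorem blk_LIFTX (hF : Stmt_FIXX) : Stmt_LIFTX := by
  intro M m t W ν q β htm hM hν hq hqν hW hW0 hcon hβ
  have hM0 : 0 < M := by omega
  have hM' : (0 : ℝ) < M := by exact_mod_cast hM0
  have ht' : (t : ℝ) < M := by exact_mod_cast (by omega : t < M)
  have h1 : 0 < 1 - (t : ℝ) / M := by
    rw [sub_pos, div_lt_one hM']
    exact ht'
  have hq0 : 0 ≤ q := by
    rw [hq]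
    exact div_nonneg (by positivity) (pow_nonneg h1.le _)
  have hWn : ∀ i ≤ t, ∀ C ∈ Lv M i, 0 ≤ W i C := by
    intro i hi C hC
    rcases Nat.eq_zero_or_pos i with rfl | hi0
    · simp only [Lv, mem_singleton] at hC
      rw [hC, hW0]
      unfold W0
      refine sum_nonneg fun j hj => mul_nonneg (by positivity) ?_
      have hj' := mem_range.1 hj
      exact Dli_nonneg (j + 1) 0 (by omega) (fun C hC => (hW (j + 1) (by omega) (by omega) C hC).le)
        (range M) (by simp [Lv])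
    · exact (hW i hi0 hi C hC).le
  have hins : ∀ i, 1 ≤ i → i ≤ t → ∀ C ∈ Lv M i,
      insert (m + t + M - i) C ∈ Lv (M + 1) (m + t) ∧ m + t + M - i ∉ C := by
    intro i hi hit C hC
    obtain ⟨a1, a2, a3, a4⟩ := Lv_spec hC
    have hn : m + t + M - i ∉ C := fun h => by
      have := a3 _ h
      omega
    refine ⟨mem_Lv_iff.2 ⟨by rw [card_insert_of_notMem hn, a1], ?_⟩, hn⟩
    rw [sum_insert hn, a4, sum_range_succ]
    omega
  obtain ⟨e, he1, he2, he3, he4⟩ := hF M m t W (q * ν) β htm hM (mul_nonneg hq0 hν) hqν hW hW0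
    (fun i hi hit C hC => by
      have h2 : ∀ x ∈ C, YQ M t W (m + t + M - x) ((insert (m + t + M - i) C).erase x) ≤
          q * YR t W (m + t + M - x) ((insert (m + t + M - i) C).erase x) := by
        intro x hx
        have h3 := (Lv_spec hC).2.2.1 x hx
        rw [hq]
        exact blk_CMP M t (m + t) W (by omega) hWn _ (hins i hi hit C hC).1 x
          (mem_insert_of_mem hx) (by omega)
      refine (sum_le_sum h2).trans ?_
      rw [← mul_sum, mul_assoc]
      exact mul_le_mul_of_nonneg_left (hcon i hi hit C hC) hq0) hβ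
  refine ⟨WY (M + 1) (m + t) (YK M t e), he4, ?_, ?_⟩
  · intro B hB hb
    have h1ν : 0 < 1 - q * ν := by linarith
    unfold WY
    rw [mul_sum, Nat.add_sub_cancel]
    refine (abs_sum_le_sum_abs _ _).trans (sum_le_sum fun x hx => ?_)
    rw [abs_mul]
    have h2 : |sgx B x| = 1 := by
      unfold sgx
      rw [abs_pow, abs_neg, abs_one, one_pow]
    rw [h2, one_mul]
    have h3 := blk_YB M t e (fun i C => (1 / (1 - q * ν)) * W i C)
      (fun i hi C hC => by
        refine (he3 i hi C hC).trans (le_of_eq ?_)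
        ring) (m + t + M - x) (B.erase x) (erase_mem hB hx)
    rw [YQ_smul] at h3
    have hxw : x < M + 1 - 1 + m := hb x hx
    have h4 := blk_CMP M t (m + t) W (by omega) hWn B hB x hx (by omega)
    rw [← hq] at h4
    refine h3.trans ?_
    calc 1 / (1 - q * ν) * YQ M t W (m + t + M - x) (B.erase x) ≤
        1 / (1 - q * ν) * (q * YR t W (m + t + M - x) (B.erase x)) :=
          mul_le_mul_of_nonneg_left h4 (by positivity)
      _ = _ := by ring
  · intro B hB
    have h2 := lift_zero (K := M + 1) (m := m) (t := t) (by omega) e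
      (by rw [Nat.add_sub_cancel]; exact he1) (by rw [Nat.add_sub_cancel]; exact he2) hB
    rwa [Nat.add_sub_cancel] at h2

end Pool.JM
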