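import Pool.Agent.Work.MP_46fa68_T.Op

/-!
# MP_46fa68_co: the commutation relation of the operators adding and removing a box
-/

set_option autoImplicit false

open Finset

namespace Pool.JM

/-- the commutator of `Dl` and `Fo ω` -/
def kap (ω : ℕ → ℝ) (B : Finset ℕ) : ℝ := ∑ x ∈ B, ω x - ∑ x ∈ B.filter (1 ≤ ·), ω (x - 1)

theorem rm_mv {B : Finset ℕ} {x : ℕ} (hx : x ∈ ad B) :
    rm (mv B x) = insert (x + 1) ((rm B).filter fun z => z ≠ x ∧ z ≠ x + 2) := by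
  obtain ⟨hx, hx1⟩ := mem_ad.1 hx
  ext z
  simp only [mem_rm, mem_insert, mem_filter, mv, mem_erase]
  constructor
  · rintro ⟨h1, h2, h3⟩
    by_cases hz : z = x + 1
    · exact Or.inl hz
    · rcases h1 with h1 | ⟨h1, h1'⟩
      · exact absurd h1 hz
      · refine Or.inr ⟨⟨h1', h2, fun h => h3 (Or.inr ⟨?_, h⟩)⟩, h1, fun h => h3 (Or.inl (by omega))⟩
        intro h4
        exact hz (by omega)
  · rintro (rfl | ⟨⟨h1, h2, h3⟩, h4, h5⟩)
    · refine ⟨Or.inl rfl, by omega, ?_⟩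
      rw [Nat.add_sub_cancel]
      rintro (h | ⟨h, -⟩)
      · omega
      · exact h rfl
    · refine ⟨Or.inr ⟨h4, h1⟩, h2, ?_⟩
      rintro (h | ⟨-, h⟩)
      · exact h5 (by omega)
      · exact h3 h

theorem ad_mvd {B : Finset ℕ} {z : ℕ} (hz : z ∈ rm B) :
    ad (mvd B z) = insert (z - 1) ((ad B).filter fun x => z ≠ x ∧ z ≠ x + 2) := by
  obtain ⟨hz, hz0, hz1⟩ := mem_rm.1 hz
  ext x
  simp only [mem_ad, mem_insert, mem_filter, mvd, mem_erase]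
  constructor
  · rintro ⟨h1, h2⟩
    by_cases hx : x = z - 1
    · exact Or.inl hx
    · rcases h1 with h1 | ⟨h1, h1'⟩
      · exact absurd h1 hx
      · refine Or.inr ⟨⟨h1', fun h => h2 (Or.inr ⟨?_, h⟩)⟩, fun h => h1 h.symm,
          fun h => h2 (Or.inl (by omega))⟩
        intro h4
        exact hx (by omega)
  · rintro (rfl | ⟨⟨h1, h2⟩, h3, h4⟩)
    · refine ⟨Or.inl rfl, ?_⟩
      rw [Nat.sub_add_cancel hz0]
      rintro (h | ⟨h, -⟩)
      · omega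
      · exact h rfl
    · refine ⟨Or.inr ⟨fun h => h3 h.symm, h1⟩, ?_⟩
      rintro (h | ⟨-, h⟩)
      · exact h4 (by omega)
      · exact h2 h

theorem mvd_mv_self {B : Finset ℕ} {x : ℕ} (hx : x ∈ ad B) : mvd (mv B x) (x + 1) = B := by
  obtain ⟨hx, hx1⟩ := mem_ad.1 hx
  ext y
  simp only [mvd, mv, mem_insert, mem_erase, Nat.add_sub_cancel]
  constructor
  · rintro (h | ⟨h1, h2 | ⟨-, h2⟩⟩)
    · exact h ▸ hx
    · exact absurd h2 h1
    · exact h2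
  · intro h
    by_cases hyx : y = x
    · exact Or.inl hyx
    · exact Or.inr ⟨fun h' => hx1 (h' ▸ h), Or.inr ⟨hyx, h⟩⟩

theorem mvd_mv {B : Finset ℕ} {x z : ℕ} (hx : x ∈ ad B) (hz : z ∈ rm B) (_h1 : z ≠ x)
    (_h2 : z ≠ x + 2) : mvd (mv B x) z = mv (mvd B z) x := by
  obtain ⟨hx, hx1⟩ := mem_ad.1 hx
  obtain ⟨hz, hz0, hz1⟩ := mem_rm.1 hz
  have h3 : z ≠ x + 1 := fun h => hx1 (h ▸ hz)
  ext y
  simp only [mvd, mv, mem_insert, mem_erase]
  constructor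
  · rintro (h | ⟨h4, h5 | ⟨h5, h6⟩⟩)
    · exact Or.inr ⟨by omega, Or.inl h⟩
    · exact Or.inl h5
    · exact Or.inr ⟨h5, Or.inr ⟨h4, h6⟩⟩
  · rintro (h | ⟨h4, h5 | ⟨h5, h6⟩⟩)
    · exact Or.inr ⟨by omega, Or.inl h⟩
    · exact Or.inl h5
    · exact Or.inr ⟨h5, Or.inr ⟨h4, h6⟩⟩

theorem kap_eq (ω : ℕ → ℝ) (B : Finset ℕ) :
    ∑ x ∈ ad B, ω x - ∑ z ∈ rm B, ω (z - 1) = kap ω B := by
  have h1 : ∑ x ∈ B, ω x = ∑ x ∈ ad B, ω x + ∑ x ∈ B.filter (fun x => x + 1 ∈ B), ω x := by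
    unfold ad
    rw [add_comm]
    exact (sum_filter_add_sum_filter_not B (fun x => x + 1 ∈ B) ω).symm
  have h2 : ∑ z ∈ B.filter (1 ≤ ·), ω (z - 1) =
      ∑ z ∈ rm B, ω (z - 1) + ∑ z ∈ B.filter (fun z => 1 ≤ z ∧ z - 1 ∈ B), ω (z - 1) := by
    unfold rm
    rw [← sum_filter_add_sum_filter_not (B.filter (1 ≤ ·)) (fun z => z - 1 ∉ B) (fun z => ω (z - 1)),
      filter_filter, filter_filter]
    simp only [not_not]
  have h3 : ∑ x ∈ B.filter (fun x => x + 1 ∈ B), ω x =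
      ∑ z ∈ B.filter (fun z => 1 ≤ z ∧ z - 1 ∈ B), ω (z - 1) := by
    refine sum_bij (fun x _ => x + 1) ?_ ?_ ?_ ?_
    · intro x hx
      obtain ⟨h4, h5⟩ := mem_filter.1 hx
      exact mem_filter.2 ⟨h5, by omega, by rwa [Nat.add_sub_cancel]⟩
    · intro x _ x' _ h
      exact Nat.succ_injective h
    · intro z hz
      obtain ⟨h4, h5, h6⟩ := mem_filter.1 hz
      refine ⟨z - 1, mem_filter.2 ⟨h6, ?_⟩, Nat.sub_add_cancel h5⟩
      rwa [Nat.sub_add_cancel h5]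
    · intro x _
      rw [Nat.add_sub_cancel]
  unfold kap
  rw [h1, h2, h3]
  ring

/-- the commutation relation -/
theorem comm_DF (ω : ℕ → ℝ) (y : Finset ℕ → ℝ) (B : Finset ℕ) :
    Dl (Fo ω y) B = Fo ω (Dl y) B + kap ω B * y B := by
  have h1 : Dl (Fo ω y) B = ∑ x ∈ ad B, (ω x * y B +
      ∑ z ∈ (rm B).filter (fun z => z ≠ x ∧ z ≠ x + 2), ω (z - 1) * y (mvd (mv B x) z)) := by
    unfold Dl Fo
    refine sum_congr rfl fun x hx => ?_
    have hn : x + 1 ∉ (rm B).filter (fun z => z ≠ x ∧ z ≠ x + 2) := fun h =>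
      (mem_ad.1 hx).2 (mem_rm.1 (mem_filter.1 h).1).1
    rw [rm_mv hx, sum_insert hn, mvd_mv_self hx, Nat.add_sub_cancel]
  have h2 : Fo ω (Dl y) B = ∑ z ∈ rm B, (ω (z - 1) * y B +
      ∑ x ∈ (ad B).filter (fun x => z ≠ x ∧ z ≠ x + 2), ω (z - 1) * y (mv (mvd B z) x)) := by
    unfold Dl Fo
    refine sum_congr rfl fun z hz => ?_
    have hn : z - 1 ∉ (ad B).filter (fun x => z ≠ x ∧ z ≠ x + 2) := fun h =>
      (mem_rm.1 hz).2.2 (mem_ad.1 (mem_filter.1 h).1).1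
    show ω (z - 1) * (∑ x ∈ ad (mvd B z), y (mv (mvd B z) x)) = _
    rw [ad_mvd hz, sum_insert hn, (mv_mvd hz).2, mul_add, mul_sum]
  have h3 : ∑ x ∈ ad B, ∑ z ∈ (rm B).filter (fun z => z ≠ x ∧ z ≠ x + 2),
      ω (z - 1) * y (mvd (mv B x) z) =
      ∑ z ∈ rm B, ∑ x ∈ (ad B).filter (fun x => z ≠ x ∧ z ≠ x + 2),
        ω (z - 1) * y (mv (mvd B z) x) := by
    have e1 : ∀ x ∈ ad B, ∑ z ∈ (rm B).filter (fun z => z ≠ x ∧ z ≠ x + 2),
        ω (z - 1) * y (mvd (mv B x) z) =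
        ∑ z ∈ rm B, if z ≠ x ∧ z ≠ x + 2 then ω (z - 1) * y (mv (mvd B z) x) else 0 := by
      intro x hx
      rw [sum_filter]
      refine sum_congr rfl fun z hz => ?_
      split_ifs with h
      · rw [mvd_mv hx hz h.1 h.2]
      · rfl
    have e2 : ∀ z ∈ rm B, ∑ x ∈ (ad B).filter (fun x => z ≠ x ∧ z ≠ x + 2),
        ω (z - 1) * y (mv (mvd B z) x) =
        ∑ x ∈ ad B, if z ≠ x ∧ z ≠ x + 2 then ω (z - 1) * y (mv (mvd B z) x) else 0 := by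
      intro z _
      rw [sum_filter]
    rw [sum_congr rfl e1, sum_congr rfl e2, sum_comm]
  rw [h1, h2, sum_add_distrib, sum_add_distrib, h3, ← sum_mul, ← sum_mul, ← kap_eq]
  ring

/-- the weight `p + q c + r c²`, `c = x - (M - 1)` the content -/
noncomputable def wq (M : ℕ) (p q r : ℝ) (x : ℕ) : ℝ :=
  p + q * ((x : ℝ) - (M - 1)) + r * ((x : ℝ) - (M - 1)) ^ 2

theorem kap_wq {M n : ℕ} {B : Finset ℕ} (hB : B ∈ Lv M n) (h0 : 0 ∈ B) (p q r : ℝ) :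
    kap (wq M p q r) B = p + 2 * r * n := by
  obtain ⟨h3, -, -, h4⟩ := Lv_spec hB
  have h5 : ∑ x ∈ B, (x : ℝ) = ∑ i ∈ range M, (i : ℝ) + n := by
    have := congrArg (Nat.cast : ℕ → ℝ) h4
    push_cast at this
    exact this
  have h6 : ∀ K : ℕ, ∑ i ∈ range K, (i : ℝ) = K * (K - 1) / 2 := by
    intro K
    induction K with
    | zero => simp
    | succ K ih =>
      rw [sum_range_succ, ih]
      push_cast
      ring
  rw [h6] at h5
  have h7 : ∑ x ∈ B.filter (1 ≤ ·), wq M p q r (x - 1) =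
      ∑ x ∈ B, (p + q * ((x : ℝ) - 1 - (M - 1)) + r * ((x : ℝ) - 1 - (M - 1)) ^ 2) -
        (p + q * (-1 - (M - 1)) + r * (-1 - ((M : ℝ) - 1)) ^ 2) := by
    have e1 : B.filter (1 ≤ ·) = B.erase 0 := by
      ext x
      simp only [mem_filter, mem_erase]
      constructor
      · rintro ⟨h1, h2⟩
        exact ⟨by omega, h1⟩
      · rintro ⟨h1, h2⟩
        exact ⟨h2, by omega⟩
    rw [e1, ← add_sum_erase B (fun x : ℕ => p + q * ((x : ℝ) - 1 - (M - 1)) +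
      r * ((x : ℝ) - 1 - (M - 1)) ^ 2) h0]
    have e2 : ∑ x ∈ B.erase 0, wq M p q r (x - 1) =
        ∑ x ∈ B.erase 0, (p + q * ((x : ℝ) - 1 - (M - 1)) + r * ((x : ℝ) - 1 - (M - 1)) ^ 2) := by
      refine sum_congr rfl fun x hx => ?_
      have hx1 : 1 ≤ x := by
        have := (mem_erase.1 hx).1
        omega
      unfold wq
      rw [Nat.cast_sub hx1]
      push_cast
      ring
    rw [e2]
    push_cast
    ring
  unfold kap
  rw [h7]
  have h8 : ∑ x ∈ B, wq M p q r x -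
      ∑ x ∈ B, (p + q * ((x : ℝ) - 1 - (M - 1)) + r * ((x : ℝ) - 1 - (M - 1)) ^ 2) =
      (q + r - 2 * r * M) * M + 2 * r * ∑ x ∈ B, (x : ℝ) := by
    have e3 : (q + r - 2 * r * M) * (M : ℝ) = ∑ _x ∈ B, (q + r - 2 * r * M) := by
      rw [sum_const, h3, nsmul_eq_mul]
      ring
    rw [← sum_sub_distrib, mul_sum, e3, ← sum_add_distrib]
    refine sum_congr rfl fun x _ => ?_
    unfold wq
    ring
  rw [h5] at h8
  linear_combination h8
end Pool.JM
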