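import Pool.Agent.Work.MP_46fa68_T.Near

/-!
# MP_46fa68_co: functions built from one bead (the lift of boundary values)

`WY K N Y B = ∑_{x ∈ B} ± Y_{l(x)} (B without x)`, `l(x) = N + K - 1 - x` the level of `B` without `x`.
The operator `Dl` acts on these functions by `(AA Y)_l = Y_l + Dl Y_{l+1}` (exactly, for finitely many
beads).  `YK t e`, built from arbitrary functions `e_i` on the levels `i ≤ t` with the operator
`U = Fo (x+1)/M`, `[Dl, U] = 1`, satisfies `AA^t (YK t e) = YK 0 (AA^t e)`; so it is killed by `AA^t` as soon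
as one number, `(AA^t e)_0`, is zero.  Hence `Dl^t` of the function `WY K (m+t) (YK t e)` is zero on the whole
level `m`, for arbitrary `e_1, ..., e_t`.
-/

set_option autoImplicit false

open Finset

namespace Pool.JM

/-! ### the one-bead functions -/

/-- the sign of the bead `x` of `B` -/
def sgx (B : Finset ℕ) (x : ℕ) : ℝ := (-1) ^ (B.filter (x < ·)).card

/-- the function built from one bead -/
def WY (K N : ℕ) (Y : ℕ → Finset ℕ → ℝ) (B : Finset ℕ) : ℝ :=
  ∑ x ∈ B, sgx B x * Y (N + (K - 1) - x) (B.erase x)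

/-- the action of `Dl` on the families -/
def AA (Y : ℕ → Finset ℕ → ℝ) (l : ℕ) (C : Finset ℕ) : ℝ := Y l C + Dl (Y (l + 1)) C

theorem sgx_succ {B : Finset ℕ} {x : ℕ} (h : x + 1 ∈ B) : sgx B x = - sgx B (x + 1) := by
  unfold sgx
  have : B.filter (x < ·) = insert (x + 1) (B.filter (x + 1 < ·)) := by
    ext z
    simp only [mem_filter, mem_insert]
    constructor
    · rintro ⟨h1, h2⟩
      by_cases h3 : z = x + 1
      · exact Or.inl h3
      · exact Or.inr ⟨h1, by omega⟩
    · rintro (rfl | ⟨h1, h2⟩)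
      · exact ⟨h, by omega⟩
      · exact ⟨h1, by omega⟩
  rw [this, card_insert_of_notMem (by simp), pow_succ]
  ring

theorem sgx_mv_self {B : Finset ℕ} {y : ℕ} (hy : y ∈ ad B) : sgx (mv B y) (y + 1) = sgx B y := by
  unfold sgx
  congr 2
  ext z
  simp only [mem_filter, mv, mem_insert, mem_erase]
  constructor
  · rintro ⟨h1 | h1, h2⟩
    · omega
    · exact ⟨h1.2, by omega⟩
  · rintro ⟨h1, h2⟩
    refine ⟨Or.inr ⟨by omega, h1⟩, ?_⟩
    have : z ≠ y + 1 := by
      rintro rfl
      exact (mem_ad.1 hy).2 h1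
    omega

theorem sgx_mv {B : Finset ℕ} {x y : ℕ} (hy : y ∈ ad B) (hx : x ∈ B) (hxy : x ≠ y) :
    sgx (mv B y) x = sgx B x := by
  have hx1 : x ≠ y + 1 := by
    rintro rfl
    exact (mem_ad.1 hy).2 hx
  unfold sgx
  congr 1
  have e1 : (mv B y).filter (x < ·) = if x < y then insert (y + 1) ((B.filter (x < ·)).erase y) else
      B.filter (x < ·) := by
    split_ifs with h
    · ext z
      simp only [mem_filter, mv, mem_insert, mem_erase]
      constructor
      · rintro ⟨h1 | h1, h2⟩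
        · exact Or.inl h1
        · exact Or.inr ⟨h1.1, h1.2, h2⟩
      · rintro (rfl | ⟨h1, h2, h3⟩)
        · exact ⟨Or.inl rfl, by omega⟩
        · exact ⟨Or.inr ⟨h1, h2⟩, h3⟩
    · ext z
      simp only [mem_filter, mv, mem_insert, mem_erase]
      constructor
      · rintro ⟨h1 | h1, h2⟩
        · omega
        · exact ⟨h1.2, h2⟩
      · rintro ⟨h1, h2⟩
        exact ⟨Or.inr ⟨by omega, h1⟩, h2⟩
  rw [e1]
  split_ifs with h
  · rw [card_insert_of_notMem, card_erase_of_mem]
    · have : 0 < (B.filter (x < ·)).card := card_pos.2 ⟨y, mem_filter.2 ⟨(mem_ad.1 hy).1, h⟩⟩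
      omega
    · exact mem_filter.2 ⟨(mem_ad.1 hy).1, h⟩
    · intro h2
      exact (mem_ad.1 hy).2 (mem_filter.1 (mem_erase.1 h2).2).1
  · rfl

theorem mv_erase {B : Finset ℕ} {x y : ℕ} (_hxy : x ≠ y) (hx1 : x ≠ y + 1) :
    (mv B y).erase x = mv (B.erase x) y := by
  unfold mv
  ext z
  simp only [mem_erase, mem_insert]
  constructor
  · rintro ⟨h1, h2 | ⟨h2, h3⟩⟩
    · exact Or.inl h2
    · exact Or.inr ⟨h2, h1, h3⟩
  · rintro (rfl | ⟨h2, h1, h3⟩)
    · exact ⟨fun h => hx1 h.symm, Or.inl rfl⟩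
    · exact ⟨h1, Or.inr ⟨h2, h3⟩⟩

theorem mv_erase_self {B : Finset ℕ} {y : ℕ} (hy : y ∈ ad B) : (mv B y).erase (y + 1) = B.erase y := by
  unfold mv
  rw [erase_insert]
  intro h
  exact (mem_ad.1 hy).2 (mem_erase.1 h).2

theorem ad_erase (B : Finset ℕ) (x : ℕ) : ad (B.erase x) =
    ((ad B).erase x) ∪ (B.filter fun y => y + 1 = x ∧ x ∈ B) := by
  ext y
  simp only [mem_ad, mem_erase, mem_union, mem_filter]
  constructor
  · rintro ⟨⟨h1, h2⟩, h3⟩
    by_cases h4 : y + 1 = x
    · by_cases h5 : x ∈ B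
      · exact Or.inr ⟨h2, h4, h5⟩
      · exact Or.inl ⟨h1, h2, h4 ▸ h5⟩
    · exact Or.inl ⟨h1, h2, fun h5 => h3 ⟨h4, h5⟩⟩
  · rintro (⟨h1, h2, h3⟩ | ⟨h1, h2, h3⟩)
    · exact ⟨⟨h1, h2⟩, fun h => h3 h.2⟩
    · exact ⟨⟨by omega, h1⟩, fun h => h.1 h2⟩

/-- **`Dl` on the one-bead functions.** -/
theorem Dl_WY {K n : ℕ} {B : Finset ℕ} (hB : B ∈ Lv K n) (Y : ℕ → Finset ℕ → ℝ) :
    Dl (WY K (n + 1) Y) B = WY K n (AA Y) B := by
  have hlt : ∀ x ∈ B, x ≤ n + (K - 1) := fun x hx => by
    have h1 := (Lv_spec hB).2.2.1 x hx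
    omega
  set F : ℕ → ℕ → ℝ := fun x y => sgx B x * Y (n + (K - 1) - x + 1) (mv (B.erase x) y) with hF
  have e1 : Dl (WY K (n + 1) Y) B = ∑ y ∈ ad B, (sgx B y * Y (n + (K - 1) - y) (B.erase y) +
      ∑ x ∈ B.erase y, F x y) := by
    unfold Dl
    refine sum_congr rfl fun y hy => ?_
    obtain ⟨hyB, hy1⟩ := mem_ad.1 hy
    have h1 : mv B y = insert (y + 1) (B.erase y) := rfl
    have hn : y + 1 ∉ B.erase y := fun h => hy1 (mem_erase.1 h).2
    unfold WY
    conv_lhs => rw [h1]
    rw [sum_insert hn, ← h1, sgx_mv_self hy, mv_erase_self hy]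
    congr 1
    · have := hlt y hyB
      rw [show n + 1 + (K - 1) - (y + 1) = n + (K - 1) - y by omega]
    · refine sum_congr rfl fun x hx => ?_
      obtain ⟨hxy, hxB⟩ := mem_erase.1 hx
      have hx1 : x ≠ y + 1 := by
        rintro rfl
        exact hy1 hxB
      have := hlt x hxB
      rw [sgx_mv hy hxB hxy, mv_erase hxy hx1, hF]
      simp only
      rw [show n + 1 + (K - 1) - x = n + (K - 1) - x + 1 by omega]
  have e2 : WY K n (AA Y) B = ∑ x ∈ B, (sgx B x * Y (n + (K - 1) - x) (B.erase x) +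
      (∑ y ∈ (ad B).erase x, F x y + ∑ y ∈ B.filter (fun y => y + 1 = x ∧ x ∈ B), F x y)) := by
    unfold WY AA Dl
    refine sum_congr rfl fun x hx => ?_
    have hd : Disjoint ((ad B).erase x) (B.filter fun y => y + 1 = x ∧ x ∈ B) := by
      rw [disjoint_left]
      intro y hy hy'
      have h1 := (mem_filter.1 hy').2
      exact (mem_ad.1 (mem_erase.1 hy).2).2 (h1.1 ▸ h1.2)
    rw [mul_add, ad_erase, sum_union hd, mul_add, mul_sum, mul_sum]
  have e3 : ∑ x ∈ B, ∑ y ∈ (ad B).erase x, F x y = ∑ y ∈ ad B, ∑ x ∈ B.erase y, F x y := by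
    have a1 : ∀ x, ∑ y ∈ (ad B).erase x, F x y = ∑ y ∈ ad B, if x ≠ y then F x y else 0 := by
      intro x
      rw [← sum_filter]
      refine sum_congr ?_ fun _ _ => rfl
      ext y
      simp only [mem_erase, mem_filter]
      constructor
      · rintro ⟨h1, h2⟩
        exact ⟨h2, fun h => h1 h.symm⟩
      · rintro ⟨h1, h2⟩
        exact ⟨fun h => h2 h.symm, h1⟩
    have a2 : ∀ y, ∑ x ∈ B.erase y, F x y = ∑ x ∈ B, if x ≠ y then F x y else 0 := by
      intro y
      rw [← sum_filter]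
      refine sum_congr ?_ fun _ _ => rfl
      ext x
      simp only [mem_erase, mem_filter]
      tauto
    simp only [a1, a2]
    exact sum_comm
  have e4 : ∑ x ∈ B, sgx B x * Y (n + (K - 1) - x) (B.erase x) =
      ∑ x ∈ ad B, sgx B x * Y (n + (K - 1) - x) (B.erase x) +
        ∑ x ∈ B.filter (fun x => x + 1 ∈ B), sgx B x * Y (n + (K - 1) - x) (B.erase x) := by
    unfold ad
    refine Eq.trans ?_ (add_comm _ _)
    exact (sum_filter_add_sum_filter_not B (fun x => x + 1 ∈ B)
      (fun x => sgx B x * Y (n + (K - 1) - x) (B.erase x))).symm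
  have e5 : ∑ x ∈ B, ∑ y ∈ B.filter (fun y => y + 1 = x ∧ x ∈ B), F x y =
      - ∑ x ∈ B.filter (fun x => x + 1 ∈ B), sgx B x * Y (n + (K - 1) - x) (B.erase x) := by
    have a1 : ∀ x, ∑ y ∈ B.filter (fun y => y + 1 = x ∧ x ∈ B), F x y =
        ∑ y ∈ B, if y + 1 = x ∧ x ∈ B then F x y else 0 := fun x => sum_filter _ _
    simp only [a1]
    rw [sum_comm, sum_filter, ← sum_neg_distrib]
    refine sum_congr rfl fun y hy => ?_
    by_cases h1 : y + 1 ∈ B
    · rw [sum_eq_single (y + 1), if_pos ⟨rfl, h1⟩, if_pos h1, hF]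
      · simp only
        have h2 : mv (B.erase (y + 1)) y = B.erase y := by
          unfold mv
          ext z
          simp only [mem_insert, mem_erase]
          constructor
          · rintro (rfl | ⟨h3, h4, h5⟩)
            · exact ⟨by omega, h1⟩
            · exact ⟨h3, h5⟩
          · rintro ⟨h3, h5⟩
            by_cases h6 : z = y + 1
            · exact Or.inl h6
            · exact Or.inr ⟨h3, h6, h5⟩
        have := hlt (y + 1) h1
        rw [h2, sgx_succ h1, show n + (K - 1) - (y + 1) + 1 = n + (K - 1) - y by omega]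
        ring
      · intro x _ hx
        rw [if_neg fun h => hx h.1.symm]
      · intro h
        exact absurd h1 h
    · rw [if_neg h1, neg_zero]
      refine sum_eq_zero fun x hx => ?_
      rw [if_neg]
      rintro ⟨rfl, h⟩
      exact h1 h
  rw [e1, e2, sum_add_distrib, sum_add_distrib, sum_add_distrib, e3, e4, e5]
  ring

theorem Dli_WY {K : ℕ} : ∀ (j n : ℕ) (Y : ℕ → Finset ℕ → ℝ) {B : Finset ℕ}, B ∈ Lv K n →
    Dl^[j] (WY K (n + j) Y) B = WY K n (AA^[j] Y) B
  | 0, n, Y, B, _ => rfl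
  | j + 1, n, Y, B, hB => by
    rw [Function.iterate_succ_apply', Function.iterate_succ_apply']
    have h1 : ∀ C ∈ Lv K (n + 1), Dl^[j] (WY K (n + (j + 1)) Y) C = WY K (n + 1) (AA^[j] Y) C := by
      intro C hC
      rw [show n + (j + 1) = n + 1 + j by omega]
      exact Dli_WY j (n + 1) Y hC
    rw [Dl_congr h1 hB, Dl_WY hB]

/-! ### the families with `AA^t = 0` -/

/-- the weight `(x + 1) / M` -/
noncomputable def om (M : ℕ) (x : ℕ) : ℝ := ((x : ℝ) + 1) / M

theorem kap_om {M : ℕ} (hM : 0 < M) {C : Finset ℕ} (hC : C.card = M) : kap (om M) C = 1 := by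
  have hM' : (M : ℝ) ≠ 0 := by exact_mod_cast hM.ne'
  have h1 : ∑ x ∈ C.filter (1 ≤ ·), om M (x - 1) = ∑ x ∈ C, (x : ℝ) / M := by
    rw [sum_filter]
    refine sum_congr rfl fun x _ => ?_
    split_ifs with h
    · unfold om
      rw [Nat.cast_sub h]
      push_cast
      ring
    · have : x = 0 := by omega
      rw [this]
      simp
  unfold kap
  rw [h1, ← sum_sub_distrib]
  have h2 : ∀ x ∈ C, om M x - (x : ℝ) / M = 1 / M := fun x _ => by
    unfold om
    ring
  rw [sum_congr rfl h2, sum_const, hC, nsmul_eq_mul]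
  field_simp

theorem mvd_card {C : Finset ℕ} {x : ℕ} (hx : x ∈ rm C) : (mvd C x).card = C.card := by
  obtain ⟨h1, h2, h3⟩ := mem_rm.1 hx
  unfold mvd
  rw [card_insert_of_notMem fun h => h3 (mem_erase.1 h).2, card_erase_of_mem h1]
  have := card_pos.2 ⟨x, h1⟩
  omega

theorem mv_card {C : Finset ℕ} {x : ℕ} (hx : x ∈ ad C) : (mv C x).card = C.card := by
  obtain ⟨h1, h2⟩ := mem_ad.1 hx
  unfold mv
  rw [card_insert_of_notMem fun h => h2 (mem_erase.1 h).2, card_erase_of_mem h1]
  have := card_pos.2 ⟨x, h1⟩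
  omega

/-- the powers of the raising operator with `[Dl, U] = 1` -/
theorem Dl_Uk {M : ℕ} (hM : 0 < M) (y : Finset ℕ → ℝ) : ∀ (k : ℕ) {C : Finset ℕ}, C.card = M →
    Dl ((Fo (om M))^[k + 1] y) C =
      (Fo (om M))^[k + 1] (Dl y) C + ((k : ℝ) + 1) * (Fo (om M))^[k] y C := by
  intro k
  induction k with
  | zero =>
    intro C hC
    simp only [Function.iterate_succ, Function.iterate_zero, Function.comp, id]
    rw [comm_DF, kap_om hM hC]
    push_cast
    ring
  | succ k ih =>
    intro C hC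
    rw [Function.iterate_succ_apply' (Fo (om M)) (k + 1) y, comm_DF, kap_om hM hC]
    have h1 : Fo (om M) (Dl ((Fo (om M))^[k + 1] y)) C =
        (Fo (om M))^[k + 2] (Dl y) C + ((k : ℝ) + 1) * (Fo (om M))^[k + 1] y C := by
      have a1 : (Fo (om M))^[k + 2] (Dl y) C =
          ∑ x ∈ rm C, om M (x - 1) * ((Fo (om M))^[k + 1] (Dl y)) (mvd C x) := by
        rw [Function.iterate_succ_apply']
        rfl
      have a2 : (Fo (om M))^[k + 1] y C =
          ∑ x ∈ rm C, om M (x - 1) * ((Fo (om M))^[k] y) (mvd C x) := by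
        rw [Function.iterate_succ_apply']
        rfl
      have a3 : Fo (om M) (Dl ((Fo (om M))^[k + 1] y)) C =
          ∑ x ∈ rm C, om M (x - 1) * Dl ((Fo (om M))^[k + 1] y) (mvd C x) := rfl
      rw [a1, a2, a3, mul_sum, ← sum_add_distrib]
      refine sum_congr rfl fun x hx => ?_
      rw [ih (by rw [mvd_card hx, hC])]
      ring
    rw [h1]
    push_cast
    ring

/-- the coefficient -/
noncomputable def dk (n s : ℕ) : ℝ :=
  if n = 0 then 1 else (-1) ^ (n + s) * ((n - 1).choose s : ℝ) / n.factorial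

theorem dk_one (n s : ℕ) : dk n (s + 1) + ((n : ℝ) + 1) * dk (n + 1) (s + 1) = dk n s := by
  unfold dk
  rw [if_neg (Nat.succ_ne_zero n), Nat.add_sub_cancel]
  have hf : (((n + 1).factorial : ℕ) : ℝ) = ((n : ℝ) + 1) * n.factorial := by
    rw [Nat.factorial_succ]
    push_cast
    ring
  have hn1 : (n : ℝ) + 1 ≠ 0 := by positivity
  have hn2 : (n.factorial : ℝ) ≠ 0 := by exact_mod_cast n.factorial_ne_zero
  rcases Nat.eq_zero_or_pos n with rfl | hn
  · simp
  · rw [if_neg hn.ne', if_neg hn.ne', hf]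
    obtain ⟨k, rfl⟩ : ∃ k, n = k + 1 := ⟨n - 1, by omega⟩
    rw [Nat.add_sub_cancel, Nat.choose_succ_succ]
    push_cast at *
    field_simp
    ring

theorem dk_zero (n : ℕ) : dk n 0 + ((n : ℝ) + 1) * dk (n + 1) 0 = 0 := by
  unfold dk
  rw [if_neg (Nat.succ_ne_zero n), Nat.add_sub_cancel]
  have hf : (((n + 1).factorial : ℕ) : ℝ) = ((n : ℝ) + 1) * n.factorial := by
    rw [Nat.factorial_succ]
    push_cast
    ring
  have hn1 : (n : ℝ) + 1 ≠ 0 := by positivity
  have hn2 : (n.factorial : ℝ) ≠ 0 := by exact_mod_cast n.factorial_ne_zero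
  rcases Nat.eq_zero_or_pos n with rfl | hn
  · simp
  · rw [if_neg hn.ne', hf]
    simp only [Nat.choose_zero_right, Nat.cast_one, mul_one, add_zero]
    field_simp
    ring

/-- the family built from `e_0, ..., e_T` -/
noncomputable def YK (M T : ℕ) (e : ℕ → Finset ℕ → ℝ) (l : ℕ) (C : Finset ℕ) : ℝ :=
  ∑ i ∈ range (T + 1), if i ≤ l then dk (l - i) (T - i) * (Fo (om M))^[l - i] (e i) C else 0

/-- one step -/
theorem AA_YK {M : ℕ} (hM : 0 < M) (T : ℕ) (e : ℕ → Finset ℕ → ℝ)
    (h0 : ∀ C : Finset ℕ, C.card = M → Dl (e 0) C = 0) (l : ℕ) {C : Finset ℕ} (hC : C.card = M) :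
    AA (YK M (T + 1) e) l C = YK M T (AA e) l C := by
  set U := Fo (om M) with hU
  have hD : ∀ i, i ≤ l + 1 → Dl (U^[l + 1 - i] (e i)) C = U^[l + 1 - i] (Dl (e i)) C +
      (if i ≤ l then ((l - i : ℕ) + 1 : ℝ) * U^[l - i] (e i) C else 0) := by
    intro i hi
    by_cases h : i ≤ l
    · rw [if_pos h, show l + 1 - i = (l - i) + 1 by omega]
      exact Dl_Uk hM (e i) (l - i) hC
    · rw [if_neg h, show l + 1 - i = 0 by omega, add_zero]
      rfl
  have e1 : AA (YK M (T + 1) e) l C = ∑ i ∈ range (T + 2),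
      ((if i ≤ l then dk (l - i) (T + 1 - i) * U^[l - i] (e i) C else 0) +
        (if i ≤ l + 1 then dk (l + 1 - i) (T + 1 - i) * Dl (U^[l + 1 - i] (e i)) C else 0)) := by
    unfold AA YK
    rw [sum_add_distrib, Dl_sum]
    congr 1
    refine sum_congr rfl fun i _ => ?_
    split_ifs with h
    · exact Dl_smul _ _ _
    · unfold Dl
      exact sum_const_zero
  have e2 : ∀ i ∈ range (T + 2),
      ((if i ≤ l then dk (l - i) (T + 1 - i) * U^[l - i] (e i) C else 0) +
        (if i ≤ l + 1 then dk (l + 1 - i) (T + 1 - i) * Dl (U^[l + 1 - i] (e i)) C else 0)) =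
      (if i ≤ l then (if i ≤ T then dk (l - i) (T - i) else 0) * U^[l - i] (e i) C else 0) +
        (if i ≤ l + 1 then dk (l + 1 - i) (T + 1 - i) * U^[l + 1 - i] (Dl (e i)) C else 0) := by
    intro i hi
    have hiT : i ≤ T + 1 := by
      have := mem_range.1 hi
      omega
    by_cases h : i ≤ l
    · have h' : i ≤ l + 1 := by omega
      rw [hD i h']
      simp only [if_pos h, if_pos h']
      have h3 : dk (l - i) (T + 1 - i) + ((l - i : ℕ) + 1 : ℝ) * dk (l + 1 - i) (T + 1 - i) =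
          if i ≤ T then dk (l - i) (T - i) else 0 := by
        rw [show l + 1 - i = (l - i) + 1 by omega]
        split_ifs with hT
        · rw [show T + 1 - i = (T - i) + 1 by omega]
          exact dk_one _ _
        · rw [show T + 1 - i = 0 by omega]
          exact dk_zero _
      rw [← h3]
      ring
    · by_cases h' : i ≤ l + 1
      · rw [hD i h']
        simp only [if_neg h, if_pos h', add_zero]
      · simp only [if_neg h, if_neg h']
  have e3 : ∑ i ∈ range (T + 2),
      (if i ≤ l then (if i ≤ T then dk (l - i) (T - i) else 0) * U^[l - i] (e i) C else 0) =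
      ∑ i ∈ range (T + 1), (if i ≤ l then dk (l - i) (T - i) * U^[l - i] (e i) C else 0) := by
    rw [sum_range_succ _ (T + 1), if_neg (show ¬ T + 1 ≤ T by omega), zero_mul, ite_self, add_zero]
    refine sum_congr rfl fun i hi => ?_
    rw [if_pos (show i ≤ T by have := mem_range.1 hi; omega)]
  have hz : ∀ (k : ℕ) (C : Finset ℕ), C.card = M → U^[k] (Dl (e 0)) C = 0 := by
    intro k
    induction k with
    | zero => exact fun C hC => h0 C hC
    | succ k ih =>
      intro C hC
      rw [Function.iterate_succ_apply']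
      change ∑ x ∈ rm C, om M (x - 1) * (U^[k] (Dl (e 0))) (mvd C x) = 0
      refine sum_eq_zero fun x hx => ?_
      rw [ih _ (by rw [mvd_card hx, hC]), mul_zero]
  have e4 : ∑ i ∈ range (T + 2),
      (if i ≤ l + 1 then dk (l + 1 - i) (T + 1 - i) * U^[l + 1 - i] (Dl (e i)) C else 0) =
      ∑ i ∈ range (T + 1),
        (if i ≤ l then dk (l - i) (T - i) * U^[l - i] (Dl (e (i + 1))) C else 0) := by
    rw [sum_range_succ', if_pos (Nat.zero_le _), Nat.sub_zero, hz _ C hC, mul_zero, add_zero]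
    refine sum_congr rfl fun i _ => ?_
    by_cases h : i ≤ l
    · rw [if_pos (by omega), if_pos h, show l + 1 - (i + 1) = l - i by omega,
        show T + 1 - (i + 1) = T - i by omega]
    · rw [if_neg (by omega), if_neg h]
  rw [e1, sum_congr rfl e2, sum_add_distrib, e3, e4, ← sum_add_distrib]
  unfold YK
  refine sum_congr rfl fun i _ => ?_
  have hadd : ∀ (k : ℕ) (f g : Finset ℕ → ℝ) (C : Finset ℕ),
      U^[k] (fun C => f C + g C) C = U^[k] f C + U^[k] g C := by
    intro k f g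
    induction k with
    | zero => exact fun C => rfl
    | succ k ih =>
      intro C
      rw [Function.iterate_succ_apply', Function.iterate_succ_apply', Function.iterate_succ_apply']
      change ∑ x ∈ rm C, om M (x - 1) * (U^[k] fun C => f C + g C) (mvd C x) =
        ∑ x ∈ rm C, om M (x - 1) * (U^[k] f) (mvd C x) +
          ∑ x ∈ rm C, om M (x - 1) * (U^[k] g) (mvd C x)
      rw [← sum_add_distrib]
      refine sum_congr rfl fun x _ => ?_
      rw [ih]
      ring
  split_ifs with h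
  · have h1 : U^[l - i] (AA e i) C = U^[l - i] (e i) C + U^[l - i] (Dl (e (i + 1))) C :=
      hadd (l - i) (e i) (Dl (e (i + 1))) C
    rw [h1]
    ring
  · ring

theorem sum_range_le' (D : Finset ℕ) : ∑ i ∈ range D.card, i ≤ ∑ i ∈ D, i := by
  induction D using Finset.induction_on_max with
  | empty => simp
  | insert a C ha ih =>
    have hn : a ∉ C := fun h => lt_irrefl a (ha a h)
    rw [card_insert_of_notMem hn, sum_range_succ, sum_insert hn]
    have hle : C.card ≤ a := by
      have : C ⊆ range a := fun y hy => mem_range.2 (ha y hy)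
      have := card_le_card this
      rwa [card_range] at this
    omega

/-- the function `f` lives on the level `i` (among the sets with `M` beads) -/
def OnL (M i : ℕ) (f : Finset ℕ → ℝ) : Prop := ∀ C : Finset ℕ, C.card = M → C ∉ Lv M i → f C = 0

theorem OnL_Dl {M i : ℕ} {f : Finset ℕ → ℝ} (hf : OnL M (i + 1) f) : OnL M i (Dl f) := by
  intro C hC hn
  unfold Dl
  refine sum_eq_zero fun x hx => hf _ (by rw [mv_card hx, hC]) fun h => hn ?_
  obtain ⟨h1, h2⟩ := mem_Lv_iff.1 h
  obtain ⟨h3, h4⟩ := mem_ad.1 hx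
  refine mem_Lv_iff.2 ⟨hC, ?_⟩
  unfold mv at h2
  rw [sum_insert fun h => h4 (mem_erase.1 h).2] at h2
  have h5 := add_sum_erase C (fun i => i) h3
  omega

theorem OnL_Dl_zero {M : ℕ} {f : Finset ℕ → ℝ} (hf : OnL M 0 f) {C : Finset ℕ} (hC : C.card = M) :
    Dl f C = 0 := by
  unfold Dl
  refine sum_eq_zero fun x hx => hf _ (by rw [mv_card hx, hC]) fun h => ?_
  obtain ⟨h1, h2⟩ := mem_Lv_iff.1 h
  obtain ⟨h3, h4⟩ := mem_ad.1 hx
  unfold mv at h2
  rw [sum_insert fun h => h4 (mem_erase.1 h).2] at h2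
  have h5 := add_sum_erase C (fun i => i) h3
  have h6 := sum_range_le' C
  rw [hC] at h6
  omega

theorem OnL_AA {M : ℕ} {e : ℕ → Finset ℕ → ℝ} (he : ∀ i, OnL M i (e i)) (i : ℕ) :
    OnL M i (AA e i) := by
  intro C hC hn
  unfold AA
  rw [he i C hC hn, OnL_Dl (he (i + 1)) C hC hn, add_zero]

theorem AAi_YK {M : ℕ} (hM : 0 < M) : ∀ (j T : ℕ) (e : ℕ → Finset ℕ → ℝ)
    (_he : ∀ i, OnL M i (e i)) (l : ℕ) {C : Finset ℕ}, C.card = M →
    AA^[j] (YK M (T + j) e) l C = YK M T (AA^[j] e) l C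
  | 0, _, _, _, _, _, _ => rfl
  | j + 1, T, e, he, l, C, hC => by
    have hcongr : ∀ (k : ℕ) (Y Z : ℕ → Finset ℕ → ℝ),
        (∀ l (C : Finset ℕ), C.card = M → Y l C = Z l C) →
        ∀ l (C : Finset ℕ), C.card = M → AA^[k] Y l C = AA^[k] Z l C := by
      intro k
      induction k with
      | zero => exact fun Y Z h => h
      | succ k ih =>
        intro Y Z h
        rw [Function.iterate_succ_apply, Function.iterate_succ_apply]
        refine ih _ _ fun l C hC => ?_
        unfold AA Dl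
        rw [h l C hC]
        congr 1
        exact sum_congr rfl fun x hx => h _ _ (by rw [mv_card hx, hC])
    rw [Function.iterate_succ_apply, Function.iterate_succ_apply,
      hcongr j (AA (YK M (T + (j + 1)) e)) (YK M (T + j) (AA e)) ?_ l C hC]
    · exact AAi_YK hM j T (AA e) (OnL_AA he) l hC
    · intro l C hC
      exact AA_YK hM (T + j) e (fun C hC => OnL_Dl_zero (he 0) hC) l hC

end Pool.JM
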