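import Pool.Agent.Work.MP_46fa68_T.Lift
import Pool.Agent.Work.MP_46fa68_T.Inst

/-!
# MP_46fa68_co: the lift theorem

`lift_zero`: the one-bead function built from `e_0, e_1, ..., e_t` is killed by `Dl^t` on the level `m`, as
soon as `(AA^t e)_0 = 0` (one number; `exists_e0` chooses `e_0`).
`WY_top`: its value at a set of beads with a long first row.
`top_of_z`: a function `z` with `z = ex` beyond the wall (the one-row shape excepted) and `Dl^t z = 0` on the
level `m` below the wall gives `u = 1 - z / ex` with `Dwi t u = 1`.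
-/

set_option autoImplicit false

open Finset

namespace Pool.JM

/-- the binomial form of the iterates of `AA` -/
theorem AAi_eq : ∀ (j : ℕ) (Y : ℕ → Finset ℕ → ℝ) (l : ℕ) (C : Finset ℕ),
    AA^[j] Y l C = ∑ i ∈ range (j + 1), (j.choose i : ℝ) * Dl^[i] (Y (l + i)) C
  | 0, Y, l, C => by simp
  | j + 1, Y, l, C => by
    rw [Function.iterate_succ_apply']
    change AA^[j] Y l C + Dl (AA^[j] Y (l + 1)) C = _
    have h1 : AA^[j] Y (l + 1) = fun C => ∑ i ∈ range (j + 1),
        (j.choose i : ℝ) * Dl^[i] (Y (l + 1 + i)) C := by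
      funext C
      exact AAi_eq j Y (l + 1) C
    rw [AAi_eq j Y l C, h1, Dl_sum]
    have h2 : ∀ i ∈ range (j + 1), Dl (fun C => (j.choose i : ℝ) * Dl^[i] (Y (l + 1 + i)) C) C =
        (j.choose i : ℝ) * Dl^[i + 1] (Y (l + (i + 1))) C := by
      intro i _
      rw [Dl_smul, Function.iterate_succ_apply', show l + 1 + i = l + (i + 1) by omega]
    rw [sum_congr rfl h2, sum_range_succ' (fun i => ((j + 1).choose i : ℝ) * Dl^[i] (Y (l + i)) C)]
    have h3 : ∀ i ∈ range (j + 1), ((j + 1).choose (i + 1) : ℝ) * Dl^[i + 1] (Y (l + (i + 1))) C =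
        (j.choose i : ℝ) * Dl^[i + 1] (Y (l + (i + 1))) C +
          (j.choose (i + 1) : ℝ) * Dl^[i + 1] (Y (l + (i + 1))) C := by
      intro i _
      rw [Nat.choose_succ_succ]
      push_cast
      ring
    rw [sum_congr rfl h3, sum_add_distrib]
    have h4 : ∑ i ∈ range (j + 1), (j.choose (i + 1) : ℝ) * Dl^[i + 1] (Y (l + (i + 1))) C +
        ((j + 1).choose 0 : ℝ) * Dl^[0] (Y (l + 0)) C =
        ∑ i ∈ range (j + 1), (j.choose i : ℝ) * Dl^[i] (Y (l + i)) C := by
      rw [sum_range_succ' (fun i => (j.choose i : ℝ) * Dl^[i] (Y (l + i)) C), sum_range_succ]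
      simp
    rw [← h4]
    ring

/-- **The lift theorem.** -/
theorem lift_zero {K m t : ℕ} (hK : 2 ≤ K) (e : ℕ → Finset ℕ → ℝ) (he : ∀ i, OnL (K - 1) i (e i))
    (hz : AA^[t] e 0 (range (K - 1)) = 0) {B : Finset ℕ} (hB : B ∈ Lv K m) :
    Dl^[t] (WY K (m + t) (YK (K - 1) t e)) B = 0 := by
  rw [Dli_WY t m _ hB]
  unfold WY
  refine sum_eq_zero fun x hx => ?_
  have hc : (B.erase x).card = K - 1 := by
    rw [card_erase_of_mem hx, (Lv_spec hB).1]
  have h1 := AAi_YK (M := K - 1) (by omega) t 0 e he (m + (K - 1) - x) hc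
  rw [zero_add] at h1
  rw [h1]
  have hOn : ∀ j, ∀ i, OnL (K - 1) i (AA^[j] e i) := by
    intro j
    induction j with
    | zero => exact he
    | succ j ih =>
      rw [Function.iterate_succ_apply']
      exact OnL_AA ih
  have h2 : ∀ C : Finset ℕ, C.card = K - 1 → AA^[t] e 0 C = 0 := by
    intro C hC
    by_cases h3 : C ∈ Lv (K - 1) 0
    · simp only [Lv, mem_singleton] at h3
      rw [h3, hz]
    · exact hOn t 0 C hC h3
  have h4 : ∀ (k : ℕ) (C : Finset ℕ), C.card = K - 1 →
      (Fo (om (K - 1)))^[k] (AA^[t] e 0) C = 0 := by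
    intro k
    induction k with
    | zero => exact h2
    | succ k ih =>
      intro C hC
      rw [Function.iterate_succ_apply']
      change ∑ x ∈ rm C, om (K - 1) (x - 1) * ((Fo (om (K - 1)))^[k] (AA^[t] e 0)) (mvd C x) = 0
      refine sum_eq_zero fun x hx => ?_
      rw [ih _ (by rw [mvd_card hx, hC]), mul_zero]
  unfold YK
  rw [zero_add, sum_range_one, if_pos (Nat.zero_le _), Nat.sub_zero, h4 _ _ hc, mul_zero, mul_zero]

/-- the value at a set of beads with top bead `X` -/
theorem WY_top {K N X : ℕ} {C : Finset ℕ} (h : ∀ y ∈ C, y < X) (Y : ℕ → Finset ℕ → ℝ) :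
    WY K N Y (insert X C) = Y (N + (K - 1) - X) C +
      ∑ x ∈ C, sgx (insert X C) x * Y (N + (K - 1) - x) ((insert X C).erase x) := by
  have hX : X ∉ C := fun hx => lt_irrefl X (h X hx)
  unfold WY
  rw [sum_insert hX, erase_insert hX]
  congr 1
  have : sgx (insert X C) X = 1 := by
    unfold sgx
    have h1 : (insert X C).filter (X < ·) = ∅ := by
      rw [filter_eq_empty_iff]
      intro z hz
      rcases mem_insert.1 hz with rfl | hz
      · exact lt_irrefl _
      · have := h z hz
        omega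
    rw [h1, card_empty, pow_zero]
  rw [this, one_mul]

/-- for `l ≤ t` the family `YK` is the given one -/
theorem YK_low {M t l : ℕ} (hl : l ≤ t) (e : ℕ → Finset ℕ → ℝ) (C : Finset ℕ) :
    YK M t e l C = e l C := by
  unfold YK
  rw [sum_eq_single l]
  · rw [if_pos le_rfl, Nat.sub_self]
    unfold dk
    rw [if_pos rfl, one_mul]
    rfl
  · intro i _ hi
    split_ifs with h
    · have h1 : l - i ≠ 0 := by omega
      unfold dk
      rw [if_neg h1, Nat.choose_eq_zero_of_lt (by omega)]
      simp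
    · rfl
  · intro h
    exact absurd (mem_range.2 (by omega)) h

/-- two functions which agree on the top level except at the one-row shape -/
theorem Dli_congr_Rw {K : ℕ} (hK : 0 < K) : ∀ (j n : ℕ) {f g : Finset ℕ → ℝ}
    (_h : ∀ B ∈ Lv K (n + j), B ≠ Rw K (n + j) → f B = g B) {B : Finset ℕ} (_hB : B ∈ Lv K n)
    (_hne : B ≠ Rw K n), Dl^[j] f B = Dl^[j] g B
  | 0, n, f, g, h, B, hB, hne => h B hB hne
  | j + 1, n, f, g, h, B, hB, hne => by
    rw [Function.iterate_succ_apply', Function.iterate_succ_apply']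
    unfold Dl
    refine sum_congr rfl fun x hx => ?_
    refine Dli_congr_Rw hK j (n + 1) ?_ (mv_mem hB hx) fun h2 => hne (Rw_of_mv hK hB hx h2).1
    rwa [show n + 1 + j = n + (j + 1) by omega]

/-- **From `z` to the certificate.** -/
theorem top_of_z {m t K : ℕ} (hm : 2 ≤ m) (hK : m + t < K) (z : Finset ℕ → ℝ)
    (hz1 : ∀ B ∈ Lv K (m + t), ¬ Bl m K B → B ≠ Rw K (m + t) → z B = ex B)
    (hz2 : ∀ B ∈ Lv K m, Bl m K B → Dl^[t] z B = 0) :
    ∀ B ∈ Lv K m, Bl m K B → Dwi (K + m - 2) t (fun B => 1 - z B / ex B) B = 1 := by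
  classical
  intro B hB hb
  have hne : B ≠ Rw K m := by
    rintro rfl
    exact not_Bl_Rw le_rfl hb
  set y : Finset ℕ → ℝ := fun B => if Bl m K B then ex B - z B else 0 with hy
  have h1 := (Dli_eq_Dwi (m := m) (K := K) (by omega) hm (fun B => 1 - z B / ex B) t m y
    (fun B _ hb => by rw [hy]; simp only; rw [if_neg hb])
    (fun B _ hb => by
      rw [hy]
      simp only
      rw [if_pos hb, mul_sub, mul_one, mul_div_cancel₀ _ (ex_pos B).ne'])).2 B hB hb
  have h2 : Dl^[t] y B = Dl^[t] (fun C => ex C + (-1) * z C) B := by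
    refine Dli_congr_Rw (by omega) t m (fun C hC hne => ?_) hB hne
    rw [hy]
    simp only
    split_ifs with hb
    · ring
    · rw [hz1 C hC hb hne]
      ring
  have hadd : ∀ (j : ℕ) (f g : Finset ℕ → ℝ) (B : Finset ℕ),
      Dl^[j] (fun C => f C + (-1) * g C) B = Dl^[j] f B + (-1) * Dl^[j] g B := by
    intro j f g
    induction j with
    | zero => exact fun B => rfl
    | succ j ih =>
      intro B
      rw [Function.iterate_succ_apply', Function.iterate_succ_apply', Function.iterate_succ_apply']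
      unfold Dl
      rw [mul_sum, ← sum_add_distrib]
      exact sum_congr rfl fun x _ => ih _
  have hex : ∀ (j n : ℕ), n + j < K → ∀ B ∈ Lv K n, Dl^[j] ex B = ex B := by
    intro j
    induction j with
    | zero => exact fun n _ B _ => rfl
    | succ j ih =>
      intro n hn B hB
      rw [Function.iterate_succ_apply']
      have e1 : Dl (Dl^[j] ex) B = Dl ex B := Dl_congr (fun C hC => ih (n + 1) (by omega) C hC) hB
      rw [e1, Dl_ex (Lv_zero_mem hB (by omega))]
  rw [h2, hadd, hz2 B hB hb, hex t m hK B hB, mul_zero, add_zero] at h1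
  have h3 := ex_pos B
  exact (mul_left_cancel₀ h3.ne' (by rw [← h1, mul_one])).symm

/-- the choice of `e_0` -/
theorem exists_e0 (M t : ℕ) (e : ℕ → Finset ℕ → ℝ) (he : ∀ i, OnL M i (e i)) :
    ∃ e' : ℕ → Finset ℕ → ℝ, (∀ i, i ≠ 0 → e' i = e i) ∧ (∀ i, OnL M i (e' i)) ∧
      AA^[t] e' 0 (range M) = 0 := by
  classical
  set s : ℝ := ∑ i ∈ range t, (t.choose (i + 1) : ℝ) * Dl^[i + 1] (e (i + 1)) (range M) with hs
  refine ⟨fun i => if i = 0 then (fun C => if C = range M then - s else 0) else e i, ?_, ?_, ?_⟩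
  · intro i hi
    simp only [if_neg hi]
  · intro i
    by_cases hi : i = 0
    · subst hi
      intro C _ hn
      simp only [if_true]
      rw [if_neg]
      rintro rfl
      exact hn (by simp [Lv])
    · simp only [if_neg hi]
      exact he i
  · rw [AAi_eq, sum_range_succ']
    have h1 : ∀ i ∈ range t, (t.choose (i + 1) : ℝ) *
        Dl^[i + 1] ((fun i => if i = 0 then (fun C => if C = range M then - s else 0) else e i)
          (0 + (i + 1))) (range M) = (t.choose (i + 1) : ℝ) * Dl^[i + 1] (e (i + 1)) (range M) := by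
      intro i _
      simp only [zero_add]
      rw [if_neg (Nat.succ_ne_zero i)]
    rw [sum_congr rfl h1, ← hs]
    simp

end Pool.JM
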