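import Pool.Agent.Work.MP_46fa68_T.Lift2

/-!
# MP_46fa68_co: the exact lift (interface)

`M` beads in the inner space, `K = M + 1`.  `YK` is the family of `Lift.lean` (exact for finitely many
beads), `YQ` its majorant.  Blocks `YB`, `CMP`, `FIXX`; `LIFTX` is the final theorem.
-/

set_option autoImplicit false

open Finset

namespace Pool.JM

/-- the majorant of `YK`, with the weighted raising operator -/
noncomputable def YQ (M T : ℕ) (W : ℕ → Finset ℕ → ℝ) (l : ℕ) (C : Finset ℕ) : ℝ :=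
  ∑ i ∈ range (T + 1), if i ≤ l then |dk (l - i) (T - i)| * (Fo (om M))^[l - i] (W i) C else 0

/-- the same with the plain raising operator -/
noncomputable def YR (T : ℕ) (W : ℕ → Finset ℕ → ℝ) (l : ℕ) (C : Finset ℕ) : ℝ :=
  ∑ i ∈ range (T + 1), if i ≤ l then |dk (l - i) (T - i)| * (Fo fun _ => 1)^[l - i] (W i) C else 0

/-- the value which the vacuum component must have -/
noncomputable def W0 (M T : ℕ) (W : ℕ → Finset ℕ → ℝ) : ℝ :=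
  ∑ j ∈ range T, (T.choose (j + 1) : ℝ) * Dl^[j + 1] (W (j + 1)) (range M)

/-- YB: positivity of the weights `om M`; `Fo (om M)^[l-i] (e i)` at `C ∈ Lv M l` only uses the values of
`e i` on `Lv M i`. -/
def Stmt_YB : Prop := ∀ (M T : ℕ) (e W : ℕ → Finset ℕ → ℝ),
  (∀ i ≤ T, ∀ C ∈ Lv M i, |e i C| ≤ W i C) → ∀ l, ∀ C ∈ Lv M l, |YK M T e l C| ≤ YQ M T W l C

/-- CMP: the weighted operator is conjugate to the plain one by `Φ C = ∏_{z ∈ C} z! / M^z`; for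
`C = B.erase x`, `B ∈ Lv (M+1) N` one has `Φ C / Φ (range M) ≤ (1 + N/M)^N`, and on `Lv M i`, `i ≤ T`,
`Φ / Φ (range M) ≥ (1 - T/M)^T`. -/
def Stmt_CMP : Prop := ∀ (M T N : ℕ) (W : ℕ → Finset ℕ → ℝ), T < M →
  (∀ i ≤ T, ∀ C ∈ Lv M i, 0 ≤ W i C) → ∀ B ∈ Lv (M + 1) N, ∀ x ∈ B, T < N + M - x →
  YQ M T W (N + M - x) (B.erase x) ≤
    (1 + (N : ℝ) / M) ^ N / (1 - (T : ℝ) / M) ^ T * YR T W (N + M - x) (B.erase x)

/-- FIXX (contraction).  The shapes beyond the wall on level `m + t`, other than the one-row shape, are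
exactly `insert (m+t+M-i) C`, `1 ≤ i ≤ t`, `C ∈ Lv M i`.  On the finite dimensional space of the families
`(e_i)_{1 ≤ i ≤ t}` (with `e_0` the linear functional `- ∑ C(t,j) (Dl^j e_j)(vacuum)`) the linear map
`e ↦ e_i(C) + ∑_{x ∈ C} sgx * YK e (m+t+M-x) ((insert _ C).erase x)` is injective (YB and the second
hypothesis), so bijective, and the solution for `β` satisfies `|e_i| ≤ W_i / (1 - ν)`. -/
def Stmt_FIXX : Prop := ∀ (M m t : ℕ) (W : ℕ → Finset ℕ → ℝ) (ν : ℝ) (β : Finset ℕ → ℝ),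
  t ≤ m → m + t < M → 0 ≤ ν → ν < 1 →
  (∀ i, 1 ≤ i → i ≤ t → ∀ C ∈ Lv M i, 0 < W i C) → W 0 (range M) = W0 M t W →
  (∀ i, 1 ≤ i → i ≤ t → ∀ C ∈ Lv M i,
    ∑ x ∈ C, YQ M t W (m + t + M - x) ((insert (m + t + M - i) C).erase x) ≤ ν * W i C) →
  (∀ i, 1 ≤ i → i ≤ t → ∀ C ∈ Lv M i, |β (insert (m + t + M - i) C)| ≤ W i C) →
  ∃ e : ℕ → Finset ℕ → ℝ, (∀ i, OnL M i (e i)) ∧ AA^[t] e 0 (range M) = 0 ∧
    (∀ i ≤ t, ∀ C ∈ Lv M i, |e i C| ≤ W i C / (1 - ν)) ∧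
    ∀ B ∈ Lv (M + 1) (m + t), ¬ Bl m (M + 1) B → B ≠ Rw (M + 1) (m + t) →
      WY (M + 1) (m + t) (YK M t e) B = β B

/-- **LIFTX, the exact lift**: `q = (1 + N/M)^N / (1 - t/M)^t`, `N = m + t` (close to `1` for large `M`). -/
def Stmt_LIFTX : Prop := ∀ (M m t : ℕ) (W : ℕ → Finset ℕ → ℝ) (ν q : ℝ) (β : Finset ℕ → ℝ),
  t ≤ m → m + t < M → 0 ≤ ν →
  q = (1 + ((m + t : ℕ) : ℝ) / M) ^ (m + t) / (1 - (t : ℝ) / M) ^ t → q * ν < 1 →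
  (∀ i, 1 ≤ i → i ≤ t → ∀ C ∈ Lv M i, 0 < W i C) → W 0 (range M) = W0 M t W →
  (∀ i, 1 ≤ i → i ≤ t → ∀ C ∈ Lv M i,
    ∑ x ∈ C, YR t W (m + t + M - x) ((insert (m + t + M - i) C).erase x) ≤ ν * W i C) →
  (∀ i, 1 ≤ i → i ≤ t → ∀ C ∈ Lv M i, |β (insert (m + t + M - i) C)| ≤ W i C) →
  ∃ v : Finset ℕ → ℝ,
    (∀ B ∈ Lv (M + 1) (m + t), ¬ Bl m (M + 1) B → B ≠ Rw (M + 1) (m + t) → v B = β B) ∧
    (∀ B ∈ Lv (M + 1) (m + t), Bl m (M + 1) B →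
      |v B| ≤ q / (1 - q * ν) * ∑ x ∈ B, YR t W (m + t + M - x) (B.erase x)) ∧
    (∀ B ∈ Lv (M + 1) m, Dl^[t] v B = 0)

end Pool.JM
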