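import Pool.Agent.Work.MP_46fa68_T.Inst

/-!
# MP_46fa68_co: the one-row solution near the wall

`EE x C` is `ex` of the shape with top bead `x` and the other beads `C`; `Vf r i x C` is a series in the
shifts of the top bead which solves the restriction equations exactly as long as the second row is shorter
than the first.
-/

set_option autoImplicit false

open Finset

namespace Pool.JM

/-! ### the second moment of the transition measure -/

theorem mean_w {M : ℕ} : ∀ (n : ℕ) (B : Finset ℕ), B ∈ Lv M n → 0 ∈ B →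
    ∑ x ∈ B, w B x * ((x : ℝ) - ((M : ℝ) - 1)) = 0 ∧
    ∑ x ∈ B, w B x * ((x : ℝ) - ((M : ℝ) - 1)) ^ 2 = (n : ℝ) := by
  intro n
  induction n with
  | zero =>
    intro B hB h0
    simp only [Lv, mem_singleton] at hB
    subst hB
    have hM : 0 < M := by simpa using h0
    have hz : ∀ x ∈ range M, x ≠ M - 1 → w (range M) x = 0 := by
      intro x hx hne
      refine w_zero ?_
      rw [mem_range] at hx ⊢
      omega
    have hc : (((M - 1 : ℕ) : ℝ) - ((M : ℝ) - 1)) = 0 := by
      rw [Nat.cast_sub (by omega : 1 ≤ M)]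
      push_cast
      ring
    constructor
    · refine sum_eq_zero fun x hx => ?_
      by_cases hne : x = M - 1
      · rw [hne, hc, mul_zero]
      · rw [hz x hx hne, zero_mul]
    · rw [Nat.cast_zero]
      refine sum_eq_zero fun x hx => ?_
      by_cases hne : x = M - 1
      · rw [hne, hc]
        ring
      · rw [hz x hx hne, zero_mul]
  | succ n ih =>
    intro B hB h0
    simp only [Lv, mem_biUnion, mem_image] at hB
    obtain ⟨C, hC, u, hu, rfl⟩ := hB
    obtain ⟨hu, hu1⟩ := mem_ad.1 hu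
    have h0C : 0 ∈ C := by
      unfold mv at h0
      rw [mem_insert, mem_erase] at h0
      rcases h0 with h | h
      · omega
      · exact h.2
    obtain ⟨h1, h2⟩ := ih C hC h0C
    have ex1 : ∀ D : Finset ℕ, 0 ∈ D → mom D u 1 =
        ∑ x ∈ D, w D x * ((x : ℝ) - ((M : ℝ) - 1)) + (((M : ℝ) - 1) - u) := by
      intro D hD
      have e := w_sum D hD
      have : mom D u 1 = ∑ x ∈ D, (w D x * ((x : ℝ) - ((M : ℝ) - 1)) +
          w D x * (((M : ℝ) - 1) - u)) := by
        unfold mom
        refine sum_congr rfl fun x _ => ?_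
        ring
      rw [this, sum_add_distrib, ← sum_mul, e, one_mul]
    have ex2 : ∀ D : Finset ℕ, 0 ∈ D → mom D u 2 =
        ∑ x ∈ D, w D x * ((x : ℝ) - ((M : ℝ) - 1)) ^ 2 +
          2 * (((M : ℝ) - 1) - u) * ∑ x ∈ D, w D x * ((x : ℝ) - ((M : ℝ) - 1)) +
          (((M : ℝ) - 1) - u) ^ 2 := by
      intro D hD
      have e := w_sum D hD
      have : mom D u 2 = ∑ x ∈ D, (w D x * ((x : ℝ) - ((M : ℝ) - 1)) ^ 2 +
          2 * (((M : ℝ) - 1) - u) * (w D x * ((x : ℝ) - ((M : ℝ) - 1))) +
          w D x * (((M : ℝ) - 1) - u) ^ 2) := by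
        unfold mom
        refine sum_congr rfl fun x _ => ?_
        ring
      rw [this, sum_add_distrib, sum_add_distrib, ← mul_sum, ← sum_mul, e, one_mul]
    have m1 := mom_one hu hu1 h0
    rw [ex1 _ h0, ex1 _ h0C, h1] at m1
    have r1 : ∑ x ∈ mv C u, w (mv C u) x * ((x : ℝ) - ((M : ℝ) - 1)) = 0 := by linarith
    refine ⟨r1, ?_⟩
    have m2 := mom_two hu hu1 0
    rw [zero_add, ex2 _ h0, ex2 _ h0C, h1, h2, r1, mom_zero _ h0] at m2
    push_cast
    linarith

theorem w_nonneg {B : Finset ℕ} {x : ℕ} : 0 ≤ w B x := by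
  by_cases h : x + 1 ∈ B
  · rw [w_zero h]
  · exact (w_pos h).le

theorem w_le {M n : ℕ} {B : Finset ℕ} (hB : B ∈ Lv M n) (h0 : 0 ∈ B) {x : ℕ} (hx : x ∈ B) :
    w B x * ((x : ℝ) - ((M : ℝ) - 1)) ^ 2 ≤ n := by
  rw [← (mean_w n B hB h0).2]
  exact single_le_sum (f := fun x : ℕ => w B x * ((x : ℝ) - ((M : ℝ) - 1)) ^ 2)
    (fun y _ => mul_nonneg w_nonneg (sq_nonneg _)) hx

/-! ### the top bead -/

/-- `ex` as a function of the top bead `x` and the other beads `C` -/
noncomputable def EE (x : ℕ) (C : Finset ℕ) : ℝ :=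
  ex C * (∏ y ∈ C, ((x : ℝ) - y)) / (x.factorial : ℝ)

theorem EE_eq {x : ℕ} {C : Finset ℕ} (h : ∀ y ∈ C, y < x) : EE x C = ex (insert x C) := by
  rw [ex_insert fun hx => lt_irrefl x (h x hx)]
  unfold EE
  congr 2
  refine prod_congr rfl fun y hy => ?_
  have : (y : ℝ) < x := by exact_mod_cast h y hy
  rw [abs_of_pos (by linarith)]

theorem EE_pos {x : ℕ} {C : Finset ℕ} (h : ∀ y ∈ C, y < x) : 0 < EE x C := by
  rw [EE_eq h]
  exact ex_pos _

theorem EE_succ {x : ℕ} {C : Finset ℕ} (h : ∀ y ∈ C, y < x) :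
    EE (x + 1) C = w (insert x C) x * EE x C := by
  have hx : x ∉ C := fun hx => lt_irrefl x (h x hx)
  have h1 : x + 1 ∉ insert x C := by
    intro h2
    rcases mem_insert.1 h2 with h2 | h2
    · omega
    · have := h _ h2
      omega
  rw [EE_eq h, EE_eq fun y hy => (h y hy).trans (Nat.lt_succ_self x),
    ← ex_mv (mem_ad.2 ⟨mem_insert_self _ _, h1⟩)]
  unfold mv
  rw [erase_insert hx]

/-- the ratio decreases with the top bead -/
theorem w_top_anti {x : ℕ} {C : Finset ℕ} (h : ∀ y ∈ C, y < x) (j : ℕ) :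
    w (insert (x + j) C) (x + j) ≤ w (insert x C) x := by
  have hx : x ∉ C := fun hx => lt_irrefl x (h x hx)
  have hxj : x + j ∉ C := fun hx => by
    have := h _ hx
    omega
  unfold w
  rw [erase_insert hx, erase_insert hxj]
  push_cast
  have h1 : ∏ y ∈ C, (((x : ℝ) + j + 1 - y) / ((x : ℝ) + j - y)) ≤
      ∏ y ∈ C, (((x : ℝ) + 1 - y) / ((x : ℝ) - y)) := by
    refine prod_le_prod (fun y hy => ?_) fun y hy => ?_
    · have : (y : ℝ) < x := by exact_mod_cast h y hy
      have hj : (0 : ℝ) ≤ j := Nat.cast_nonneg j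
      exact div_nonneg (by linarith) (by linarith)
    · have : (y : ℝ) < x := by exact_mod_cast h y hy
      have hj : (0 : ℝ) ≤ j := Nat.cast_nonneg j
      rw [div_le_div_iff₀ (by linarith) (by linarith)]
      nlinarith
  have h2 : 0 ≤ ∏ y ∈ C, (((x : ℝ) + 1 - y) / ((x : ℝ) - y)) := by
    refine prod_nonneg fun y hy => ?_
    have : (y : ℝ) < x := by exact_mod_cast h y hy
    exact div_nonneg (by linarith) (by linarith)
  have h3 : (0 : ℝ) < (x : ℝ) + 1 := by positivity
  have hj : (0 : ℝ) ≤ j := Nat.cast_nonneg j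
  exact div_le_div₀ h2 h1 h3 (by linarith)

/-- the identity of `ex` in terms of the top bead -/
theorem EE_harm {x : ℕ} {C : Finset ℕ} (h : ∀ y ∈ C, y + 1 < x) (h0 : 0 ∈ C) :
    EE x C = EE (x + 1) C + ∑ y ∈ ad C, EE x (mv C y) := by
  have h' : ∀ y ∈ C, y < x := fun y hy => by
    have := h y hy
    omega
  have hx : x ∉ C := fun hx => lt_irrefl x (h' x hx)
  have hx1 : x + 1 ∉ insert x C := by
    intro h2
    rcases mem_insert.1 h2 with h2 | h2
    · omega
    · have := h _ h2
      omega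
  have h1 : ad (insert x C) = insert x (ad C) := by
    ext z
    simp only [mem_ad, mem_insert]
    constructor
    · rintro ⟨h2 | h2, h3⟩
      · exact Or.inl h2
      · exact Or.inr ⟨h2, fun h4 => h3 (Or.inr h4)⟩
    · rintro (rfl | ⟨h2, h3⟩)
      · refine ⟨Or.inl rfl, ?_⟩
        rintro (h2 | h2)
        · omega
        · have := h _ h2
          omega
      · refine ⟨Or.inr h2, ?_⟩
        rintro (h4 | h4)
        · have := h _ h2
          omega
        · exact h3 h4
  have h2 := Dl_ex (B := insert x C) (mem_insert_of_mem h0)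
  unfold Dl at h2
  rw [h1, sum_insert (fun h3 => hx (mem_ad.1 h3).1)] at h2
  rw [EE_eq h', EE_eq fun y hy => (h' y hy).trans (Nat.lt_succ_self x), ← h2]
  have h3 : mv (insert x C) x = insert (x + 1) C := by
    unfold mv
    rw [erase_insert hx]
  rw [h3]
  congr 1
  refine sum_congr rfl fun y hy => ?_
  have hy' := (mem_ad.1 hy).1
  have hyx : y ≠ x := fun h4 => hx (h4 ▸ hy')
  have h4 : mv (insert x C) y = insert x (mv C y) := by
    unfold mv
    rw [erase_insert_of_ne hyx.symm, insert_comm]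
  rw [h4, EE_eq]
  intro z hz
  unfold mv at hz
  rw [mem_insert, mem_erase] at hz
  rcases hz with rfl | hz
  · exact h y hy'
  · exact h' z hz.2

/-! ### the coefficients -/

/-- the coefficients of the series -/
noncomputable def PP (r i j : ℕ) : ℝ :=
  if i = 0 then (if j = 0 then 1 else 0) else
    if j = 0 then 0 else (-1) ^ i * ((r + j - 1).choose j : ℝ) * ((j - 1).choose (i - 1) : ℝ)

theorem PP_rec (r i j : ℕ) :
    PP (r + 1) i j + PP (r + 1) (i + 1) (j + 1) - PP (r + 1) (i + 1) j = PP r (i + 1) (j + 1) := by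
  unfold PP
  rw [if_neg (by omega : i + 1 ≠ 0), if_neg (by omega : j + 1 ≠ 0), if_neg (by omega : i + 1 ≠ 0),
    if_neg (by omega : i + 1 ≠ 0), if_neg (by omega : j + 1 ≠ 0)]
  simp only [Nat.add_sub_cancel]
  rw [show r + 1 + (j + 1) - 1 = (r + j) + 1 by omega, show r + (j + 1) - 1 = r + j by omega,
    Nat.choose_succ_succ]
  rcases Nat.eq_zero_or_pos j with rfl | hj
  · rcases Nat.eq_zero_or_pos i with rfl | hi
    · simp
    · rw [if_neg (by omega : i ≠ 0), if_pos rfl, if_pos rfl, Nat.choose_eq_zero_of_lt hi]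
      simp
  · obtain ⟨j', rfl⟩ : ∃ j', j = j' + 1 := ⟨j - 1, by omega⟩
    rw [if_neg (by omega : j' + 1 ≠ 0)]
    rcases Nat.eq_zero_or_pos i with rfl | hi
    · rw [if_pos rfl, if_neg (by omega : j' + 1 ≠ 0)]
      simp only [Nat.add_sub_cancel, Nat.choose_zero_right]
      rw [show r + 1 + (j' + 1) - 1 = r + (j' + 1) by omega]
      push_cast
      ring
    · obtain ⟨i', rfl⟩ : ∃ i', i = i' + 1 := ⟨i - 1, by omega⟩
      rw [if_neg (by omega : i' + 1 ≠ 0), if_neg (by omega : j' + 1 ≠ 0)]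
      simp only [Nat.add_sub_cancel]
      rw [show r + 1 + (j' + 1) - 1 = r + (j' + 1) by omega, Nat.choose_succ_succ j' i']
      push_cast
      ring

theorem PP_zero {r i : ℕ} (hi : i ≠ 0) : PP r i 0 = 0 := by
  unfold PP
  rw [if_neg hi, if_pos rfl]

theorem PP_r_zero {i : ℕ} (hi : i ≠ 0) (j : ℕ) : PP 0 i j = 0 := by
  unfold PP
  rw [if_neg hi]
  split_ifs with h
  · rfl
  · rw [zero_add, Nat.choose_eq_zero_of_lt (by omega : j - 1 < j)]
    simp

theorem PP_lt {r i j : ℕ} (hi : i ≠ 0) (h : j < i) : PP r i j = 0 := by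
  unfold PP
  rw [if_neg hi]
  split_ifs with h0
  · rfl
  · rw [Nat.choose_eq_zero_of_lt (by omega : j - 1 < i - 1)]
    simp

theorem abs_PP {r i : ℕ} (hi : i ≠ 0) (hr : r ≠ 0) (l : ℕ) :
    |PP r i (i + l)| ≤ ((r + i - 1).choose i : ℝ) * ((l + (r + i - 1)).choose (r + i - 1) : ℝ) := by
  unfold PP
  rw [if_neg hi, if_neg (by omega : i + l ≠ 0), abs_mul, abs_mul, abs_pow, abs_neg, abs_one, one_pow,
    one_mul, Nat.abs_cast, Nat.abs_cast]
  have h1 : (i + l - 1).choose (i - 1) ≤ (i + l).choose i := by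
    obtain ⟨i', rfl⟩ : ∃ i', i = i' + 1 := ⟨i - 1, by omega⟩
    rw [show i' + 1 + l - 1 = i' + l by omega, show i' + 1 - 1 = i' by omega,
      show i' + 1 + l = (i' + l) + 1 by omega, Nat.choose_succ_succ]
    exact Nat.le_add_right _ _
  have h2 : (r + (i + l) - 1).choose (i + l) * (i + l).choose i =
      (r + i - 1).choose i * (l + (r + i - 1)).choose (r + i - 1) := by
    have e1 := Nat.choose_mul (n := r + (i + l) - 1) (k := i + l) (s := i) (by omega)
    rw [e1]
    obtain ⟨r', rfl⟩ : ∃ r', r = r' + 1 := ⟨r - 1, by omega⟩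
    rw [show r' + 1 + (i + l) - 1 = r' + i + l by omega, show r' + 1 + i - 1 = r' + i by omega,
      show r' + i + l - i = r' + l by omega, show i + l - i = l by omega,
      show l + (r' + i) = r' + i + l by omega]
    have e2 := Nat.choose_mul (n := r' + i + l) (k := r' + i) (s := i) (by omega)
    rw [show r' + i + l - i = r' + l by omega, show r' + i - i = r' by omega] at e2
    rw [mul_comm ((r' + i).choose i), e2, show (r' + l).choose l = (r' + l).choose r' by
      rw [← Nat.choose_symm (by omega : r' ≤ r' + l), show r' + l - r' = l by omega]]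
  have h3 : (r + (i + l) - 1).choose (i + l) * (i + l - 1).choose (i - 1) ≤
      (r + i - 1).choose i * (l + (r + i - 1)).choose (r + i - 1) := by
    rw [← h2]
    exact Nat.mul_le_mul_left _ h1
  exact_mod_cast h3

end Pool.JM
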