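import Pool.Agent.Work.MP_46fa68_h4.Top

/-!
# MP_46fa68_co: from one positive function on the top level to the statement about maximum-sized families

`iff_of`: the bound and the description of the families with `(n - t)!` members give the statement that
the largest `t`-intersecting families are exactly the `t`-stars, in the form of the posed question.
`iff_of_top`: the same from one positive function on the top level.
-/

set_option autoImplicit false

open Finset Equiv

namespace Pool.JM

/-- a permutation extending `a k ↦ b k` -/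
theorem exists_perm {n t : ℕ} {a b : Fin t → Fin n} (ha : Function.Injective a)
    (hb : Function.Injective b) : ∃ π : Perm (Fin n), ∀ k, π (a k) = b k := by
  classical
  let e : {x // x ∈ Set.range a} ≃ {x // x ∈ Set.range b} :=
    (Equiv.ofInjective a ha).symm.trans (Equiv.ofInjective b hb)
  refine ⟨e.extendSubtype, fun k => ?_⟩
  rw [Equiv.extendSubtype_apply_of_mem e (a k) ⟨k, rfl⟩]
  have h1 : (Equiv.ofInjective a ha).symm ⟨a k, ⟨k, rfl⟩⟩ = k := by
    rw [Equiv.symm_apply_eq]
    rfl
  change ((Equiv.ofInjective b hb) ((Equiv.ofInjective a ha).symm ⟨a k, ⟨k, rfl⟩⟩) : Fin n) = b k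
  rw [h1]
  rfl

/-- a star has `(n - t)!` members -/
theorem card_star {n t : ℕ} {a b : Fin t → Fin n} (ha : Function.Injective a)
    (hb : Function.Injective b) :
    (univ.filter (fun σ : Perm (Fin n) => ∀ k : Fin t, σ (a k) = b k)).card =
      (n - t).factorial := by
  classical
  obtain ⟨π, hπ⟩ := exists_perm ha hb
  have h1 : (univ.filter (fun σ : Perm (Fin n) => ∀ k : Fin t, σ (a k) = b k)).card =
      (univ.filter (fun σ : Perm (Fin n) => ∀ i, ¬ (i ∉ Set.range a) → σ i = i)).card := by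
    refine card_bij' (fun σ _ => π⁻¹ * σ) (fun σ _ => π * σ) ?_ ?_ ?_ ?_
    · intro σ hσ
      rw [mem_filter] at hσ ⊢
      refine ⟨mem_univ _, fun i hi => ?_⟩
      rw [not_not] at hi
      obtain ⟨k, rfl⟩ := hi
      rw [Perm.mul_apply, hσ.2 k, ← hπ k]
      exact π.symm_apply_apply _
    · intro σ hσ
      rw [mem_filter] at hσ ⊢
      refine ⟨mem_univ _, fun k => ?_⟩
      rw [Perm.mul_apply, hσ.2 (a k) (not_not.2 ⟨k, rfl⟩), hπ k]
    · intro σ _
      simp
    · intro σ _
      simp
  rw [h1]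
  have h2 : (univ.filter (fun σ : Perm (Fin n) => ∀ i, ¬ (i ∉ Set.range a) → σ i = i)).card =
      Fintype.card {σ : Perm (Fin n) // ∀ i, ¬ (i ∉ Set.range a) → σ i = i} :=
    (Fintype.card_subtype _).symm
  rw [h2, ← Fintype.card_congr (Equiv.Perm.subtypeEquivSubtypePerm (fun i => i ∉ Set.range a)),
    Fintype.card_perm]
  have h3 : Fintype.card {i // i ∉ Set.range a} = n - t := by
    rw [Fintype.card_subtype_compl, Fintype.card_fin]
    have h4 : Fintype.card {i // i ∈ Set.range a} = t := by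
      rw [← Fintype.card_congr (Equiv.ofInjective a ha), Fintype.card_fin]
    rw [h4]
  rw [h3]

/-- a star is `t`-intersecting -/
theorem star_inter {n t : ℕ} {a b : Fin t → Fin n} (ha : Function.Injective a) :
    ∀ σ ∈ univ.filter (fun σ : Perm (Fin n) => ∀ k : Fin t, σ (a k) = b k),
      ∀ τ ∈ univ.filter (fun σ : Perm (Fin n) => ∀ k : Fin t, σ (a k) = b k),
        t ≤ (univ.filter fun i => σ i = τ i).card := by
  classical
  intro σ hσ τ hτ
  rw [mem_filter] at hσ hτ
  have h1 : (univ.image a) ⊆ univ.filter fun i => σ i = τ i := by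
    intro i hi
    obtain ⟨k, _, rfl⟩ := mem_image.1 hi
    rw [mem_filter]
    exact ⟨mem_univ _, by rw [hσ.2 k, hτ.2 k]⟩
  have h2 := card_le_card h1
  rwa [card_image_of_injective _ ha, card_univ, Fintype.card_fin] at h2

/-- **The statement in the form of the question** from the bound and the case of equality. -/
theorem iff_of {n t : ℕ} (ht : t ≤ n)
    (hbd : ∀ A : Finset (Perm (Fin n)),
      (∀ σ ∈ A, ∀ τ ∈ A, t ≤ (univ.filter fun i => σ i = τ i).card) → A.card ≤ (n - t).factorial)
    (heq : ∀ A : Finset (Perm (Fin n)),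
      (∀ σ ∈ A, ∀ τ ∈ A, t ≤ (univ.filter fun i => σ i = τ i).card) →
      A.card = (n - t).factorial → ∃ X : Finset (Fin n), X.card = n - t ∧
        ∃ τ ∈ A, ∀ σ : Perm (Fin n), σ ∈ A ↔ ∀ i, i ∉ X → σ i = τ i)
    (F : Finset (Perm (Fin n))) :
    ((∀ σ ∈ F, ∀ τ ∈ F, t ≤ (univ.filter (fun i : Fin n => σ i = τ i)).card) ∧
      (∀ G : Finset (Perm (Fin n)),
        (∀ σ ∈ G, ∀ τ ∈ G, t ≤ (univ.filter (fun i : Fin n => σ i = τ i)).card) →
          G.card ≤ F.card)) ↔
    ∃ a b : Fin t → Fin n, Function.Injective a ∧ Function.Injective b ∧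
      F = univ.filter (fun σ : Perm (Fin n) => ∀ k : Fin t, σ (a k) = b k) := by
  classical
  constructor
  · rintro ⟨h1, h2⟩
    have hc : F.card = (n - t).factorial := by
      refine le_antisymm (hbd F h1) ?_
      have h3 := Fin.castLE_injective ht
      have h4 := h2 _ (star_inter (b := Fin.castLE ht) h3)
      rwa [card_star h3 h3] at h4
    obtain ⟨X, hX, τ, hτ, hF⟩ := heq F h1 hc
    have hXc : (Xᶜ).card = t := by
      rw [card_compl, Fintype.card_fin, hX]
      omega
    have hr := (Xᶜ).range_orderEmbOfFin hXc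
    refine ⟨(Xᶜ).orderEmbOfFin hXc, fun k => τ ((Xᶜ).orderEmbOfFin hXc k),
      ((Xᶜ).orderEmbOfFin hXc).injective,
      fun x y hxy => ((Xᶜ).orderEmbOfFin hXc).injective (τ.injective hxy), ?_⟩
    ext σ
    rw [hF, mem_filter]
    constructor
    · intro h
      refine ⟨mem_univ _, fun k => h _ ?_⟩
      have h5 : (Xᶜ).orderEmbOfFin hXc k ∈ (Xᶜ) := (Xᶜ).orderEmbOfFin_mem hXc k
      exact mem_compl.1 h5
    · rintro ⟨_, h⟩ i hi
      have h5 : i ∈ Set.range ((Xᶜ).orderEmbOfFin hXc) := by
        rw [hr]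
        exact mem_coe.2 (mem_compl.2 hi)
      obtain ⟨k, rfl⟩ := h5
      exact h k
  · rintro ⟨a, b, ha, hb, rfl⟩
    refine ⟨star_inter ha, fun G hG => ?_⟩
    rw [card_star ha hb]
    exact hbd G hG

/-- **The statement in the form of the question** from one positive function on the top level. -/
theorem iff_of_top {m t K : ℕ} (hm : 3 ≤ m) (hK : m + t < K) (u : Finset ℕ → ℝ)
    (h0 : ∀ B ∈ Lv K m, Bl m K B → Dwi (K + m - 2) t u B = 1)
    (hP : ∀ B ∈ Lv K (m + t), Bl m K B → 0 < u B) (F : Finset (Perm (Fin (m + t)))) :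
    ((∀ σ ∈ F, ∀ τ ∈ F, t ≤ (univ.filter (fun i : Fin (m + t) => σ i = τ i)).card) ∧
      (∀ G : Finset (Perm (Fin (m + t))),
        (∀ σ ∈ G, ∀ τ ∈ G, t ≤ (univ.filter (fun i : Fin (m + t) => σ i = τ i)).card) →
          G.card ≤ F.card)) ↔
    ∃ a b : Fin t → Fin (m + t), Function.Injective a ∧ Function.Injective b ∧
      F = univ.filter (fun σ : Perm (Fin (m + t)) => ∀ k : Fin t, σ (a k) = b k) := by
  refine iff_of (by omega) (fun A hA => ?_) (fun A hA hc => ?_) F
  · rw [Nat.add_sub_cancel]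
    exact bound_of_top (by omega) hK u h0 (fun B hB hb => (hP B hB hb).le) A hA
  · rw [Nat.add_sub_cancel] at hc ⊢
    exact star_of_top hm hK u h0 hP A hA hc

end Pool.JM
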