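import Pool.Agent.Work.MP_46fa68_T.Near2
import Pool.Agent.Work.MP_46fa68_T.Wrap

/-!
# MP_46fa68_co: the numerical part for `10 t ≤ n`, `350 ≤ n`
-/

set_option autoImplicit false

open Finset Equiv

namespace Pool.JM

theorem choose_mul_pow_le {n k : ℕ} (hk : k ≤ n) {x y : ℝ} (hx : 0 ≤ x) (hy : 0 ≤ y) :
    (n.choose k : ℝ) * (x ^ k * y ^ (n - k)) ≤ (x + y) ^ n := by
  rw [add_pow]
  have h := Finset.single_le_sum (f := fun m => x ^ m * y ^ (n - m) * (n.choose m : ℝ))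
    (s := range (n + 1)) (fun i _ => by positivity) (mem_range.2 (Nat.lt_succ_of_le hk))
  calc (n.choose k : ℝ) * (x ^ k * y ^ (n - k)) = x ^ k * y ^ (n - k) * (n.choose k : ℝ) := by ring
    _ ≤ _ := h

theorem choose_le_A (m t : ℕ) : ((m + t).choose t : ℝ) ≤ (10 / 9) ^ (m + t) * 9 ^ t := by
  have h := choose_mul_pow_le (n := m + t) (k := t) (by omega) (x := 1 / 9) (y := 1) (by norm_num)
    (by norm_num)
  rw [one_pow, mul_one, show (1 / 9 : ℝ) + 1 = 10 / 9 by norm_num] at h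
  have h9 : (1 / 9 : ℝ) ^ t * 9 ^ t = 1 := by
    rw [← mul_pow]
    norm_num
  calc ((m + t).choose t : ℝ) = ((m + t).choose t : ℝ) * (1 / 9) ^ t * 9 ^ t := by
        rw [mul_assoc, h9, mul_one]
    _ ≤ (10 / 9) ^ (m + t) * 9 ^ t := mul_le_mul_of_nonneg_right h (by positivity)

theorem choose_le_B {t : ℕ} (ht : 1 ≤ t) (i : ℕ) :
    ((t + i - 1).choose i : ℝ) ≤ (5 / 4) ^ i * 5 ^ t := by
  have h := choose_mul_pow_le (n := t + i - 1) (k := i) (by omega) (x := 4 / 5) (y := 1 / 5)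
    (by norm_num) (by norm_num)
  rw [show (4 / 5 : ℝ) + 1 / 5 = 1 by norm_num, one_pow, show t + i - 1 - i = t - 1 by omega] at h
  have h4 : (4 / 5 : ℝ) ^ i * (5 / 4) ^ i = 1 := by
    rw [← mul_pow]
    norm_num
  have h5 : (1 / 5 : ℝ) ^ (t - 1) * 5 ^ (t - 1) = 1 := by
    rw [← mul_pow]
    norm_num
  calc ((t + i - 1).choose i : ℝ) =
      ((t + i - 1).choose i : ℝ) * ((4 / 5) ^ i * (1 / 5) ^ (t - 1)) *
        ((5 / 4) ^ i * 5 ^ (t - 1)) := by
        calc _ = ((t + i - 1).choose i : ℝ) * ((4 / 5 : ℝ) ^ i * (5 / 4) ^ i) *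
              ((1 / 5 : ℝ) ^ (t - 1) * 5 ^ (t - 1)) := by rw [h4, h5, mul_one, mul_one]
          _ = _ := by ring
    _ ≤ 1 * ((5 / 4) ^ i * 5 ^ (t - 1)) := mul_le_mul_of_nonneg_right h (by positivity)
    _ ≤ (5 / 4) ^ i * 5 ^ t := by
        rw [one_mul]
        exact mul_le_mul_of_nonneg_left (pow_le_pow_right₀ (by norm_num) (by omega)) (by positivity)

theorem vb_eq {m t : ℕ} (h : 5 ≤ m + t) (i : ℕ) : vb m t i =
    ((t + i - 1).choose i : ℝ) * (4 / ((m : ℝ) + t - 4)) ^ i / (1 - 4 / ((m : ℝ) + t)) ^ t := by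
  have h5 : (5 : ℝ) ≤ (m : ℝ) + t := by exact_mod_cast h
  have hN : ((m : ℝ) + t) ≠ 0 := by linarith
  have hN4 : ((m : ℝ) + t - 4) ≠ 0 := by linarith
  have h1 : (1 - 4 / ((m : ℝ) + t)) = ((m : ℝ) + t - 4) / ((m : ℝ) + t) := by
    field_simp
  have h2 : (4 / ((m : ℝ) + t)) = 4 / ((m : ℝ) + t - 4) * (1 - 4 / ((m : ℝ) + t)) := by
    rw [h1]
    field_simp
  have h3 : (1 - 4 / ((m : ℝ) + t)) ≠ 0 := by
    rw [h1]
    exact div_ne_zero hN4 hN
  unfold vb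
  have h4 : (4 / ((m : ℝ) + t)) ^ i =
      (4 / ((m : ℝ) + t - 4)) ^ i * (1 - 4 / ((m : ℝ) + t)) ^ i := by
    rw [← mul_pow, ← h2]
  rw [h4, pow_add]
  field_simp

theorem vb_nonneg {m t : ℕ} (h : 5 ≤ m + t) (i : ℕ) : 0 ≤ vb m t i := by
  have h5 : (5 : ℝ) ≤ (m : ℝ) + t := by exact_mod_cast h
  have h1 : 0 < 1 - 4 / ((m : ℝ) + t) := by
    rw [sub_pos, div_lt_one (by linarith)]
    linarith
  unfold vb
  positivity

theorem vb_anti {m t : ℕ} (ht : 1 ≤ t) (htm : 9 * t ≤ m) (hN : 350 ≤ m + t) {i : ℕ} (hi : 1 ≤ i) :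
    vb m t (i + 1) ≤ vb m t i := by
  have h5 : (350 : ℝ) ≤ (m : ℝ) + t := by exact_mod_cast hN
  have h9 : 9 * (t : ℝ) ≤ m := by exact_mod_cast htm
  have hi1 : (1 : ℝ) ≤ i := by exact_mod_cast hi
  have hD : 0 < (m : ℝ) + t - 4 := by linarith
  have h1 : 0 < 1 - 4 / ((m : ℝ) + t) := by
    rw [sub_pos, div_lt_one (by linarith)]
    linarith
  rw [vb_eq (by omega), vb_eq (by omega)]
  refine div_le_div_of_nonneg_right ?_ (by positivity)
  have hc : ((t + (i + 1) - 1).choose (i + 1) : ℝ) * ((i : ℝ) + 1) =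
      ((t : ℝ) + i) * ((t + i - 1).choose i : ℝ) := by
    have h2 := Nat.add_one_mul_choose_eq (t + i - 1) i
    rw [show t + i - 1 + 1 = t + i by omega] at h2
    rw [show t + (i + 1) - 1 = t + i by omega]
    have h3 : (((t + i) * (t + i - 1).choose i : ℕ) : ℝ) =
        (((t + i).choose (i + 1) * (i + 1) : ℕ) : ℝ) := by rw [h2]
    push_cast at h3
    linarith
  have hr : ((t : ℝ) + i) * (4 / ((m : ℝ) + t - 4)) ≤ (i : ℝ) + 1 := by
    rw [mul_div_assoc', div_le_iff₀ hD]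
    nlinarith
  have hc0 : (0 : ℝ) ≤ ((t + i - 1).choose i : ℝ) := Nat.cast_nonneg _
  have hi0 : (0 : ℝ) < (i : ℝ) + 1 := by positivity
  have hcc : ((t + (i + 1) - 1).choose (i + 1) : ℝ) * (4 / ((m : ℝ) + t - 4)) ≤
      ((t + i - 1).choose i : ℝ) := by
    have h6 : ((t + (i + 1) - 1).choose (i + 1) : ℝ) * (4 / ((m : ℝ) + t - 4)) * ((i : ℝ) + 1) ≤
        ((t + i - 1).choose i : ℝ) * ((i : ℝ) + 1) := by
      calc _ = ((t + (i + 1) - 1).choose (i + 1) : ℝ) * ((i : ℝ) + 1) * (4 / ((m : ℝ) + t - 4)) := by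
            ring
        _ = ((t + i - 1).choose i : ℝ) * (((t : ℝ) + i) * (4 / ((m : ℝ) + t - 4))) := by
            rw [hc]
            ring
        _ ≤ _ := mul_le_mul_of_nonneg_left hr hc0
    exact le_of_mul_le_mul_right h6 hi0
  calc ((t + (i + 1) - 1).choose (i + 1) : ℝ) * (4 / ((m : ℝ) + t - 4)) ^ (i + 1) =
      ((t + (i + 1) - 1).choose (i + 1) : ℝ) * (4 / ((m : ℝ) + t - 4)) *
        (4 / ((m : ℝ) + t - 4)) ^ i := by
        rw [pow_succ]
        ring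
    _ ≤ _ := mul_le_mul_of_nonneg_right hcc (by positivity)

theorem vb_one {m t : ℕ} (ht : 1 ≤ t) (htm : 9 * t ≤ m) (hN : 350 ≤ m + t) :
    vb m t 1 ≤ 7 / 10 := by
  have h5 : (350 : ℝ) ≤ (m : ℝ) + t := by exact_mod_cast hN
  have h9 : 9 * (t : ℝ) ≤ m := by exact_mod_cast htm
  have ht1 : (1 : ℝ) ≤ t := by exact_mod_cast ht
  have hN0 : 0 < (m : ℝ) + t := by linarith
  have hβ : 4 / ((m : ℝ) + t) ≤ 4 / 350 := by
    rw [div_le_div_iff₀ hN0 (by norm_num)]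
    linarith
  have hβ0 : 0 ≤ 4 / ((m : ℝ) + t) := by positivity
  have htβ : (t : ℝ) * (4 / ((m : ℝ) + t)) ≤ 2 / 5 := by
    rw [mul_div_assoc', div_le_div_iff₀ hN0 (by norm_num)]
    linarith
  have hB := one_add_mul_le_pow (a := -(4 / ((m : ℝ) + t))) (by linarith) (t + 1)
  have h1 : (587 / 1000 : ℝ) ≤ (1 - 4 / ((m : ℝ) + t)) ^ (t + 1) := by
    rw [sub_eq_add_neg]
    refine le_trans ?_ hB
    push_cast
    nlinarith
  unfold vb
  rw [pow_one, show t + 1 - 1 = t by omega, Nat.choose_one_right, div_le_iff₀ (by linarith)]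
  linarith

theorem vb_le {m t : ℕ} (ht : 1 ≤ t) (htm : 9 * t ≤ m) (hN : 350 ≤ m + t) :
    ∀ i, 1 ≤ i → vb m t i ≤ 7 / 10 := by
  intro i hi
  induction i, hi using Nat.le_induction with
  | base => exact vb_one ht htm hN
  | succ i hi ih => exact (vb_anti ht htm hN hi).trans ih

theorem num_T {m t i : ℕ} (ht : 1 ≤ t) (htm : 9 * t ≤ m) (hN : 350 ≤ m + t)
    (hi : i = (m - t) / 2) {W : ℝ} (hW : W = 1 + (((m + t : ℕ) : ℝ) - 1) / ((m : ℝ) - 1)) :
    ((m + t).choose t : ℝ) * W ^ t * (1 + W) ^ m * (t * vb m t i) ≤ 1 / 4 := by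
  have h5 : (350 : ℝ) ≤ (m : ℝ) + t := by exact_mod_cast hN
  have h9 : 9 * (t : ℝ) ≤ m := by exact_mod_cast htm
  have ht1 : (1 : ℝ) ≤ t := by exact_mod_cast ht
  have hN0 : 0 < (m : ℝ) + t := by linarith
  have hm1 : 0 < (m : ℝ) - 1 := by linarith
  have hD : 0 < (m : ℝ) + t - 4 := by linarith
  have hW2 : W ≤ 53 / 25 := by
    rw [hW]
    push_cast
    have : ((m : ℝ) + t - 1) / ((m : ℝ) - 1) ≤ 28 / 25 := by
      rw [div_le_div_iff₀ hm1 (by norm_num)]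
      linarith
    linarith
  have hW0 : 0 ≤ W := by
    rw [hW]
    push_cast
    have : 0 ≤ ((m : ℝ) + t - 1) / ((m : ℝ) - 1) := div_nonneg (by linarith) hm1.le
    linarith
  have h2t : (t : ℝ) ≤ 2 ^ t := by
    have := (Nat.lt_two_pow_self (n := t)).le
    exact_mod_cast this
  have hs : ((1 - 4 / ((m : ℝ) + t)) ^ t)⁻¹ ≤ (175 / 173) ^ t := by
    rw [← inv_pow]
    have h6 : (173 / 175 : ℝ) ≤ 1 - 4 / ((m : ℝ) + t) := by
      have : 4 / ((m : ℝ) + t) ≤ 4 / 350 := by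
        rw [div_le_div_iff₀ hN0 (by norm_num)]
        linarith
      linarith
    have h7 : (1 - 4 / ((m : ℝ) + t))⁻¹ ≤ 175 / 173 := by
      have := inv_anti₀ (by norm_num) h6
      rwa [inv_div] at this
    exact pow_le_pow_left₀ (inv_nonneg.2 (by linarith)) h7 t
  have hvb : vb m t i ≤ ((5 / 4) ^ i * 5 ^ t) * (2 / 173) ^ i * (175 / 173) ^ t := by
    rw [vb_eq (by omega), div_eq_mul_inv]
    have h6 : (4 / ((m : ℝ) + t - 4)) ≤ 2 / 173 := by
      rw [div_le_div_iff₀ hD (by norm_num)]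
      linarith
    have h60 : 0 ≤ (4 / ((m : ℝ) + t - 4)) := by positivity
    have h7 : 0 < 1 - 4 / ((m : ℝ) + t) := by
      rw [sub_pos, div_lt_one (by linarith)]
      linarith
    refine mul_le_mul (mul_le_mul (choose_le_B ht i) (pow_le_pow_left₀ h60 h6 i) (by positivity)
      (by positivity)) hs (by positivity) (by positivity)
  have hvb0 := vb_nonneg (m := m) (t := t) (by omega) i
  have hX : ((m + t).choose t : ℝ) * W ^ t * (1 + W) ^ m * (t * vb m t i) ≤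
      (52 / 15) ^ m * (37100 / 173) ^ t * (5 / 346) ^ i := by
    calc ((m + t).choose t : ℝ) * W ^ t * (1 + W) ^ m * (t * vb m t i) ≤
        ((10 / 9) ^ (m + t) * 9 ^ t) * (53 / 25) ^ t * (78 / 25) ^ m *
          (2 ^ t * (((5 / 4) ^ i * 5 ^ t) * (2 / 173) ^ i * (175 / 173) ^ t)) := by
          refine mul_le_mul (mul_le_mul (mul_le_mul (choose_le_A m t)
            (pow_le_pow_left₀ hW0 hW2 t) (by positivity) (by positivity))
            (pow_le_pow_left₀ (by linarith) (by linarith) m) (by positivity) (by positivity))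
            (mul_le_mul h2t hvb hvb0 (by positivity)) (by positivity) (by positivity)
      _ = ((10 / 9 : ℝ) * (78 / 25)) ^ m *
          ((10 / 9 : ℝ) * 9 * (53 / 25) * 2 * 5 * (175 / 173)) ^ t * ((5 / 4) * (2 / 173)) ^ i := by
          simp only [mul_pow, pow_add]
          ring
      _ = (52 / 15) ^ m * (37100 / 173) ^ t * (5 / 346) ^ i := by norm_num
  refine hX.trans ?_
  have hX0 : (0 : ℝ) ≤ (52 / 15) ^ m * (37100 / 173) ^ t * (5 / 346) ^ i := by positivity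
  rw [← pow_le_pow_iff_left₀ hX0 (by norm_num) (by norm_num : (4 : ℕ) ≠ 0)]
  have hm4 : 4 * m ≤ 9 * i + 4 := by omega
  have ht4 : 4 * t ≤ i := by omega
  have hi139 : 139 ≤ i := by omega
  have e1 : ((52 / 15 : ℝ) ^ m * (37100 / 173) ^ t * (5 / 346) ^ i) ^ 4 =
      (52 / 15) ^ (4 * m) * (37100 / 173) ^ (4 * t) * ((5 / 346) ^ 4) ^ i := by
    rw [mul_pow, mul_pow, ← pow_mul, ← pow_mul, ← pow_mul, ← pow_mul, mul_comm m 4, mul_comm t 4,
      mul_comm i 4]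
  rw [e1]
  have e2 : (52 / 15 : ℝ) ^ (9 * i + 4) * (37100 / 173) ^ i * ((5 / 346) ^ 4) ^ i =
      (52 / 15) ^ 4 * ((52 / 15) ^ 9 * (37100 / 173) * (5 / 346) ^ 4) ^ i := by
    rw [pow_add, mul_pow, mul_pow, pow_mul]
    ring
  have e3 : ((52 / 15 : ℝ) ^ 9 * (37100 / 173) * (5 / 346) ^ 4) ≤ 3 / 4 := by norm_num
  calc (52 / 15 : ℝ) ^ (4 * m) * (37100 / 173) ^ (4 * t) * ((5 / 346) ^ 4) ^ i ≤
      (52 / 15 : ℝ) ^ (9 * i + 4) * (37100 / 173) ^ i * ((5 / 346) ^ 4) ^ i := by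
        refine mul_le_mul_of_nonneg_right (mul_le_mul (pow_le_pow_right₀ (by norm_num) hm4)
          (pow_le_pow_right₀ (by norm_num) ht4) (by positivity) (by positivity)) (by positivity)
    _ = (52 / 15) ^ 4 * ((52 / 15) ^ 9 * (37100 / 173) * (5 / 346) ^ 4) ^ i := e2
    _ ≤ (52 / 15) ^ 4 * (3 / 4) ^ i := by
        refine mul_le_mul_of_nonneg_left (pow_le_pow_left₀ (by positivity) e3 i) (by positivity)
    _ ≤ (52 / 15) ^ 4 * (3 / 4) ^ 139 := by
        refine mul_le_mul_of_nonneg_left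
          (pow_le_pow_of_le_one (by norm_num) (by norm_num) hi139) (by positivity)
    _ ≤ (1 / 4) ^ 4 := by norm_num

/-- the function on the top level for `9 t ≤ m`, `350 ≤ m + t` -/
theorem exists_pos_ten {m t K : ℕ} (ht : 1 ≤ t) (htm : 9 * t ≤ m) (hN : 350 ≤ m + t)
    (hK : m + t < K) : ∃ u : Finset ℕ → ℝ, (∀ B ∈ Lv K m, Bl m K B → Dwi (K + m - 2) t u B = 1) ∧
      ∀ B ∈ Lv K (m + t), Bl m K B → 0 < u B := by
  obtain ⟨u, h1, h2⟩ := exists_top_near (m := m) (t := t) (K := K) (i₀ := (m - t) / 2) (by omega)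
    (by omega) (by omega) hK (v := 7 / 10) (by norm_num) (fun i hi _ => vb_le ht htm hN i hi) rfl
  refine ⟨u, h1, fun B hB hb => ?_⟩
  have h3 := h2 B hB hb
  have h4 := num_T ht htm hN rfl rfl
  have h5 := (abs_le.1 h3).1
  linarith

end Pool.JM
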