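import Pool.Agent.Work.MP_46fa68_T.Comm

/-!
# MP_46fa68_co: the right inverse of the iterated restriction

`TT ω c m t g = ∑_{s ≤ m} c t s • (Fo ω)^(t+s) (Dl^s g)` satisfies `Dl^t (TT g) = g` on the level `m`
as soon as the coefficients satisfy a recursion.  Two solutions of the recursion: weights affine in the
content (`cH`), and weights `(k - c)(R + c)` (`cS`).
-/

set_option autoImplicit false

open Finset

namespace Pool.JM

/-! ### iterates -/

theorem Dl_congr {M n : ℕ} {f g : Finset ℕ → ℝ} (h : ∀ B ∈ Lv M (n + 1), f B = g B)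
    {B : Finset ℕ} (hB : B ∈ Lv M n) : Dl f B = Dl g B :=
  sum_congr rfl fun _ hx => h _ (mv_mem hB hx)

theorem Fo_congr {M n : ℕ} {ω : ℕ → ℝ} {f g : Finset ℕ → ℝ} (h : ∀ B ∈ Lv M n, f B = g B)
    {B : Finset ℕ} (hB : B ∈ Lv M (n + 1)) : Fo ω f B = Fo ω g B :=
  sum_congr rfl fun x hx => by rw [h _ (mvd_mem hB hx)]

theorem Dli_congr {M : ℕ} : ∀ (j n : ℕ) {f g : Finset ℕ → ℝ}
    (_h : ∀ B ∈ Lv M (n + j), f B = g B) {B : Finset ℕ} (_hB : B ∈ Lv M n), Dl^[j] f B = Dl^[j] g B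
  | 0, n, f, g, h, B, hB => h B hB
  | j + 1, n, f, g, h, B, hB => by
    rw [Function.iterate_succ_apply', Function.iterate_succ_apply']
    refine Dl_congr (fun C hC => Dli_congr j (n + 1) (fun D hD => h D ?_) hC) hB
    rwa [show n + (j + 1) = n + 1 + j by omega]

theorem Foi_zero {M L : ℕ} {ω : ℕ → ℝ} {y : Finset ℕ → ℝ} : ∀ {n : ℕ} {B : Finset ℕ},
    B ∈ Lv M L → L < n → (Fo ω)^[n] y B = 0 := by
  intro n
  induction n generalizing L with
  | zero => intro B _ h; omega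
  | succ n ih =>
    intro B hB h
    rw [Function.iterate_succ_apply']
    cases L with
    | zero =>
      unfold Fo
      rw [rm_zero hB, sum_empty]
    | succ L =>
      show ∑ x ∈ rm B, ω (x - 1) * ((Fo ω)^[n] y) (mvd B x) = 0
      refine sum_eq_zero fun x hx => ?_
      rw [ih (mvd_mem hB hx) (by omega), mul_zero]

theorem Dl_add (f g : Finset ℕ → ℝ) (B : Finset ℕ) : Dl (fun C => f C + g C) B = Dl f B + Dl g B :=
  sum_add_distrib

theorem Dl_smul (a : ℝ) (f : Finset ℕ → ℝ) (B : Finset ℕ) : Dl (fun C => a * f C) B = a * Dl f B := by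
  unfold Dl
  rw [mul_sum]

theorem Dl_sum {ι : Type*} (S : Finset ι) (f : ι → Finset ℕ → ℝ) (B : Finset ℕ) :
    Dl (fun C => ∑ i ∈ S, f i C) B = ∑ i ∈ S, Dl (f i) B := by
  unfold Dl
  rw [sum_comm]

/-- the coefficient in the normal ordering -/
noncomputable def co (p r : ℝ) (n L : ℕ) : ℝ := n * p + 2 * r * (n * L - n * (n - 1) / 2)

/-- normal ordering of `Dl (Fo ω)^n` -/
theorem Dl_Foi {M : ℕ} {ω : ℕ → ℝ} {p r : ℝ}
    (hω : ∀ n B, n < M → B ∈ Lv M n → kap ω B = p + 2 * r * n) :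
    ∀ (n L : ℕ) (y : Finset ℕ → ℝ) (B : Finset ℕ), L < M → B ∈ Lv M L →
      Dl ((Fo ω)^[n] y) B = (Fo ω)^[n] (Dl y) B + co p r n L * (Fo ω)^[n - 1] y B := by
  intro n
  induction n with
  | zero =>
    intro L y B _ _
    simp [co]
  | succ n ih =>
    intro L y B hL hB
    rw [Function.iterate_succ_apply', comm_DF, hω L B hL hB]
    cases L with
    | zero =>
      have h1 : Fo ω (Dl ((Fo ω)^[n] y)) B = 0 := by
        unfold Fo
        rw [rm_zero hB, sum_empty]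
      have h2 : (Fo ω)^[n + 1] (Dl y) B = 0 := Foi_zero hB (by omega)
      rw [h1, h2, Nat.add_sub_cancel]
      cases n with
      | zero =>
        unfold co
        push_cast
        simp
      | succ n =>
        rw [Foi_zero hB (by omega)]
        ring
    | succ L =>
      have h1 : Fo ω (Dl ((Fo ω)^[n] y)) B =
          (Fo ω)^[n + 1] (Dl y) B + co p r n L * Fo ω ((Fo ω)^[n - 1] y) B := by
        rw [Function.iterate_succ_apply']
        rw [Fo_congr (fun C hC => ih L y C (by omega) hC) hB]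
        unfold Fo
        rw [mul_sum, ← sum_add_distrib]
        exact sum_congr rfl fun x _ => by ring
      rw [h1, Nat.add_sub_cancel]
      cases n with
      | zero =>
        unfold co
        push_cast
        simp
      | succ n =>
        rw [Nat.add_sub_cancel, ← Function.iterate_succ_apply' (Fo ω) n y]
        unfold co
        push_cast
        ring

/-! ### the right inverse -/

/-- the operator -/
noncomputable def TT (ω : ℕ → ℝ) (c : ℕ → ℕ → ℝ) (m t : ℕ) (g : Finset ℕ → ℝ) (B : Finset ℕ) : ℝ :=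
  ∑ s ∈ range (m + 1), c t s * (Fo ω)^[t + s] (Dl^[s] g) B

/-- the recursion for the coefficients -/
structure Rec (p r : ℝ) (m : ℕ) (tm : ℕ) (c : ℕ → ℕ → ℝ) : Prop where
  c00 : c 0 0 = 1
  c0s : ∀ s, c 0 (s + 1) = 0
  ct0 : ∀ t < tm, c (t + 1) 0 * co p r (t + 1) (m + t) = c t 0
  cts : ∀ t < tm, ∀ s, c (t + 1) (s + 1) * co p r (t + 1 + (s + 1)) (m + t) + c (t + 1) s = c t (s + 1)

theorem Dl_TT {M m tm : ℕ} {ω : ℕ → ℝ} {p r : ℝ} {c : ℕ → ℕ → ℝ}
    (hω : ∀ n B, n < M → B ∈ Lv M n → kap ω B = p + 2 * r * n) (hc : Rec p r m tm c)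
    {t : ℕ} (ht : t < tm) (hM : m + t < M) (g : Finset ℕ → ℝ) {B : Finset ℕ} (hB : B ∈ Lv M (m + t)) :
    Dl (TT ω c m (t + 1) g) B = TT ω c m t g B := by
  unfold TT
  rw [Dl_sum]
  have h1 : ∀ s ∈ range (m + 1), Dl (fun C => c (t + 1) s * (Fo ω)^[t + 1 + s] (Dl^[s] g) C) B =
      c (t + 1) s * (Fo ω)^[t + (s + 1)] (Dl^[s + 1] g) B +
        c (t + 1) s * co p r (t + 1 + s) (m + t) * (Fo ω)^[t + s] (Dl^[s] g) B := by
    intro s _
    rw [Dl_smul, Dl_Foi hω (t + 1 + s) (m + t) (Dl^[s] g) B hM hB, ← Function.iterate_succ_apply' Dl,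
      show t + 1 + s - 1 = t + s by omega, show t + 1 + s = t + (s + 1) by omega]
    ring
  rw [sum_congr rfl h1, sum_add_distrib, sum_range_succ (fun s => c (t + 1) s *
    (Fo ω)^[t + (s + 1)] (Dl^[s + 1] g) B), sum_range_succ' (fun s => c (t + 1) s *
    co p r (t + 1 + s) (m + t) * (Fo ω)^[t + s] (Dl^[s] g) B), sum_range_succ' (fun s => c t s *
    (Fo ω)^[t + s] (Dl^[s] g) B), Foi_zero hB (by omega : m + t < t + (m + 1)), mul_zero, add_zero]
  rw [← add_assoc, ← sum_add_distrib]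
  congr 1
  · refine sum_congr rfl fun s _ => ?_
    rw [← hc.cts t ht s]
    ring
  · rw [← hc.ct0 t ht]

/-- **T2**: `Dl^t (TT g) = g` on the level `m`. -/
theorem Dli_TT {M m tm : ℕ} {ω : ℕ → ℝ} {p r : ℝ} {c : ℕ → ℕ → ℝ}
    (hω : ∀ n B, n < M → B ∈ Lv M n → kap ω B = p + 2 * r * n) (hc : Rec p r m tm c) :
    ∀ {t : ℕ} (_ht : t ≤ tm) (_hM : m + t ≤ M) (g : Finset ℕ → ℝ) {B : Finset ℕ} (_hB : B ∈ Lv M m),
      Dl^[t] (TT ω c m t g) B = g B
  | 0, _, _, g, B, hB => by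
    show TT ω c m 0 g B = g B
    unfold TT
    rw [sum_range_succ', sum_eq_zero, zero_add, hc.c00, one_mul]
    · rfl
    · intro s _
      rw [hc.c0s, zero_mul]
  | t + 1, ht, hM, g, B, hB => by
    rw [Function.iterate_succ_apply]
    rw [Dli_congr t m (fun C hC => Dl_TT hω hc (by omega) (by omega) g hC) hB]
    exact Dli_TT hω hc (by omega) (by omega) g hB

/-! ### supports and norms -/

/-- The conditions on the set `S` of shapes and the weights: `W` bounds the weights. -/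
structure GoodW (M N : ℕ) (ω : ℕ → ℝ) (S : Finset ℕ → Prop) (W : ℝ) : Prop where
  W0 : 0 ≤ W
  up : ∀ n, n < N → ∀ B ∈ Lv M n, ∀ x ∈ ad B, S (mv B x) → S B
  wt : ∀ n, n < N → ∀ B ∈ Lv M (n + 1), ∀ x ∈ rm B, S (mvd B x) → |ω (x - 1)| ≤ W
  zr : ∀ n, n < N → ∀ B ∈ Lv M (n + 1), ∀ x ∈ rm B, S (mvd B x) → ¬ S B → ω (x - 1) = 0

section norms

variable {M N : ℕ} {ω : ℕ → ℝ} {S : Finset ℕ → Prop} {W : ℝ}

theorem Dl_supp (hG : GoodW M N ω S W) {y : Finset ℕ → ℝ} {n : ℕ} (hn : n < N)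
    (hy : ∀ B ∈ Lv M (n + 1), ¬ S B → y B = 0) :
    ∀ B ∈ Lv M n, ¬ S B → Dl y B = 0 := by
  intro B hB hS
  refine sum_eq_zero fun x hx => hy _ (mv_mem hB hx) fun h => hS (hG.up n hn B hB x hx h)

theorem Dli_supp (hG : GoodW M N ω S W) {y : Finset ℕ → ℝ} : ∀ {j n : ℕ}, n + j ≤ N →
    (∀ B ∈ Lv M (n + j), ¬ S B → y B = 0) → ∀ B ∈ Lv M n, ¬ S B → Dl^[j] y B = 0
  | 0, _, _, h => h
  | j + 1, n, hn, h => by
    intro B hB hS
    rw [Function.iterate_succ_apply']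
    refine Dl_supp hG (by omega) (Dli_supp hG (j := j) (n := n + 1) (by omega) ?_) B hB hS
    rwa [show n + 1 + j = n + (j + 1) by omega]

theorem Fo_supp (hG : GoodW M N ω S W) {y : Finset ℕ → ℝ} {n : ℕ} (hn : n < N)
    (hy : ∀ B ∈ Lv M n, ¬ S B → y B = 0) :
    ∀ B ∈ Lv M (n + 1), ¬ S B → Fo ω y B = 0 := by
  intro B hB hS
  refine sum_eq_zero fun x hx => ?_
  by_cases h : S (mvd B x)
  · rw [hG.zr n hn B hB x hx h hS, zero_mul]
  · rw [hy _ (mvd_mem hB hx) h, mul_zero]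

theorem Foi_supp (hG : GoodW M N ω S W) {y : Finset ℕ → ℝ} {n : ℕ}
    (hy : ∀ B ∈ Lv M n, ¬ S B → y B = 0) :
    ∀ j, n + j ≤ N → ∀ B ∈ Lv M (n + j), ¬ S B → (Fo ω)^[j] y B = 0
  | 0, _, B, hB, hS => hy B hB hS
  | j + 1, hn, B, hB, hS => by
    rw [Function.iterate_succ_apply']
    exact Fo_supp hG (n := n + j) (by omega) (Foi_supp hG hy j (by omega)) B hB hS

theorem Dl_le {y : Finset ℕ → ℝ} {n : ℕ} {ε : ℝ} (hn : n < M)
    (hy : ∀ B ∈ Lv M (n + 1), |y B| ≤ ε * ex B) : ∀ B ∈ Lv M n, |Dl y B| ≤ ε * ex B := by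
  intro B hB
  calc |Dl y B| ≤ ∑ x ∈ ad B, |y (mv B x)| := abs_sum_le_sum_abs _ _
    _ ≤ ∑ x ∈ ad B, ε * ex (mv B x) := sum_le_sum fun x hx => hy _ (mv_mem hB hx)
    _ = ε * Dl ex B := by unfold Dl; rw [mul_sum]
    _ = ε * ex B := by rw [Dl_ex (Lv_zero_mem hB hn)]

theorem Dli_le {y : Finset ℕ → ℝ} {ε : ℝ} : ∀ {j n : ℕ}, n + j ≤ M →
    (∀ B ∈ Lv M (n + j), |y B| ≤ ε * ex B) → ∀ B ∈ Lv M n, |Dl^[j] y B| ≤ ε * ex B
  | 0, _, _, h => h
  | j + 1, n, hn, h => by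
    intro B hB
    rw [Function.iterate_succ_apply']
    refine Dl_le (by omega) (Dli_le (j := j) (n := n + 1) (by omega) ?_) B hB
    rwa [show n + 1 + j = n + (j + 1) by omega]

theorem Fo_le (hG : GoodW M N ω S W) {y : Finset ℕ → ℝ} {n : ℕ} {ε : ℝ} (hn : n < N) (hε : 0 ≤ ε)
    (hs : ∀ B ∈ Lv M n, ¬ S B → y B = 0) (hy : ∀ B ∈ Lv M n, |y B| ≤ ε * ex B) :
    ∀ B ∈ Lv M (n + 1), |Fo ω y B| ≤ W * (n + 1) * ε * ex B := by
  intro B hB
  calc |Fo ω y B| ≤ ∑ x ∈ rm B, |ω (x - 1) * y (mvd B x)| := abs_sum_le_sum_abs _ _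
    _ ≤ ∑ x ∈ rm B, W * ε * ex (mvd B x) := by
        refine sum_le_sum fun x hx => ?_
        by_cases h : S (mvd B x)
        · rw [abs_mul]
          have h1 := hG.wt n hn B hB x hx h
          have h2 := hy _ (mvd_mem hB hx)
          calc |ω (x - 1)| * |y (mvd B x)| ≤ W * (ε * ex (mvd B x)) :=
                mul_le_mul h1 h2 (abs_nonneg _) ((abs_nonneg _).trans h1)
            _ = W * ε * ex (mvd B x) := by ring
        · rw [hs _ (mvd_mem hB hx) h, mul_zero, abs_zero]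
          exact mul_nonneg (mul_nonneg hG.W0 hε) (ex_pos _).le
    _ = W * ε * ∑ x ∈ rm B, ex (mvd B x) := by rw [mul_sum]
    _ = W * (n + 1) * ε * ex B := by
        rw [sum_rm_ex hB]
        push_cast
        ring

theorem Foi_le (hG : GoodW M N ω S W) {y : Finset ℕ → ℝ} {n : ℕ} {ε : ℝ} (hε : 0 ≤ ε)
    (hs : ∀ B ∈ Lv M n, ¬ S B → y B = 0) (hy : ∀ B ∈ Lv M n, |y B| ≤ ε * ex B) :
    ∀ j, n + j ≤ N → ∀ B ∈ Lv M (n + j),
      |(Fo ω)^[j] y B| ≤ W ^ j * ((n + j).descFactorial j : ℝ) * ε * ex B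
  | 0, _, B, hB => by simpa using hy B hB
  | j + 1, hn, B, hB => by
    rw [Function.iterate_succ_apply']
    have h1 := Foi_le hG hε hs hy j (by omega)
    have h2 := Foi_supp hG hs j (by omega)
    have h3 : 0 ≤ W ^ j * ((n + j).descFactorial j : ℝ) * ε :=
      mul_nonneg (mul_nonneg (pow_nonneg hG.W0 _) (by positivity)) hε
    have h4 := Fo_le hG (n := n + j) (by omega) h3 h2 h1 B hB
    have h5 : ((n + (j + 1)).descFactorial (j + 1) : ℝ) =
        ((n + j : ℕ) + 1 : ℝ) * ((n + j).descFactorial j : ℝ) := by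
      rw [show n + (j + 1) = (n + j) + 1 by omega, Nat.succ_descFactorial_succ]
      push_cast
      ring
    rw [h5]
    refine h4.trans (le_of_eq ?_)
    ring

/-- **T3**, support. -/
theorem TT_supp (hG : GoodW M N ω S W) (c : ℕ → ℕ → ℝ) {m t : ℕ} (hN : m + t ≤ N)
    {g : Finset ℕ → ℝ} (hg : ∀ B ∈ Lv M m, ¬ S B → g B = 0) :
    ∀ B ∈ Lv M (m + t), ¬ S B → TT ω c m t g B = 0 := by
  intro B hB hS
  unfold TT
  refine sum_eq_zero fun s hs => ?_
  have hs' : s ≤ m := by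
    have := mem_range.1 hs
    omega
  rw [Foi_supp hG (n := m - s) (Dli_supp hG (j := s) (n := m - s) (by omega) ?_) (t + s) (by omega)
    B ?_ hS, mul_zero]
  · rwa [Nat.sub_add_cancel hs']
  · rwa [show m - s + (t + s) = m + t by omega]

/-- **T3**, norm. -/
theorem TT_le (hG : GoodW M N ω S W) (c : ℕ → ℕ → ℝ) {m t : ℕ} (hN : m + t ≤ N)
    {g : Finset ℕ → ℝ} (hg : ∀ B ∈ Lv M m, ¬ S B → g B = 0) (ε : ℕ → ℝ) (hε0 : ∀ s, 0 ≤ ε s)
    (hε : ∀ s ≤ m, ∀ B ∈ Lv M (m - s), |Dl^[s] g B| ≤ ε s * ex B) :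
    ∀ B ∈ Lv M (m + t), |TT ω c m t g B| ≤
      (∑ s ∈ range (m + 1), |c t s| * W ^ (t + s) * ((m + t).descFactorial (t + s) : ℝ) * ε s) *
        ex B := by
  intro B hB
  unfold TT
  rw [sum_mul]
  refine (abs_sum_le_sum_abs _ _).trans (sum_le_sum fun s hs => ?_)
  have hs' : s ≤ m := by
    have := mem_range.1 hs
    omega
  have h1 : ∀ B ∈ Lv M (m - s), ¬ S B → Dl^[s] g B = 0 :=
    Dli_supp hG (j := s) (n := m - s) (by omega) (by rwa [Nat.sub_add_cancel hs'])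
  have h2 := Foi_le hG (hε0 s) h1 (hε s hs') (t + s) (by omega) B
    (by rwa [show m - s + (t + s) = m + t by omega])
  rw [show m - s + (t + s) = m + t by omega] at h2
  rw [abs_mul]
  calc |c t s| * |(Fo ω)^[t + s] (Dl^[s] g) B| ≤
      |c t s| * (W ^ (t + s) * ((m + t).descFactorial (t + s) : ℝ) * ε s * ex B) :=
        mul_le_mul_of_nonneg_left h2 (abs_nonneg _)
    _ = _ := by ring

/-- **T3**, norm, with the same bound for all the iterates. -/
theorem TT_le' (hG : GoodW M N ω S W) (c : ℕ → ℕ → ℝ) {m t : ℕ} (hN : m + t ≤ N) (hNM : N ≤ M)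
    {g : Finset ℕ → ℝ} (hg : ∀ B ∈ Lv M m, ¬ S B → g B = 0) (ε : ℝ) (hε0 : 0 ≤ ε)
    (hε : ∀ B ∈ Lv M m, |g B| ≤ ε * ex B) :
    ∀ B ∈ Lv M (m + t), |TT ω c m t g B| ≤
      (∑ s ∈ range (m + 1), |c t s| * W ^ (t + s) * ((m + t).descFactorial (t + s) : ℝ)) * ε *
        ex B := by
  intro B hB
  have h := TT_le hG c hN hg (fun _ => ε) (fun _ => hε0) (fun s hs C hC => by
    refine Dli_le (j := s) (n := m - s) (by omega) ?_ C hC
    rwa [Nat.sub_add_cancel hs]) B hB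
  rwa [← sum_mul] at h

end norms

end Pool.JM
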